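import Mathlib

/-!
# Definitions for the results on `MP_5b1cbc_ag`

Function fields of curves and their places, the weighted criterion, and pseudo-geometric
hyperbolicity.
-/

open CategoryTheory AlgebraicGeometry WithZero

universe u

namespace PGH

/-! ## Function fields of one variable and their places -/

/-- `E` is a function field of one variable over `L`: finitely generated as a field over `L` and
of transcendence degree one. -/
class FF (L E : Type*) [Field L] [Field E] [Algebra L E] : Prop where
  ess : Algebra.EssFiniteType L E
  trdeg : Algebra.trdeg L E = 1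

/-- A place of the field `E` over `L`: a surjective valuation `E → ℤ ∪ {∞}` which is trivial on
`L` and whose residue field is `L`. -/
structure Place (L E : Type*) [Field L] [Field E] [Algebra L E] where
  v : Valuation E ℤᵐ⁰
  exists_unif' : ∃ u : E, v u = exp (-1 : ℤ)
  v_const' : ∀ c : L, c ≠ 0 → v (algebraMap L E c) = 1
  exists_res' : ∀ y : E, v y ≤ 1 → ∃ c : L, v (y - algebraMap L E c) < 1

namespace Place

variable {L E : Type*} [Field L] [Field E] [Algebra L E] (P : Place L E)

/-- The order of `y` at the place `P` (junk value `0` for `y = 0`). -/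
noncomputable def ord (y : E) : ℤ := - (WithZero.log (P.v y))

/-- `P.Ge n y` says that `y` has order at least `n` at `P` (true for `y = 0`). -/
def Ge (n : ℤ) (y : E) : Prop := P.v y ≤ exp (-n)

/-- The residue in `L` of an element `y` without a pole at `P` (and `0` if `y` has a pole). -/
noncomputable def res (y : E) : L := by
  classical exact if h : P.v y ≤ 1 then (P.exists_res' y h).choose else 0

end Place

/-- The order at the place `v` of the differential `dx` (characteristic zero): if `x` is regular at
`v` this is `ord_v (x - x(v)) - 1`, and at a pole it is `ord_v x - 1`. -/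
noncomputable def dord {k F : Type*} [Field k] [Field F] [Algebra k F] (x : F) (v : Place k F) : ℤ :=
  v.ord (x - algebraMap k F (v.res x)) - 1

/-- The degree of the divisor of the differential `dx`, that is `2g - 2`. -/
noncomputable def canDeg (k : Type*) {F : Type*} [Field k] [Field F] [Algebra k F] (x : F) : ℤ := 
  ∑ᶠ v : Place k F, dord x v

/-! ## The group action and the criterion -/

section Act

variable {k M G : Type*} [Field k] [Field M] [Algebra k M] [Group G] [MulSemiringAction G M] 
  [SMulCommClass G k M]

theorem smul_algebraMap' (g : G) (c : k) : g • (algebraMap k M c) = algebraMap k M c := by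
  rw [Algebra.algebraMap_eq_smul_one, smul_comm, smul_one]

/-- The automorphism of a `G`-stable subfield `F` given by `g`. -/
noncomputable def actF (F : IntermediateField k M) (hF : ∀ g : G, ∀ z ∈ F, g • z ∈ F) (g : G) : 
    F ≃ₐ[k] F where
  toFun z := ⟨g • z.1, hF g _ z.2⟩
  invFun z := ⟨g⁻¹ • z.1, hF g⁻¹ _ z.2⟩
  left_inv z := by apply Subtype.ext; exact inv_smul_smul g z.1
  right_inv z := by apply Subtype.ext; exact smul_inv_smul g z.1
  map_mul' a b := by apply Subtype.ext; exact smul_mul' g a.1 b.1
  map_add' a b := by apply Subtype.ext; exact smul_add g a.1 b.1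
  commutes' c := by apply Subtype.ext; exact smul_algebraMap' g c

/-- The automorphism `s` fixes the place `v` and acts on the cotangent line at `v` by `c`. -/
def ActsBy {F : Type*} [Field F] [Algebra k F] (s : F ≃ₐ[k] F) (v : Place k F) (c : k) : Prop :=
  (∀ a, v.ord (s a) = v.ord a) ∧ ∀ t, v.ord t = 1 → v.Ge 1 (s t / t - algebraMap k F c)

/-- The weighted criterion.  For `g ≠ 1` in `G` of order `r`, a primitive `r`-th root of unity `ζ`,
and places `v i` of `F i` fixed by `g` at which `g` acts on the cotangent line by `ζ ^ e i` with
`e i ≥ 1`, for the indices `i` such that `g` acts non-trivially on `F i`, one has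
`r * ∑ i, μ i ≤ ∑ i, (μ i + lam i (v i)) * e i`, the sums being over those indices. -/
def Crit {ι : Type*} [Fintype ι] (F : ι → IntermediateField k M) 
    (hF : ∀ i, ∀ g : G, ∀ z ∈ F i, g • z ∈ F i) 
    (μ : ι → ℕ) (lam : ∀ i, Place k (F i) → ℕ) : Prop := by
  classical
  exact ∀ (g : G) (ζ : k), g ≠ 1 → IsPrimitiveRoot ζ (orderOf g) → 
      ∀ (v : ∀ i, Place k (F i)) (e : ι → ℕ), 
      (∀ i, (∃ a : F i, actF (F i) (hF i) g a ≠ a) → 
        0 < e i ∧ ActsBy (actF (F i) (hF i) g) (v i) (ζ ^ e i)) →
      orderOf g * ∑ i ∈ Finset.univ.filter (fun i => ∃ a : F i, actF (F i) (hF i) g a ≠ a), μ i ≤ 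
        ∑ i ∈ Finset.univ.filter (fun i => ∃ a : F i, actF (F i) (hF i) g a ≠ a), 
          (μ i + lam i (v i)) * e i

end Act

/-! ## Pseudo-geometric hyperbolicity -/

/-- The field `k` seen inside the function field of an irreducible `k`-scheme
`f : X ⟶ Spec k`. -/
noncomputable def constants (k : Type u) [Field k] {X : Scheme.{u}} [IrreducibleSpace X]
    (f : X ⟶ Spec (.of k)) : k →+* X.functionField :=
  ((Scheme.ΓSpecIso (.of k)).inv ≫ f.appTop ≫ X.presheaf.germ ⊤ (genericPoint X) trivial).hom

/-- `C` (with structure morphism `g`) is a smooth connected curve over `k`: an integral separated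
scheme of finite type over `k` which is smooth of relative dimension one over `k`. -/
structure IsSmoothCurve (k : Type u) [Field k] {C : Scheme.{u}} (g : C ⟶ Spec (.of k)) :
    Prop where
  integral : IsIntegral C
  separated : IsSeparated g
  quasiCompact : QuasiCompact g
  smooth : SmoothOfRelativeDimension 1 g

/-- `X` (with structure morphism `f`) is pseudo-geometrically hyperbolic over `k`: there is a
proper closed subset `Z` of `X` such that, for every `k`-point `x` of `X` outside `Z` and every
smooth connected curve `C` over `k` with a `k`-point `c`, the set of `k`-morphisms `h : C ⟶ X`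
with `h(c) = x` is finite. -/
def IsPGH (k : Type u) [Field k] {X : Scheme.{u}} (f : X ⟶ Spec (.of k)) : Prop :=
  ∃ Z : Set X, IsClosed Z ∧ Z ≠ Set.univ ∧
    ∀ x : Spec (.of k) ⟶ X, x ≫ f = 𝟙 _ → (∀ p, x p ∉ Z) →
      ∀ (C : Scheme.{u}) (g : C ⟶ Spec (.of k)), IsSmoothCurve k g →
        ∀ c : Spec (.of k) ⟶ C, c ≫ g = 𝟙 _ →
          {h : C ⟶ X | h ≫ f = g ∧ c ≫ h = x}.Finite

end PGH
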