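import Mathlib
import Pool.Agent.Helper1_PGH.Defs

/-!
# Places of function fields of one variable over an algebraically closed field

`Place L E`: a surjective valuation `E → ℤ ∪ {∞}`, trivial on `L`, with residue field `L`.
-/

open WithZero

namespace PGH

namespace Place

variable {L E : Type*} [Field L] [Field E] [Algebra L E]

theorem ext' {P Q : Place L E} (h : P.v = Q.v) : P = Q := by
  cases P; cases Q; simp_all

variable (P : Place L E)

theorem v_ne_zero {y : E} (hy : y ≠ 0) : P.v y ≠ 0 := by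
  simpa using hy

theorem v_eq {y : E} (hy : y ≠ 0) : P.v y = exp (-(P.ord y)) := by
  unfold ord
  rw [neg_neg, exp_log (P.v_ne_zero hy)]

theorem ord_eq_of_v {y : E} {n : ℤ} (h : P.v y = exp (-n)) : P.ord y = n := by
  unfold ord; rw [h, log_exp, neg_neg]

@[simp] theorem ord_zero : P.ord 0 = 0 := by simp [ord]
@[simp] theorem ord_one : P.ord 1 = 0 := by simp [ord]

theorem ord_mul {x y : E} (hx : x ≠ 0) (hy : y ≠ 0) : P.ord (x * y) = P.ord x + P.ord y := by
  apply P.ord_eq_of_v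
  rw [map_mul, P.v_eq hx, P.v_eq hy, ← exp_add]
  congr 1; ring

theorem ord_inv (x : E) : P.ord x⁻¹ = - P.ord x := by
  simp [ord]

@[simp] theorem ord_neg (x : E) : P.ord (-x) = P.ord x := by
  simp [ord, Valuation.map_neg]

theorem ord_div {x y : E} (hx : x ≠ 0) (hy : y ≠ 0) : P.ord (x / y) = P.ord x - P.ord y := by
  rw [div_eq_mul_inv, P.ord_mul hx (inv_ne_zero hy), P.ord_inv]; ring

theorem ord_pow (x : E) (n : ℕ) : P.ord (x ^ n) = n * P.ord x := by
  simp [ord]

theorem ord_zpow (x : E) (n : ℤ) : P.ord (x ^ n) = n * P.ord x := by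
  simp [ord]

theorem ge_iff {y : E} (hy : y ≠ 0) {n : ℤ} : P.Ge n y ↔ n ≤ P.ord y := by
  unfold Ge
  rw [P.v_eq hy, exp_le_exp]
  constructor <;> intro h <;> linarith

@[simp] theorem ge_zero (n : ℤ) : P.Ge n (0 : E) := by simp [Ge]

theorem Ge.mono {P : Place L E} {m n : ℤ} {y : E} (h : P.Ge n y) (hmn : m ≤ n) : P.Ge m y :=
  h.trans (exp_le_exp.2 (by linarith))

theorem Ge.add {P : Place L E} {n : ℤ} {x y : E} (hx : P.Ge n x) (hy : P.Ge n y) :
    P.Ge n (x + y) := (P.v.map_add _ _).trans (max_le hx hy)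

theorem Ge.neg {P : Place L E} {n : ℤ} {x : E} (hx : P.Ge n x) : P.Ge n (-x) := by
  unfold Ge at *; rwa [Valuation.map_neg]

theorem Ge.sub {P : Place L E} {n : ℤ} {x y : E} (hx : P.Ge n x) (hy : P.Ge n y) :
    P.Ge n (x - y) := by rw [sub_eq_add_neg]; exact hx.add hy.neg

theorem Ge.mul {P : Place L E} {m n : ℤ} {x y : E} (hx : P.Ge m x) (hy : P.Ge n y) :
    P.Ge (m + n) (x * y) := by
  unfold Ge at *
  rw [map_mul, neg_add, exp_add]
  exact mul_le_mul' hx hy

theorem Ge.mul' {P : Place L E} {m n l : ℤ} {x y : E} (hx : P.Ge m x) (hy : P.Ge n y)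
    (h : l ≤ m + n) : P.Ge l (x * y) := (hx.mul hy).mono h

theorem Ge.pow {P : Place L E} {m : ℤ} {x : E} (hx : P.Ge m x) (n : ℕ) :
    P.Ge (n * m) (x ^ n) := by
  induction n with
  | zero => simp [Ge]
  | succ n ih =>
    rw [pow_succ]
    have := ih.mul hx
    convert this using 1
    push_cast; ring

theorem Ge.sum {P : Place L E} {ι : Type*} {s : Finset ι} {n : ℤ} {f : ι → E}
    (h : ∀ i ∈ s, P.Ge n (f i)) : P.Ge n (∑ i ∈ s, f i) := by
  classical
  induction s using Finset.induction_on with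
  | empty => simp
  | insert a s ha ih =>
    rw [Finset.sum_insert ha]
    exact (h a (Finset.mem_insert_self _ _)).add
      (ih fun i hi => h i (Finset.mem_insert_of_mem hi))

theorem ge_ord {y : E} : P.Ge (P.ord y) y := by
  by_cases hy : y = 0
  · simp [hy]
  · exact (P.ge_iff hy).2 le_rfl

theorem ge_const (c : L) : P.Ge 0 (algebraMap L E c) := by
  by_cases hc : c = 0
  · simp [hc]
  · unfold Ge; rw [P.v_const' c hc]; simp

theorem ord_const (c : L) : P.ord (algebraMap L E c) = 0 := by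
  by_cases hc : c = 0
  · simp [hc]
  · unfold ord; rw [P.v_const' c hc]; simp

@[simp] theorem ge_one : P.Ge 0 (1 : E) := by simp [Ge]

theorem Ge.smul {P : Place L E} {n : ℤ} {y : E} (hy : P.Ge n y) (c : L) : P.Ge n (c • y) := by
  rw [Algebra.smul_def]
  exact (P.ge_const c).mul' hy (by simp)

theorem ge_zero_iff {y : E} : P.Ge 0 y ↔ P.v y ≤ 1 := by simp [Ge]

theorem ge_one_iff {y : E} : P.Ge 1 y ↔ P.v y < 1 := by
  unfold Ge
  by_cases hy : y = 0
  · simp [hy]
  · rw [P.v_eq hy, exp_le_exp, ← exp_zero, exp_lt_exp]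
    constructor <;> intro h <;> omega

theorem exists_unif : ∃ u : E, u ≠ 0 ∧ P.ord u = 1 := by
  obtain ⟨u, hu⟩ := P.exists_unif'
  refine ⟨u, ?_, P.ord_eq_of_v hu⟩
  rintro rfl
  rw [map_zero] at hu
  exact exp_ne_zero hu.symm

theorem exists_res {y : E} (hy : P.Ge 0 y) : ∃ c : L, P.Ge 1 (y - algebraMap L E c) := by
  obtain ⟨c, hc⟩ := P.exists_res' y (P.ge_zero_iff.1 hy)
  exact ⟨c, P.ge_one_iff.2 hc⟩

theorem not_ge_one_const {c : L} (hc : c ≠ 0) : ¬ P.Ge 1 (algebraMap L E c) := by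
  rw [P.ge_one_iff, P.v_const' c hc]; simp

theorem res_unique {y : E} {c d : L} (hc : P.Ge 1 (y - algebraMap L E c))
    (hd : P.Ge 1 (y - algebraMap L E d)) : c = d := by
  by_contra hne
  have : P.Ge 1 (algebraMap L E (c - d)) := by
    have := hd.sub hc
    rwa [sub_sub_sub_cancel_left, ← map_sub] at this
  exact P.not_ge_one_const (sub_ne_zero.2 hne) this

theorem res_spec {y : E} (hy : P.Ge 0 y) : P.Ge 1 (y - algebraMap L E (P.res y)) := by
  have h : P.v y ≤ 1 := P.ge_zero_iff.1 hy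
  unfold res; rw [dif_pos h]; exact P.ge_one_iff.2 (P.exists_res' y h).choose_spec

theorem res_eq {y : E} (hy : P.Ge 0 y) {c : L} (hc : P.Ge 1 (y - algebraMap L E c)) :
    P.res y = c := P.res_unique (P.res_spec hy) hc

theorem ge_zero_of_res {y : E} {c : L} (hc : P.Ge 1 (y - algebraMap L E c)) : P.Ge 0 y := by
  have := (hc.mono (by norm_num : (0:ℤ) ≤ 1)).add (P.ge_const c)
  simpa using this

/-- The valuation ring of a place. -/
def ring : ValuationSubring E := P.v.valuationSubring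

theorem mem_ring {y : E} : y ∈ P.ring ↔ P.Ge 0 y := by
  rw [P.ge_zero_iff]; exact Iff.rfl

theorem ge_iff_of_unif {u : E} (hu0 : u ≠ 0) (hu : P.ord u = 1) {n : ℤ} {y : E} :
    P.Ge n y ↔ P.Ge 0 (y * u ^ (-n)) := by
  by_cases hy : y = 0
  · simp [hy]
  · rw [P.ge_iff hy, P.ge_iff (mul_ne_zero hy (zpow_ne_zero _ hu0)),
      P.ord_mul hy (zpow_ne_zero _ hu0), P.ord_zpow, hu]
    constructor <;> intro h <;> linarith

/-- Two places with the same valuation ring are equal. -/
theorem eq_of_ring {P Q : Place L E} (h : ∀ y, P.Ge 0 y → Q.Ge 0 y) : P = Q := by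
  -- maximality: units map to units
  obtain ⟨u, hu0, hu⟩ := P.exists_unif
  have hunit : ∀ y : E, y ≠ 0 → P.ord y = 0 → Q.ord y = 0 := by
    intro y hy h0
    have h1 := h y ((P.ge_iff hy).2 h0.ge)
    have h2 := h y⁻¹ ((P.ge_iff (inv_ne_zero hy)).2 (by rw [P.ord_inv]; omega))
    rw [Q.ge_iff hy] at h1
    rw [Q.ge_iff (inv_ne_zero hy), Q.ord_inv] at h2
    omega
  have hlin : ∀ y : E, y ≠ 0 → Q.ord y = P.ord y * Q.ord u := by
    intro y hy
    have h1 : P.ord (y * u ^ (-(P.ord y))) = 0 := by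
      rw [P.ord_mul hy (zpow_ne_zero _ hu0), P.ord_zpow, hu]; ring
    have h2 := hunit _ (mul_ne_zero hy (zpow_ne_zero _ hu0)) h1
    rw [Q.ord_mul hy (zpow_ne_zero _ hu0), Q.ord_zpow] at h2
    linarith
  have hQu : 0 ≤ Q.ord u := (Q.ge_iff hu0).1 (h u ((P.ge_iff hu0).2 (by omega)))
  obtain ⟨w, hw0, hw⟩ := Q.exists_unif
  have h3 := hlin w hw0
  rw [hw] at h3
  have h4 : Q.ord u = 1 := by
    rcases Int.eq_one_or_neg_one_of_mul_eq_one (h3.symm.trans rfl : P.ord w * Q.ord u = 1) with h5 | h5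
    · rw [h5] at h3; omega
    · rw [h5] at h3; omega
  apply ext'
  ext y
  by_cases hy : y = 0
  · simp [hy]
  · rw [P.v_eq hy, Q.v_eq hy, hlin y hy, h4, mul_one]

end Place

end PGH
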