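import Mathlib
import Pool.Agent.Helper1_PGH.Place

open WithZero IntermediateField
open scoped IntermediateField.algebraAdjoinAdjoin

namespace PGH

section FF

variable {L E : Type*} [Field L] [Field E] [Algebra L E]

theorem FF.exists_transcendental [h : FF L E] : ∃ x : E, Transcendental L x := by
  by_contra hcon
  push Not at hcon
  have : Algebra.IsAlgebraic L E := ⟨fun x => by
    have := hcon x
    rwa [Transcendental, not_not] at this⟩
  have h0 := trdeg_eq_zero_iff.2 this
  have h1 := h.trdeg
  rw [h0] at h1
  exact zero_ne_one h1

theorem FF.isAlgebraic [h : FF L E] {x : E} (hx : Transcendental L x) :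
    Algebra.IsAlgebraic L⟮x⟯ E := by
  have h1 : AlgebraicIndependent L (fun _ : Unit => x) :=
    algebraicIndependent_unique_type_iff.2 hx
  have h2 : IsTranscendenceBasis L (fun _ : Unit => x) := by
    apply h1.isTranscendenceBasis_of_lift_trdeg_le_of_finite
    rw [h.trdeg]; simp
  have h3 := h2.isAlgebraic_field
  rwa [Set.range_const] at h3

theorem FF.finite [h : FF L E] {x : E} (hx : Transcendental L x) :
    FiniteDimensional L⟮x⟯ E := by
  have := h.ess
  have := FF.isAlgebraic hx
  have : Algebra.EssFiniteType L⟮x⟯ E := Algebra.EssFiniteType.of_comp L _ _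
  exact Algebra.finite_of_essFiniteType_of_isAlgebraic

theorem FF.of_finite {x : E} (hx : Transcendental L x) (hf : FiniteDimensional L⟮x⟯ E) :
    FF L E where
  ess := by
    have : Algebra.EssFiniteType L L⟮x⟯ :=
      essFiniteType_iff.2 (fg_adjoin_of_finite (Set.finite_singleton x))
    exact Algebra.EssFiniteType.comp L L⟮x⟯ E
  trdeg := by
    have h1 : AlgebraicIndependent L (fun _ : Unit => x) :=
      algebraicIndependent_unique_type_iff.2 hx
    have h2 : IsTranscendenceBasis L (fun _ : Unit => x) := by
      rw [h1.isTranscendenceBasis_iff_isAlgebraic]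
      have h3 : Algebra.IsAlgebraic (IntermediateField.adjoin L (Set.range fun _ : Unit => x)) E := by
        rw [Set.range_const]; infer_instance
      exact Algebra.IsAlgebraic.trans _ (IntermediateField.adjoin L (Set.range fun _ : Unit => x)) _
    have := h2.lift_cardinalMk_eq_trdeg
    simp at this
    exact this.symm

/-- A finite extension of a function field is a function field. -/
theorem FF.extension (L E E' : Type*) [Field L] [Field E] [Field E'] [Algebra L E] [Algebra E E']
    [Algebra L E'] [IsScalarTower L E E'] [h : FF L E] [hf : FiniteDimensional E E'] : FF L E' where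
  ess := by
    have := h.ess
    exact Algebra.EssFiniteType.comp L E E'
  trdeg := by
    have h1 := lift_trdeg_add_eq L E E'
    have h2 : Algebra.trdeg E E' = 0 := trdeg_eq_zero_iff.2 inferInstance
    rw [h.trdeg, h2] at h1
    simpa using h1.symm

variable [IsAlgClosed L]

theorem mem_range_of_isAlgebraic {x : E} (hx : IsAlgebraic L x) : ∃ c : L, algebraMap L E c = x := by
  have := IsAlgClosed.algebraMap_bijective_of_isIntegral (k := L) (K := (integralClosure L E))
  have h2 : x ∈ integralClosure L E := hx.isIntegral
  obtain ⟨c, hc⟩ := this.2 ⟨x, h2⟩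
  exact ⟨c, congrArg Subtype.val hc⟩

theorem transcendental_iff {x : E} : Transcendental L x ↔ ∀ c : L, algebraMap L E c ≠ x := by
  constructor
  · rintro h c rfl
    exact h (isAlgebraic_algebraMap c)
  · intro h hx
    obtain ⟨c, hc⟩ := mem_range_of_isAlgebraic hx
    exact h c hc

end FF

end PGH
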