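import Mathlib
import Pool.Agent.Helper1_PGH.FF

open WithZero IntermediateField Polynomial IsDedekindDomain
open scoped IntermediateField.algebraAdjoinAdjoin nonZeroDivisors

namespace PGH

section Ded

variable (L : Type*) {E : Type*} [Field L] [Field E] [Algebra L E]

/-- the polynomial subring `L[x]` of `E` -/
abbrev Rg (x : E) : Subalgebra L E := Algebra.adjoin L ({x} : Set E)

/-- the integral closure of `L[x]` in `E` -/
abbrev Cl (x : E) : Subalgebra (Rg L x) E := integralClosure (Rg L x) E

variable {L} {x : E}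

theorem isPID (hx : Transcendental L x) : IsPrincipalIdealRing (Rg L x) :=
  IsPrincipalIdealRing.of_surjective (Polynomial.algEquivOfTranscendental L x hx).toRingHom
    (Polynomial.algEquivOfTranscendental L x hx).surjective

variable [IsAlgClosed L] [CharZero L] [FF L E]

theorem isSep (_hx : Transcendental L x) (h : FiniteDimensional L⟮x⟯ E) : 
    Algebra.IsSeparable L⟮x⟯ E := by
  have : CharZero L⟮x⟯ := charZero_of_injective_algebraMap (algebraMap L L⟮x⟯).injective
  infer_instance

theorem cl_dedekind (hx : Transcendental L x) : IsDedekindDomain (Cl L x) := by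
  have := isPID hx
  have h1 := FF.finite hx
  have := isSep hx h1
  exact IsIntegralClosure.isDedekindDomain (Rg L x) L⟮x⟯ E (Cl L x)

theorem cl_frac (hx : Transcendental L x) : IsFractionRing (Cl L x) E := by
  have h1 := FF.finite hx
  exact integralClosure.isFractionRing_of_finite_extension L⟮x⟯ E

theorem cl_finite (hx : Transcendental L x) : Module.Finite (Rg L x) (Cl L x) := by
  have := isPID hx
  have h1 := FF.finite hx
  have := isSep hx h1
  exact IsIntegralClosure.finite (Rg L x) L⟮x⟯ E (Cl L x)

theorem cl_free (hx : Transcendental L x) : Module.Free (Rg L x) (Cl L x) := by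
  have := isPID hx
  have h1 := FF.finite hx
  have := isSep hx h1
  exact IsIntegralClosure.module_free (Rg L x) L⟮x⟯ E (Cl L x)

theorem cl_finrank (hx : Transcendental L x) :
    Module.finrank (Rg L x) (Cl L x) = Module.finrank L⟮x⟯ E := by
  have := isPID hx
  have h1 := FF.finite hx
  have := isSep hx h1
  exact IsIntegralClosure.rank (Rg L x) L⟮x⟯ E (Cl L x)

theorem cl_finiteType (hx : Transcendental L x) : Algebra.FiniteType L (Cl L x) := by
  have := cl_finite hx
  have h2 : Algebra.FiniteType L (Rg L x) := Algebra.FiniteType.adjoin_of_finite (Set.finite_singleton x)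
  have h3 : Algebra.FiniteType (Rg L x) (Cl L x) := inferInstance
  exact Algebra.FiniteType.trans h2 h3

/-- residue field at a maximal ideal is `L` -/
theorem cl_res (hx : Transcendental L x) (q : Ideal (Cl L x)) [hq : q.IsMaximal] (b : Cl L x) :
    ∃ c : L, b - algebraMap L (Cl L x) c ∈ q := by
  have := cl_finiteType hx
  let := Ideal.Quotient.field q
  have h1 : Module.Finite L (Cl L x ⧸ q) := finite_of_finite_type_of_isJacobsonRing L (Cl L x ⧸ q)
  obtain ⟨c, hc⟩ := (IsAlgClosed.algebraMap_bijective_of_isIntegral (k := L)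
    (K := Cl L x ⧸ q)).2 (Ideal.Quotient.mk q b)
  refine ⟨c, ?_⟩
  rw [← Ideal.Quotient.eq]
  rw [← hc]
  rfl

/-- The place attached to a maximal ideal of the integral closure of `L[x]`. -/
noncomputable def Place.ofPrime (hx : Transcendental L x) [IsDedekindDomain (Cl L x)]
    [IsFractionRing (Cl L x) E] (q : HeightOneSpectrum (Cl L x)) : Place L E where
  v := q.valuation E
  exists_unif' := q.valuation_exists_uniformizer E
  v_const' := by
    intro c hc
    have h1 : algebraMap L E c = algebraMap (Cl L x) E (algebraMap L (Cl L x) c) := rfl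
    rw [h1, HeightOneSpectrum.valuation_eq_one_iff_notMem]
    intro hmem
    apply q.isPrime.ne_top
    rw [Ideal.eq_top_iff_one]
    have := q.asIdeal.mul_mem_left (algebraMap L (Cl L x) c⁻¹) hmem
    rwa [← map_mul, inv_mul_cancel₀ hc, map_one] at this
  exists_res' := by
    intro y hy
    obtain ⟨b, hb⟩ := q.exists_valuation_sub_lt_of_integer (K := E) hy 1
    have := q.isMaximal
    obtain ⟨c, hc⟩ := cl_res hx q.asIdeal b
    refine ⟨c, ?_⟩
    have h2 : y - algebraMap L E c = (y - algebraMap (Cl L x) E b) +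
        algebraMap (Cl L x) E (b - algebraMap L (Cl L x) c) := by
      rw [map_sub]
      have h1 : algebraMap L E c = algebraMap (Cl L x) E (algebraMap L (Cl L x) c) := rfl
      rw [h1]; ring
    rw [h2]
    refine Valuation.map_add_lt _ ?_ ?_
    · rw [Valuation.map_sub_swap]; exact hb
    · exact (q.valuation_lt_one_iff_mem (K := E) _).2 hc

end Ded

end PGH

namespace PGH

section P2

variable {L E : Type*} [Field L] [Field E] [Algebra L E]

/-- If the valuation ring of a place is contained in a proper valuation subring, they agree. -/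
theorem Place.ring_eq_of_le (P : Place L E) (A : ValuationSubring E) (hA : A ≠ ⊤)
    (h : ∀ y, P.Ge 0 y → y ∈ A) (y : E) (hy : y ∈ A) : P.Ge 0 y := by
  by_contra hcon
  apply hA
  have hy0 : y ≠ 0 := by rintro rfl; exact hcon (P.ge_zero 0)
  rw [P.ge_iff hy0, not_le] at hcon
  ext z
  simp only [ValuationSubring.mem_top, iff_true]
  by_cases hz : z = 0
  · rw [hz]; exact A.zero_mem
  · set n : ℕ := (P.ord z).natAbs with hn
    have h1 : P.Ge 0 (z * (y⁻¹) ^ n) := by
      have hy1 : y⁻¹ ^ n ≠ 0 := pow_ne_zero _ (inv_ne_zero hy0)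
      rw [P.ge_iff (mul_ne_zero hz hy1), P.ord_mul hz hy1, P.ord_pow, P.ord_inv]
      have h2 : 1 ≤ - P.ord y := by omega
      have h3 : -(n : ℤ) ≤ P.ord z := by omega
      nlinarith [Int.natCast_nonneg n]
    have h2 := h _ h1
    have h3 : z = (z * (y⁻¹) ^ n) * y ^ n := by
      rw [mul_assoc, ← mul_pow, inv_mul_cancel₀ hy0, one_pow, mul_one]
    rw [h3]
    exact A.mul_mem _ _ h2 (pow_mem hy n)

variable [IsAlgClosed L] [CharZero L] [FF L E]

theorem cl_le_of_mem {x : E} (A : ValuationSubring E)
    (hL : ∀ c : L, algebraMap L E c ∈ A) (hxA : x ∈ A) (b : Cl L x) : (b : E) ∈ A := by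
  have h1 : IsIntegral (Rg L x) (b : E) := b.2
  have h3 : ∀ r ∈ Rg L x, r ∈ A := by
    intro r hr
    induction hr using Algebra.adjoin_induction with
    | mem y hy => rw [Set.mem_singleton_iff] at hy; rw [hy]; exact hxA
    | algebraMap c => exact hL c
    | add a b _ _ ha hb => exact A.add_mem _ _ ha hb
    | mul a b _ _ ha hb => exact A.mul_mem _ _ ha hb
  have h4 : IsIntegral A (b : E) := by
    obtain ⟨p, hp, hp2⟩ := h1
    let φ : Rg L x →+* A := 
      { toFun := fun r => ⟨r.1, h3 _ r.2⟩
        map_one' := rfl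
        map_mul' := fun _ _ => rfl
        map_zero' := rfl
        map_add' := fun _ _ => rfl }
    refine ⟨p.map φ, hp.map _, ?_⟩
    rw [Polynomial.eval₂_map]
    exact hp2
  obtain ⟨y, hy⟩ := IsIntegrallyClosed.algebraMap_eq_of_integral h4
  rw [← hy]
  exact y.2

/-- Classification: a proper valuation subring containing `L` and a transcendental `x` comes from
a maximal ideal of the integral closure of `L[x]`. -/
theorem exists_ofPrime {x : E} (hx : Transcendental L x) [IsDedekindDomain (Cl L x)]
    [IsFractionRing (Cl L x) E] (A : ValuationSubring E)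
    (hL : ∀ c : L, algebraMap L E c ∈ A) (hxA : x ∈ A) (hA : A ≠ ⊤) :
    ∃ q : HeightOneSpectrum (Cl L x), (∀ y, (Place.ofPrime hx q).Ge 0 y ↔ y ∈ A) ∧
      ∀ b : Cl L x, b ∈ q.asIdeal ↔ A.valuation (b : E) < 1 := by
  have hB := cl_le_of_mem A hL hxA
  let I : Ideal (Cl L x) :=
    { carrier := {b | A.valuation (b : E) < 1}
      add_mem' := by
        intro a b ha hb
        exact A.valuation.map_add_lt (x := (a : E)) (y := (b : E)) ha hb
      zero_mem' := by simp
      smul_mem' := by
        intro c b hb
        have h1 : A.valuation (c : E) ≤ 1 := (A.valuation_le_one_iff _).2 (hB c)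
        change A.valuation (b : E) < 1 at hb
        change A.valuation (((c • b : Cl L x)) : E) < 1
        have h2 : (((c • b : Cl L x)) : E) = (c : E) * (b : E) := rfl
        rw [h2, map_mul]
        calc A.valuation (c : E) * A.valuation (b : E) ≤ 1 * A.valuation (b : E) := by
              exact mul_le_mul_left h1 _
          _ < 1 := by rwa [one_mul] }
  have hI : ∀ b : Cl L x, b ∈ I ↔ A.valuation (b : E) < 1 := fun b => Iff.rfl
  have hprime : I.IsPrime := by
    refine ⟨?_, ?_⟩
    · intro htop
      have := (Ideal.eq_top_iff_one I).1 htop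
      rw [hI] at this
      simp at this
    · intro a b hab
      rw [hI] at hab ⊢
      rw [hI]
      by_contra hcon
      push Not at hcon
      have h2 : (((a * b : Cl L x)) : E) = (a : E) * (b : E) := rfl
      rw [h2, map_mul] at hab
      exact absurd (one_le_mul hcon.1 hcon.2) (not_le.2 hab)
  have hbot : I ≠ ⊥ := by
    intro hbot
    apply hA
    ext z
    simp only [ValuationSubring.mem_top, iff_true]
    obtain ⟨a, b, hb, rfl⟩ := IsFractionRing.div_surjective (A := Cl L x) z
    have hb0 : b ≠ 0 := nonZeroDivisors.ne_zero hb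
    have hb1 : b ∉ I := by rw [hbot]; simpa using hb0
    rw [hI, not_lt] at hb1
    rw [← A.valuation_le_one_iff, map_div₀]
    have h2 : A.valuation (algebraMap (Cl L x) E a) ≤ 1 := (A.valuation_le_one_iff _).2 (hB a)
    calc A.valuation (algebraMap (Cl L x) E a) / A.valuation (algebraMap (Cl L x) E b)
        ≤ 1 / 1 := div_le_div₀ zero_le_one h2 zero_lt_one hb1
      _ = 1 := by simp
  let q : HeightOneSpectrum (Cl L x) := ⟨I, hprime, hbot⟩
  refine ⟨q, ?_, fun b => Iff.rfl⟩
  have h1 : ∀ y, (Place.ofPrime hx q).Ge 0 y → y ∈ A := by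
    intro y hy
    rw [Place.ge_zero_iff] at hy
    obtain ⟨n, d, hnd⟩ := q.exists_primeCompl_mul_eq_of_integer (K := E) y hy
    have hd : ¬ ((d : Cl L x) ∈ I) := d.2
    rw [hI, not_lt] at hd
    have h2 : A.valuation y * A.valuation ((d : Cl L x) : E) ≤ 1 := by
      rw [← map_mul]
      have : y * ((d : Cl L x) : E) = (n : E) := hnd
      rw [this]
      exact (A.valuation_le_one_iff _).2 (hB n)
    rw [← A.valuation_le_one_iff]
    by_contra hcon
    push Not at hcon
    have := one_lt_mul_of_lt_of_le hcon hd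
    exact absurd h2 (not_le.2 this)
  intro y
  exact ⟨h1 y, Place.ring_eq_of_le _ A hA h1 y⟩

theorem Place.v_valuation_lt_one (P : Place L E) (y : E) :
    P.ring.valuation y < 1 ↔ P.Ge 1 y := by
  rw [P.ge_one_iff]
  by_cases hy : y = 0
  · simp [hy]
  · have h1 : P.ring.valuation y⁻¹ ≤ 1 ↔ P.v y⁻¹ ≤ 1 := by
      rw [P.ring.valuation_le_one_iff, P.mem_ring, P.ge_zero_iff]
    rw [map_inv₀, map_inv₀] at h1
    have hv : 0 < P.ring.valuation y := by
      rw [zero_lt_iff]; simpa using hy
    have hv' : 0 < P.v y := by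
      rw [zero_lt_iff]; simpa using hy
    rw [inv_le_one₀ hv, inv_le_one₀ hv'] at h1
    exact not_iff_not.1 (by rw [not_lt, not_lt]; exact h1)

/-- Every proper valuation subring containing the constants is the ring of a place. -/
theorem Place.exists_of_valuationSubring (A : ValuationSubring E)
    (hL : ∀ c : L, algebraMap L E c ∈ A) (hA : A ≠ ⊤) :
    ∃ P : Place L E, ∀ y, P.Ge 0 y ↔ y ∈ A := by
  have : ∃ y, y ∉ A := by
    by_contra hcon
    push Not at hcon
    apply hA
    ext z
    simp [hcon z]
  obtain ⟨y, hy⟩ := this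
  have hy0 : y ≠ 0 := by rintro rfl; exact hy A.zero_mem
  have hyi : y⁻¹ ∈ A := (A.mem_or_inv_mem y).resolve_left hy
  have htr : Transcendental L y⁻¹ := by
    rw [transcendental_iff]
    intro c hc
    apply hy
    have hc' : y = algebraMap L E c⁻¹ := by
      rw [map_inv₀, hc, inv_inv]
    rw [hc']
    exact hL _
  have := cl_dedekind htr
  have := cl_frac htr
  obtain ⟨q, hq, -⟩ := exists_ofPrime htr A hL hyi hA
  exact ⟨_, hq⟩

theorem Place.eq_ofPrime (P : Place L E) {x : E} (hx : Transcendental L x)
    [IsDedekindDomain (Cl L x)] [IsFractionRing (Cl L x) E] (hxP : P.Ge 0 x) :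
    ∃ q : HeightOneSpectrum (Cl L x), P = Place.ofPrime hx q ∧
      ∀ b : Cl L x, b ∈ q.asIdeal ↔ P.Ge 1 (b : E) := by
  have hne : P.ring ≠ ⊤ := by
    intro htop
    obtain ⟨u, hu0, hu⟩ := P.exists_unif
    have : u⁻¹ ∈ P.ring := by rw [htop]; trivial
    rw [P.mem_ring, P.ge_iff (inv_ne_zero hu0), P.ord_inv, hu] at this
    omega
  obtain ⟨q, hq, hq2⟩ := exists_ofPrime hx P.ring (fun c => P.mem_ring.2 (P.ge_const c))
    (P.mem_ring.2 hxP) hne
  refine ⟨q, ?_, ?_⟩
  · apply Place.eq_of_ring
    intro y hy
    exact (hq y).2 (P.mem_ring.2 hy)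
  · intro b
    rw [hq2, P.v_valuation_lt_one]

end P2

end PGH
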