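import Mathlib
import Pool.Agent.Helper1_PGH.Ded

open WithZero IntermediateField Polynomial IsDedekindDomain
open scoped IntermediateField.algebraAdjoinAdjoin nonZeroDivisors

namespace PGH

section Deg

variable {L E : Type*} [Field L] [Field E] [Algebra L E]

/-- `x` as an element of `L[x]` -/
def rgX (L : Type*) {E : Type*} [Field L] [Field E] [Algebra L E] (x : E) : Rg L x :=
  ⟨x, Algebra.self_mem_adjoin_singleton L x⟩

theorem rg_decomp (x : E) (r : Rg L x) : ∃ (c : L) (s : Rg L x), 
    r = algebraMap L (Rg L x) c + s * rgX L x := by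
  obtain ⟨r, hr⟩ := r
  induction hr using Algebra.adjoin_induction with
  | mem y hy =>
    rw [Set.mem_singleton_iff] at hy; subst hy
    exact ⟨0, 1, by rw [map_zero, zero_add, one_mul]; rfl⟩
  | algebraMap c => exact ⟨c, 0, by rw [zero_mul, add_zero]; rfl⟩
  | add a b ha hb iha ihb =>
    obtain ⟨c, s, h1⟩ := iha
    obtain ⟨d, t, h2⟩ := ihb
    refine ⟨c + d, s + t, ?_⟩
    have h3 : (⟨a + b, Subalgebra.add_mem _ ha hb⟩ : Rg L x) = ⟨a, ha⟩ + ⟨b, hb⟩ := rfl
    rw [h3, h1, h2, map_add]; ring
  | mul a b ha hb iha ihb =>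
    obtain ⟨c, s, h1⟩ := iha
    obtain ⟨d, t, h2⟩ := ihb
    refine ⟨c * d, algebraMap L _ c * t + s * (algebraMap L _ d + t * rgX L x), ?_⟩
    have h3 : (⟨a * b, Subalgebra.mul_mem _ ha hb⟩ : Rg L x) = ⟨a, ha⟩ * ⟨b, hb⟩ := rfl
    rw [h3, h1, h2, map_mul]; ring

theorem rg_span_ne_top {x : E} (hx : Transcendental L x) (hx0 : (Ideal.span {rgX L x} : Ideal (Rg L x)) = ⊤) :
    False := by
  have h := (Ideal.eq_top_iff_one _).1 hx0
  rw [Ideal.mem_span_singleton] at h
  obtain ⟨⟨r, hr⟩, h1⟩ := h
  have h2 : (1 : E) = x * r := congrArg Subtype.val h1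
  have hr' : r ∈ Algebra.adjoin L ({x} : Set E) := hr
  rw [Algebra.adjoin_singleton_eq_range_aeval] at hr'
  obtain ⟨p, hp⟩ := hr'
  have hp' : Polynomial.aeval x p = r := hp
  have h3 : Polynomial.aeval x (X * p - 1 : L[X]) = 0 := by
    rw [map_sub, map_mul, aeval_X, map_one, hp', ← h2, sub_self]
  have h4 := (transcendental_iff_injective.1 hx) (a₁ := X * p - 1) (a₂ := 0) (by rw [h3, map_zero])
  have h5 := congrArg (Polynomial.eval 0) h4
  simp at h5

theorem rg_isMaximal {x : E} (hx : Transcendental L x) :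
    (Ideal.span {rgX L x} : Ideal (Rg L x)).IsMaximal := by
  rw [Ideal.isMaximal_iff]
  constructor
  · intro h
    exact rg_span_ne_top hx ((Ideal.eq_top_iff_one _).2 h)
  · intro J r hJ hr hrJ
    obtain ⟨c, s, hrs⟩ := rg_decomp x r
    have hc : c ≠ 0 := by
      rintro rfl
      apply hr
      rw [hrs, map_zero, zero_add]
      exact Ideal.mul_mem_left _ _ (Ideal.mem_span_singleton_self _)
    have h1 : algebraMap L (Rg L x) c ∈ J := by
      have : algebraMap L (Rg L x) c = r - s * rgX L x := by rw [hrs]; ring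
      rw [this]
      exact J.sub_mem hrJ (hJ (Ideal.mul_mem_left _ _ (Ideal.mem_span_singleton_self _)))
    have h2 := J.mul_mem_left (algebraMap L _ c⁻¹) h1
    rwa [← map_mul, inv_mul_cancel₀ hc, map_one] at h2

variable [IsAlgClosed L] [CharZero L] [FF L E]

theorem ofPrime_ord {x : E} (hx : Transcendental L x) [IsDedekindDomain (Cl L x)]
    [IsFractionRing (Cl L x) E] (q : HeightOneSpectrum (Cl L x)) (b : Cl L x) (hb : b ≠ 0) :
    (Place.ofPrime hx q).ord (b : E) = multiplicity q.asIdeal (Ideal.span {b}) := by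
  apply Place.ord_eq_of_v
  change q.valuation E (algebraMap (Cl L x) E b) = _
  rw [HeightOneSpectrum.valuation_of_algebraMap, q.intValuation_eq_exp_neg_multiplicity hb]

theorem ofPrime_ge_one {x : E} (hx : Transcendental L x) [IsDedekindDomain (Cl L x)]
    [IsFractionRing (Cl L x) E] (q : HeightOneSpectrum (Cl L x)) (b : Cl L x) :
    (Place.ofPrime hx q).Ge 1 (b : E) ↔ b ∈ q.asIdeal := by
  rw [Place.ge_one_iff]
  exact q.valuation_lt_one_iff_mem (K := E) b

theorem ofPrime_ge_zero {x : E} (hx : Transcendental L x) [IsDedekindDomain (Cl L x)]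
    [IsFractionRing (Cl L x) E] (q : HeightOneSpectrum (Cl L x)) (b : Cl L x) :
    (Place.ofPrime hx q).Ge 0 (b : E) := by
  rw [Place.ge_zero_iff]
  exact q.valuation_le_one (K := E) b

theorem ofPrime_injective {x : E} (hx : Transcendental L x) [IsDedekindDomain (Cl L x)]
    [IsFractionRing (Cl L x) E] {q q' : HeightOneSpectrum (Cl L x)} 
    (h : Place.ofPrime hx q = Place.ofPrime hx q') : q = q' := by
  apply HeightOneSpectrum.ext
  ext b
  rw [← ofPrime_ge_one hx, ← ofPrime_ge_one hx, h]

/-- **Degree formula**: the number of zeros of a transcendental `x`, counted with multiplicity, is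
`[E : L(x)]`. -/
theorem exists_zeros {x : E} (hx : Transcendental L x) :
    ∃ s : Finset (Place L E), (∀ P, P ∈ s ↔ P.Ge 1 x) ∧
      ∑ P ∈ s, P.ord x = Module.finrank L⟮x⟯ E := by
  classical
  have := cl_dedekind hx
  have := cl_frac hx
  have := cl_finite hx
  have := cl_free hx
  have := isPID hx
  set p : Ideal (Rg L x) := Ideal.span {rgX L x} with hp
  have hpmax : p.IsMaximal := rg_isMaximal hx
  have hinj : Function.Injective (algebraMap (Rg L x) (Cl L x)) := 
    FaithfulSMul.algebraMap_injective _ _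
  have hx0 : x ≠ 0 := by rintro rfl; exact hx isAlgebraic_zero
  have hxr : rgX L x ≠ 0 := fun h => hx0 (congrArg Subtype.val h)
  set xB : Cl L x := algebraMap (Rg L x) (Cl L x) (rgX L x) with hxB
  have hxB0 : xB ≠ 0 := by
    rw [hxB, Ne, map_eq_zero_iff _ hinj]; exact hxr
  have hxBval : (xB : E) = x := rfl
  have hmap : p.map (algebraMap (Rg L x) (Cl L x)) = Ideal.span {xB} := by
    rw [hp, Ideal.map_span, Set.image_singleton]
  have hmap0 : p.map (algebraMap (Rg L x) (Cl L x)) ≠ ⊥ := by
    rw [hmap, Ne, Ideal.span_singleton_eq_bot]; exact hxB0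
  let _ : Fintype (p.primesOver (Cl L x)) := 
    (Algebra.QuasiFinite.finite_primesOver p).fintype
  have hsum := Ideal.sum_ramification_inertia_eq_finrank p (Cl L x)
  rw [cl_finrank hx] at hsum
  -- the height one primes
  have hne : ∀ q : p.primesOver (Cl L x), q.1 ≠ ⊥ := by
    rintro ⟨q, hq1, hq2⟩ rfl
    apply hmap0
    rw [eq_bot_iff]
    exact Ideal.map_le_iff_le_comap.2 hq2.over.le
  let φ : p.primesOver (Cl L x) → HeightOneSpectrum (Cl L x) := fun q => ⟨q.1, q.2.1, hne q⟩
  have hφinj : Function.Injective φ := by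
    intro q q' h
    exact Subtype.ext (congrArg HeightOneSpectrum.asIdeal h)
  refine ⟨Finset.univ.image (fun q => Place.ofPrime hx (φ q)), ?_, ?_⟩
  · intro P
    rw [Finset.mem_image]
    constructor
    · rintro ⟨q, -, rfl⟩
      have h1 : xB ∈ q.1 := by
        have : rgX L x ∈ p := Ideal.mem_span_singleton_self _
        exact q.2.2.over.le this
      have := (ofPrime_ge_one hx (φ q) xB).2 h1
      rwa [hxBval] at this
    · intro hP
      obtain ⟨q, rfl, hq⟩ := P.eq_ofPrime hx (hP.mono (by norm_num))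
      have hlies : q.asIdeal.LiesOver p := by
        refine ⟨hpmax.eq_of_le ?_ ?_⟩
        · exact Ideal.comap_ne_top _ q.isPrime.ne_top
        · rw [hp, Ideal.span_singleton_le_iff_mem]
          change xB ∈ q.asIdeal
          rw [hq, hxBval]; exact hP
      exact ⟨⟨q.asIdeal, q.isPrime, hlies⟩, Finset.mem_univ _, rfl⟩
  · rw [Finset.sum_image]
    · have h1 : ∀ q : p.primesOver (Cl L x), (Place.ofPrime hx (φ q)).ord x = 
          ((q.1.ramificationIdx (Rg L x) * q.1.inertiaDeg (Rg L x) : ℕ) : ℤ) := by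
        intro q
        have hq1 := q.2.1
        have hq2 := q.2.2
        have h2 : (Place.ofPrime hx (φ q)).ord x = multiplicity q.1 (Ideal.span {xB}) := by
          have := ofPrime_ord hx (φ q) xB hxB0
          rwa [hxBval] at this
        rw [h2]
        have hqmax : q.1.IsMaximal := (φ q).isMaximal
        have h3 : q.1.inertiaDeg (Rg L x) = 1 := by
          rw [Ideal.inertiaDeg_eq_of_isMaximal p q.1]
          let _ : Field (Rg L x ⧸ p) := Ideal.Quotient.field p
          let _ : Field (Cl L x ⧸ q.1) := Ideal.Quotient.field q.1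
          rw [finrank_eq_one_iff_of_nonzero' (1 : Cl L x ⧸ q.1) one_ne_zero]
          intro w
          obtain ⟨b, rfl⟩ := Ideal.Quotient.mk_surjective w
          obtain ⟨c, hc⟩ := cl_res hx q.1 b
          refine ⟨Ideal.Quotient.mk p (algebraMap L (Rg L x) c), ?_⟩
          rw [Algebra.smul_def, mul_one]
          rw [← Ideal.Quotient.eq] at hc
          rw [hc]
          rfl
        have h4 : q.1.ramificationIdx (Rg L x) = multiplicity q.1 (Ideal.span {xB}) := by
          rw [Ideal.IsDedekindDomain.ramificationIdx_eq_multiplicity p q.1 hmap0, hmap]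
        rw [h3, h4, mul_one]
      rw [Finset.sum_congr rfl (fun q _ => h1 q), ← Nat.cast_sum, hsum]
    · intro q _ q' _ h
      exact hφinj (ofPrime_injective hx h)

end Deg

end PGH
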