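import Mathlib
import Pool.Agent.Helper1_PGH.Deg

open WithZero IntermediateField

namespace PGH

section Ht

variable (L : Type*) {E : Type*} [Field L] [Field E] [Algebra L E]

open Classical in
/-- The degree (height) of an element of a function field: `[E : L(w)]`, and `0` for constants. -/
noncomputable def ht (w : E) : ℕ := if Transcendental L w then Module.finrank L⟮w⟯ E else 0

variable {L} [IsAlgClosed L] [CharZero L] [FF L E]

theorem ht_pos {w : E} (hw : Transcendental L w) : 0 < ht L w := by
  unfold ht; rw [if_pos hw]
  have := FF.finite hw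
  exact Module.finrank_pos

theorem not_transcendental {y : E} (h : ¬ Transcendental L y) : ∃ c : L, algebraMap L E c = y := by
  unfold Transcendental at h
  rw [not_not] at h
  exact mem_range_of_isAlgebraic h

theorem transcendental_sub {x : E} (hx : Transcendental L x) (c : L) :
    Transcendental L (x - algebraMap L E c) := by
  rw [transcendental_iff] at hx ⊢
  intro d hd
  exact hx (d + c) (by rw [map_add, hd]; ring)

theorem transcendental_inv {x : E} (hx : Transcendental L x) : Transcendental L x⁻¹ := by
  rw [transcendental_iff] at hx ⊢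
  intro d hd
  exact hx (d⁻¹) (by rw [map_inv₀, hd, inv_inv])

theorem exists_zeros_sub {x : E} (hx : Transcendental L x) (c : L) :
    ∃ s : Finset (Place L E), (∀ P, P ∈ s ↔ P.Ge 1 (x - algebraMap L E c)) ∧
      ∑ P ∈ s, P.ord (x - algebraMap L E c) = ht L x := by
  obtain ⟨s, hs, h⟩ := exists_zeros (transcendental_sub hx c)
  refine ⟨s, hs, ?_⟩
  rw [h]; unfold ht; rw [if_pos hx]
  have : L⟮x - algebraMap L E c⟯ = L⟮x⟯ := by
    apply le_antisymm
    · rw [adjoin_simple_le_iff]
      exact sub_mem (mem_adjoin_simple_self L x) (IntermediateField.algebraMap_mem _ c)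
    · rw [adjoin_simple_le_iff]
      have := add_mem (mem_adjoin_simple_self L (x - algebraMap L E c)) 
        (IntermediateField.algebraMap_mem L⟮x - algebraMap L E c⟯ c)
      simpa using this
  rw [this]

theorem exists_poles {x : E} (hx : Transcendental L x) :
    ∃ s : Finset (Place L E), (∀ P, P ∈ s ↔ P.ord x < 0) ∧
      ∑ P ∈ s, (- P.ord x) = ht L x := by
  obtain ⟨s, hs, h⟩ := exists_zeros (transcendental_inv hx)
  have hx0 : x ≠ 0 := by rintro rfl; exact hx isAlgebraic_zero
  refine ⟨s, ?_, ?_⟩
  · intro P
    rw [hs, P.ge_iff (inv_ne_zero hx0), P.ord_inv]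
    constructor <;> intro h <;> omega
  · simp_rw [← Place.ord_inv]
    rw [h]; unfold ht; rw [if_pos hx]
    have : L⟮x⁻¹⟯ = L⟮x⟯ := by
      apply le_antisymm
      · rw [adjoin_simple_le_iff]
        exact inv_mem (mem_adjoin_simple_self L x)
      · rw [adjoin_simple_le_iff]
        have := inv_mem (mem_adjoin_simple_self L (x⁻¹)) 
        simpa using this
    rw [this]

theorem exists_zeros0 {x : E} (hx : Transcendental L x) :
    ∃ s : Finset (Place L E), (∀ P, P ∈ s ↔ 0 < P.ord x) ∧
      ∑ P ∈ s, P.ord x = ht L x := by
  obtain ⟨s, hs, h⟩ := exists_zeros_sub hx 0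
  rw [map_zero] at hs h
  rw [sub_zero] at hs h
  have hx0 : x ≠ 0 := by rintro rfl; exact hx isAlgebraic_zero
  refine ⟨s, ?_, h⟩
  intro P
  rw [hs, P.ge_iff hx0]
  constructor <;> intro h <;> omega

/-- only finitely many places have `ord ≠ 0` -/
theorem finite_support (y : E) : {P : Place L E | P.ord y ≠ 0}.Finite := by
  by_cases hy : Transcendental L y
  · obtain ⟨s, hs, -⟩ := exists_poles hy
    obtain ⟨t, ht, -⟩ := exists_zeros0 hy
    apply (s.finite_toSet.union t.finite_toSet).subset
    intro P hP
    rcases lt_or_gt_of_ne (show P.ord y ≠ 0 from hP) with h | h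
    · left; exact (hs P).2 h
    · right; exact (ht P).2 h
  · obtain ⟨c, rfl⟩ := not_transcendental hy
    convert! Set.finite_empty
    ext P
    simp [P.ord_const]

/-- **Product formula.** -/
theorem sum_ord_eq_zero (y : E) (s : Finset (Place L E)) (hs : ∀ P ∉ s, P.ord y = 0) :
    ∑ P ∈ s, P.ord y = 0 := by
  classical
  by_cases hy : Transcendental L y
  · obtain ⟨a, ha, ha2⟩ := exists_poles hy
    obtain ⟨b, hb, hb2⟩ := exists_zeros0 hy
    have h1 : ∑ P ∈ s, P.ord y = ∑ P ∈ b, P.ord y + ∑ P ∈ a, P.ord y := by
      have hdisj : Disjoint b a := by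
        rw [Finset.disjoint_left]
        intro P hPb hPa
        rw [hb] at hPb; rw [ha] at hPa; omega
      rw [← Finset.sum_union hdisj]
      symm
      apply Finset.sum_subset
      · intro P hP
        by_contra hPs
        have h0 := hs P hPs
        rw [Finset.mem_union, ha, hb] at hP
        omega
      · intro P _ hP
        rw [Finset.mem_union, ha, hb] at hP
        omega
    rw [Finset.sum_neg_distrib] at ha2
    rw [h1, hb2]; linarith
  · obtain ⟨c, rfl⟩ := not_transcendental hy
    apply Finset.sum_eq_zero
    intro P _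
    exact P.ord_const c

/-- The sum of the pole orders over any finite set of places is at most the height. -/
theorem sum_poles_le (y : E) (s : Finset (Place L E)) :
    ∑ P ∈ s, max 0 (- P.ord y) ≤ ht L y := by
  classical
  by_cases hy : Transcendental L y
  · obtain ⟨a, ha, ha2⟩ := exists_poles hy
    rw [← ha2]
    calc ∑ P ∈ s, max 0 (- P.ord y) ≤ ∑ P ∈ s ∪ a, max 0 (- P.ord y) := by
          apply Finset.sum_le_sum_of_subset_of_nonneg Finset.subset_union_left
          intros; exact le_max_left _ _
      _ = ∑ P ∈ a, max 0 (- P.ord y) := by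
          symm
          apply Finset.sum_subset Finset.subset_union_right
          intro P _ hP
          rw [ha] at hP
          apply max_eq_left; omega
      _ = ∑ P ∈ a, (- P.ord y) := by
          apply Finset.sum_congr rfl
          intro P hP
          rw [ha] at hP
          apply max_eq_right; omega
  · obtain ⟨c, rfl⟩ := not_transcendental hy
    apply le_of_eq_of_le _ (Int.natCast_nonneg _)
    apply Finset.sum_eq_zero
    intro P _
    rw [P.ord_const c]; simp

theorem sum_poles_eq (y : E) (s : Finset (Place L E)) (hs : ∀ P ∉ s, P.ord y = 0) :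
    ∑ P ∈ s, max 0 (- P.ord y) = ht L y := by
  classical
  by_cases hy : Transcendental L y
  · obtain ⟨a, ha, ha2⟩ := exists_poles hy
    rw [← ha2]
    have hsub : a ⊆ s := by
      intro P hP
      by_contra hPs
      have := hs P hPs
      rw [ha] at hP; omega
    calc ∑ P ∈ s, max 0 (- P.ord y) = ∑ P ∈ a, max 0 (- P.ord y) := by
          symm
          apply Finset.sum_subset hsub
          intro P _ hP
          rw [ha] at hP
          apply max_eq_left; omega
      _ = ∑ P ∈ a, (- P.ord y) := by
          apply Finset.sum_congr rfl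
          intro P hP
          rw [ha] at hP
          apply max_eq_right; omega
  · have h0 : ht L y = 0 := by unfold ht; rw [if_neg hy]
    rw [h0]
    obtain ⟨c, rfl⟩ := not_transcendental hy
    apply Finset.sum_eq_zero
    intro P _
    rw [P.ord_const c]; simp

/-- A function without poles is constant. -/
theorem const_of_ge_zero {y : E} (h : ∀ P : Place L E, P.Ge 0 y) : ∃ c : L, algebraMap L E c = y := by
  apply not_transcendental
  intro hy
  obtain ⟨s, hs, h2⟩ := exists_poles hy
  have hy0 : y ≠ 0 := by rintro rfl; exact hy isAlgebraic_zero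
  have : s = ∅ := by
    rw [Finset.eq_empty_iff_forall_notMem]
    intro P hP
    rw [hs] at hP
    have := (P.ge_iff hy0).1 (h P)
    omega
  rw [this, Finset.sum_empty] at h2
  have := ht_pos hy
  omega

/-- every transcendental element has a pole -/
theorem exists_pole {y : E} (hy : Transcendental L y) : ∃ P : Place L E, P.ord y < 0 := by
  by_contra hcon
  push Not at hcon
  have hy0 : y ≠ 0 := by rintro rfl; exact hy isAlgebraic_zero
  obtain ⟨c, hc⟩ := const_of_ge_zero (fun P => (P.ge_iff hy0).2 (hcon P))
  exact (transcendental_iff.1 hy) c hc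

/-- every transcendental element takes every value -/
theorem exists_zero {y : E} (hy : Transcendental L y) (c : L) : 
    ∃ P : Place L E, P.Ge 1 (y - algebraMap L E c) := by
  obtain ⟨P, hP⟩ := exists_pole (transcendental_inv (transcendental_sub hy c))
  refine ⟨P, ?_⟩
  have hy0 : y - algebraMap L E c ≠ 0 := by
    intro h0
    exact (transcendental_sub hy c) (h0 ▸ isAlgebraic_zero)
  rw [P.ge_iff hy0]
  rw [P.ord_inv] at hP
  omega

end Ht

end PGH
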