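import Mathlib
import Pool.Agent.Helper1_PGH.Ht

open WithZero IntermediateField
open scoped IntermediateField.algebraAdjoinAdjoin

namespace PGH

section RR

variable {L E : Type*} [Field L] [Field E] [Algebra L E]

/-- The space of functions with `ord_P y ≥ - D P` for all `P`. -/
def LD (D : Place L E → ℤ) : Submodule L E where
  carrier := {y | ∀ P : Place L E, P.Ge (- D P) y}
  add_mem' := fun ha hb P => (ha P).add (hb P)
  zero_mem' := fun P => P.ge_zero _
  smul_mem' := fun c _ hy P => (hy P).smul c

theorem mem_LD {D : Place L E → ℤ} {y : E} : y ∈ LD D ↔ ∀ P : Place L E, P.Ge (- D P) y := Iff.rfl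

theorem LD_mono {D D' : Place L E → ℤ} (h : ∀ P, D P ≤ D' P) : LD D ≤ LD D' :=
  fun _ hy P => (hy P).mono (by have := h P; omega)

open Classical in
/-- The functional giving the leading coefficient at `P`. -/
theorem exists_functional (D : Place L E → ℤ) (P : Place L E) :
    ∃ f : LD D →ₗ[L] L, ∀ y : LD D, f y = 0 ↔ 
      (y : E) ∈ LD (fun Q => D Q - if Q = P then 1 else 0) := by
  obtain ⟨u, hu0, hu⟩ := P.exists_unif
  have hge : ∀ y ∈ LD D, P.Ge 0 (y * u ^ (D P)) := by
    intro y hy
    have h1 := hy P
    have h2 := (P.ge_iff_of_unif hu0 hu).1 h1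
    rwa [neg_neg] at h2
  have hex : ∀ y : LD D, ∃ c : L, P.Ge 1 ((y : E) * u ^ (D P) - algebraMap L E c) := 
    fun y => P.exists_res (hge y y.2)
  choose φ hφ using hex
  let f : LD D →ₗ[L] L :=
    { toFun := φ
      map_add' := by
        intro a b
        apply P.res_unique (hφ _)
        have := (hφ a).add (hφ b)
        rw [map_add]
        convert this using 1
        push_cast; ring
      map_smul' := by
        intro c a
        apply P.res_unique (hφ _)
        have := (hφ a).smul c
        rw [RingHom.id_apply, smul_eq_mul, map_mul]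
        convert this using 1
        rw [Submodule.coe_smul, Algebra.smul_def, Algebra.smul_def]
        ring }
  refine ⟨f, fun y => ?_⟩
  constructor
  · intro h0 Q
    have h0' : φ y = 0 := h0
    change Q.Ge (-(D Q - if Q = P then 1 else 0)) (y : E)
    by_cases hQ : Q = P
    · subst hQ
      rw [if_pos rfl]
      have h1 := hφ y
      rw [h0', map_zero, sub_zero] at h1
      have h2 : (y : E) = ((y : E) * u ^ (D Q)) * u ^ (-(D Q)) := by
        rw [mul_assoc, ← zpow_add₀ hu0]; simp
      rw [h2]
      refine h1.mul' (n := -(D Q)) ?_ (by omega)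
      rw [Q.ge_iff (zpow_ne_zero _ hu0), Q.ord_zpow, hu]; omega
    · rw [if_neg hQ]
      exact (y.2 Q).mono (by omega)
  · intro h
    have h1 : P.Ge (-(D P - if P = P then 1 else 0)) (y : E) := h P
    rw [if_pos rfl] at h1
    change φ y = 0
    apply P.res_unique (hφ y)
    rw [map_zero, sub_zero]
    refine h1.mul' (n := D P) ?_ (by omega)
    rw [P.ge_iff (zpow_ne_zero _ hu0), P.ord_zpow, hu]; omega

open Classical in
/-- Imposing one condition drops the dimension by at most one. -/
theorem finrank_codim (D : Place L E → ℤ) (P : Place L E) (W : Submodule L E) 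
    [FiniteDimensional L W] (hW : W ≤ LD D) :
    Module.finrank L W ≤ Module.finrank L (W ⊓ LD (fun Q => D Q - if Q = P then 1 else 0) :
      Submodule L E) + 1 := by
  obtain ⟨f₀, hf₀⟩ := exists_functional D P
  let f : W →ₗ[L] L := f₀ ∘ₗ Submodule.inclusion hW
  have hker : LinearMap.ker f = Submodule.comap W.subtype 
      (LD (fun Q => D Q - if Q = P then 1 else 0)) := by
    ext y
    rw [LinearMap.mem_ker, Submodule.mem_comap]
    exact hf₀ (Submodule.inclusion hW y)
  have h1 := LinearMap.finrank_range_add_finrank_ker f
  have h2 : Module.finrank L (LinearMap.range f) ≤ 1 := by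
    have := Submodule.finrank_le (LinearMap.range f)
    simpa using this
  have h3 : Module.finrank L (LinearMap.ker f) = Module.finrank L (W ⊓ LD (fun Q => D Q - if Q = P then 1 else 0) : Submodule L E) := by
    rw [hker, ← Submodule.map_comap_subtype]
    exact (Submodule.finrank_map_subtype_eq W _).symm
  omega

open Classical in
/-- Imposing the conditions of an effective divisor of degree `d` drops the dimension by at most
`d`. -/
theorem finrank_codim_multiset (D : Place L E → ℤ) (m : Multiset (Place L E)) (W : Submodule L E)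
    [FiniteDimensional L W] (hW : W ≤ LD D) :
    ∃ W' : Submodule L E, W' ≤ W ∧ W' ≤ LD (fun Q => D Q - m.count Q) ∧
      Module.finrank L W ≤ Module.finrank L W' + Multiset.card m := by
  induction m using Multiset.induction_on with
  | empty => exact ⟨W, le_rfl, by simpa using hW, by simp⟩
  | cons P m ih =>
    obtain ⟨W', h1, h2, h3⟩ := ih
    have : FiniteDimensional L W' := Submodule.finiteDimensional_of_le h1
    have h4 := finrank_codim (fun Q => D Q - m.count Q) P W' h2
    refine ⟨W' ⊓ LD (fun Q => (D Q - m.count Q) - if Q = P then 1 else 0), 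
      inf_le_left.trans h1, inf_le_right.trans (LD_mono ?_), ?_⟩
    · intro Q
      rw [Multiset.count_cons]
      push_cast
      split_ifs <;> omega
    · rw [Multiset.card_cons]
      omega

open Classical in
theorem exists_multiset (g : Place L E → ℤ) (s : Finset (Place L E)) (h0 : ∀ P, 0 ≤ g P)
    (hs : ∀ P ∉ s, g P = 0) : ∃ m : Multiset (Place L E), (∀ P, (m.count P : ℤ) = g P) ∧
      (Multiset.card m : ℤ) = ∑ P ∈ s, g P := by
  refine ⟨∑ P ∈ s, Multiset.replicate (g P).toNat P, ?_, ?_⟩
  · intro Q
    rw [Multiset.count_sum']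
    simp only [Multiset.count_replicate]
    by_cases hQ : Q ∈ s
    · rw [Finset.sum_ite_eq' s Q, if_pos hQ, Int.toNat_of_nonneg (h0 Q)]
    · rw [Finset.sum_ite_eq' s Q, if_neg hQ, hs Q hQ]; rfl
  · rw [Multiset.card_sum]
    push_cast
    apply Finset.sum_congr rfl
    intro P _
    rw [Multiset.card_replicate, Int.toNat_of_nonneg (h0 P)]

variable [IsAlgClosed L] [CharZero L] [FF L E]

open Classical in
theorem LD_finite (m : Multiset (Place L E)) : 
    FiniteDimensional L (LD (fun Q : Place L E => (m.count Q : ℤ))) := by
  induction m using Multiset.induction_on with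
  | empty =>
    have h1 : LD (fun Q : Place L E => (((0 : Multiset (Place L E)).count Q : ℕ) : ℤ)) ≤ L ∙ (1 : E) := by
      intro y hy
      obtain ⟨c, rfl⟩ := const_of_ge_zero (y := y) (fun P => by simpa using hy P)
      rw [Submodule.mem_span_singleton]
      exact ⟨c, by rw [Algebra.smul_def, mul_one]⟩
    exact Submodule.finiteDimensional_of_le h1
  | cons P m ih =>
    obtain ⟨f, hf⟩ := exists_functional (fun Q => (((P ::ₘ m).count Q : ℕ) : ℤ)) P
    have hfg : (⊤ : Submodule L (LD (fun Q => (((P ::ₘ m).count Q : ℕ) : ℤ)))).FG := by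
      apply Submodule.fg_of_fg_map_of_fg_inf_ker f
      · exact IsNoetherian.noetherian _
      · rw [top_inf_eq]
        have h1 : (LinearMap.ker f).map (LD (fun Q => (((P ::ₘ m).count Q : ℕ) : ℤ))).subtype ≤ 
            LD (fun Q : Place L E => (m.count Q : ℤ)) := by
          rintro _ ⟨y, hy, rfl⟩
          have h2 := (hf y).1 hy
          refine LD_mono ?_ h2
          intro Q
          rw [Multiset.count_cons]
          push_cast
          split_ifs <;> omega
        have h2 : FiniteDimensional L ((LinearMap.ker f).map (LD (fun Q => (((P ::ₘ m).count Q : ℕ) : ℤ))).subtype) :=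
          Submodule.finiteDimensional_of_le h1
        have h3 := Module.Finite.iff_fg.1 h2
        exact Submodule.fg_of_fg_map_injective _ (Submodule.subtype_injective _) h3
    exact Module.finite_def.2 hfg

end RR

end PGH
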