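import Mathlib
import Pool.Agent.Helper1_PGH.RR

open WithZero IntermediateField
open scoped IntermediateField.algebraAdjoinAdjoin

namespace PGH

section Riemann

variable {L E : Type*} [Field L] [Field E] [Algebra L E]

theorem linearIndependent_gen_pow {x : E} (hx : Transcendental L x) :
    LinearIndependent L (fun j : ℕ => (AdjoinSimple.gen L x) ^ j) := by
  have h0 : Transcendental L (AdjoinSimple.gen L x) := by
    have : algebraMap L⟮x⟯ E (AdjoinSimple.gen L x) = x := AdjoinSimple.algebraMap_gen L x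
    rw [← transcendental_algebraMap_iff (algebraMap L⟮x⟯ E).injective, this]
    exact hx
  have h1 := (Polynomial.basisMonomials L).linearIndependent
  have h2 := h1.map' (Polynomial.aeval (AdjoinSimple.gen L x)).toLinearMap 
    (LinearMap.ker_eq_bot.2 (transcendental_iff_injective.1 h0))
  have h3 : (fun j : ℕ => (AdjoinSimple.gen L x) ^ j) = 
      (⇑(Polynomial.aeval (AdjoinSimple.gen L x)).toLinearMap ∘ ⇑(Polynomial.basisMonomials L)) := by
    funext j
    simp
  rw [h3]
  exact h2

variable [IsAlgClosed L] [CharZero L] [FF L E]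

theorem exists_pole_space {x : E} (hx : Transcendental L x) :
    ∃ n₀ : ℕ, ∀ m : ℕ, ∃ W : Submodule L E, FiniteDimensional L W ∧
      W ≤ LD (fun P => ((m + n₀ : ℕ) : ℤ) * max 0 (- P.ord x)) ∧ 
      Module.finrank L W = ht L x * (m + 1) := by
  classical
  have := FF.finite hx
  obtain ⟨s, b, hb⟩ := FiniteDimensional.exists_is_basis_integral (Rg L x) L⟮x⟯ E
  obtain ⟨a, ha, -⟩ := exists_poles hx
  have hx0 : x ≠ 0 := by rintro rfl; exact hx isAlgebraic_zero
  set n₀ : ℕ := ∑ i : s, ∑ P ∈ a, (P.ord (b i)).natAbs with hn₀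
  have hbound : ∀ i : s, ∀ P ∈ a, (P.ord (b i)).natAbs ≤ n₀ := by
    intro i P hP
    calc (P.ord (b i)).natAbs ≤ ∑ P ∈ a, (P.ord (b i)).natAbs := 
          Finset.single_le_sum (f := fun P => (P.ord (b i)).natAbs) (fun _ _ => Nat.zero_le _) hP
      _ ≤ n₀ := Finset.single_le_sum (f := fun i => ∑ P ∈ a, (P.ord (b i)).natAbs) 
          (fun _ _ => Nat.zero_le _) (Finset.mem_univ i)
  refine ⟨n₀, fun m => ?_⟩
  have hli : LinearIndependent L (fun p : Fin (m+1) × s => ((AdjoinSimple.gen L x) ^ (p.1 : ℕ)) • b p.2) := by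
    exact linearIndependent_smul (b := fun j : Fin (m+1) => (AdjoinSimple.gen L x) ^ (j : ℕ))
      ((linearIndependent_gen_pow hx).comp _ Fin.val_injective) b.linearIndependent
  have hval : ∀ p : Fin (m+1) × s, ((AdjoinSimple.gen L x) ^ (p.1 : ℕ)) • b p.2 = x ^ (p.1 : ℕ) * b p.2 := by
    intro p
    rw [Algebra.smul_def, map_pow, AdjoinSimple.algebraMap_gen]
  refine ⟨Submodule.span L (Set.range (fun p : Fin (m+1) × s => ((AdjoinSimple.gen L x) ^ (p.1 : ℕ)) • b p.2)), ?_, ?_, ?_⟩
  · exact FiniteDimensional.span_of_finite L (Set.finite_range _)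
  · rw [Submodule.span_le]
    rintro _ ⟨p, rfl⟩ P
    change P.Ge (-(((m + n₀ : ℕ) : ℤ) * max 0 (- P.ord x))) 
      (((AdjoinSimple.gen L x) ^ (p.1 : ℕ)) • b p.2)
    rw [hval]
    have hj : ((p.1 : ℕ) : ℤ) ≤ m := by
      have := p.1.2; omega
    by_cases hP : P.Ge 0 x
    · have h1 : P.Ge 0 (b p.2) := by
        have := cl_le_of_mem (L := L) (x := x) P.ring (fun c => P.mem_ring.2 (P.ge_const c)) (P.mem_ring.2 hP) 
          ⟨b p.2, hb p.2⟩
        exact P.mem_ring.1 this
      have h2 : P.Ge 0 (x ^ (p.1 : ℕ)) := by simpa using hP.pow (p.1 : ℕ)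
      refine h2.mul' h1 ?_
      have : (0 : ℤ) ≤ ((m + n₀ : ℕ) : ℤ) * max 0 (- P.ord x) := 
        mul_nonneg (Int.natCast_nonneg _) (le_max_left _ _)
      omega
    · rw [P.ge_iff hx0, not_le] at hP
      have hPa : P ∈ a := (ha P).2 hP
      have h1 := hbound p.2 P hPa
      have h2 : P.Ge (-(n₀ : ℤ)) (b p.2) := P.ge_ord.mono (by omega)
      have h3 : P.Ge (((p.1 : ℕ) : ℤ) * P.ord x) (x ^ (p.1 : ℕ)) := P.ge_ord.pow _
      refine h3.mul' h2 ?_
      rw [max_eq_right (by omega)]
      push_cast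
      have h5 : (0:ℤ) ≤ n₀ := Int.natCast_nonneg _
      nlinarith
  · rw [finrank_span_eq_card hli, Fintype.card_prod, Fintype.card_fin, mul_comm]
    congr 1
    unfold ht
    rw [if_pos hx, Module.finrank_eq_card_basis b]

/-- **Riemann's inequality** (in the form needed): a divisor of positive degree has a multiple
which is linearly equivalent to an effective divisor dominating the poles of a nonconstant
function. -/
theorem exists_of_deg_pos (D : Place L E → ℤ) (s : Finset (Place L E)) (hs : ∀ P ∉ s, D P = 0)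
    (hdeg : 0 < ∑ P ∈ s, D P) :
    ∃ N₀ : ℕ, ∀ N : ℕ, N₀ ≤ N → ∃ f h : E, f ≠ 0 ∧ Transcendental L h ∧
      ∀ P : Place L E, - P.ord f + max 0 (- P.ord h) ≤ N * D P := by
  classical
  obtain ⟨x, hx⟩ := FF.exists_transcendental (L := L) (E := E)
  obtain ⟨n₀, hn₀⟩ := exists_pole_space hx
  have hx0 : x ≠ 0 := by rintro rfl; exact hx isAlgebraic_zero
  set h := ht L x with hh
  have hhpos : 0 < h := ht_pos hx
  refine ⟨h * n₀ + 2, fun N hN => ?_⟩
  -- positive part
  obtain ⟨mp, hmp, -⟩ := exists_multiset (fun P => N * max 0 (D P)) s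
    (fun P => mul_nonneg (Int.natCast_nonneg _) (le_max_left _ _)) 
    (fun P hP => by rw [hs P hP]; simp)
  -- choose m large
  set m : ℕ := Multiset.card mp with hm
  obtain ⟨W, hWfin, hW, hWr⟩ := hn₀ m
  obtain ⟨W', hW'W, hW', hW'r⟩ := finrank_codim_multiset _ mp W hW
  have hpos : 0 < Module.finrank L W' := by
    have : m + 1 ≤ h * (m + 1) := Nat.le_mul_of_pos_left _ hhpos
    omega
  have : FiniteDimensional L W' := Submodule.finiteDimensional_of_le hW'W
  obtain ⟨⟨f, hfW⟩, hf0⟩ := (Module.finrank_pos_iff_exists_ne_zero (R := L) (M := W')).1 hpos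
  have hf : f ≠ 0 := fun h => hf0 (Subtype.ext h)
  have hford : ∀ P : Place L E, -(((m + n₀ : ℕ) : ℤ) * max 0 (- P.ord x) - mp.count P) ≤ P.ord f :=
    fun P => (P.ge_iff hf).1 (hW' hfW P)
  -- the effective divisor
  set n : ℕ := m + n₀ with hn
  obtain ⟨a, ha⟩ := (finite_support (L := L) f).exists_finset
  obtain ⟨a', ha'⟩ := (finite_support (L := L) x).exists_finset
  obtain ⟨e, he, hecard⟩ := exists_multiset 
    (fun P => P.ord f + (n : ℤ) * max 0 (- P.ord x) - N * D P) (s ∪ a ∪ a')
    (fun P => by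
      have h1 := hford P
      have h2 := hmp P
      rw [h2] at h1
      have h3 : (N : ℤ) * D P ≤ N * max 0 (D P) := 
        mul_le_mul_of_nonneg_left (le_max_right _ _) (Int.natCast_nonneg _)
      linarith)
    (fun P hP => by
      simp only [Finset.mem_union, not_or] at hP
      have h1 : P.ord f = 0 := by
        by_contra h0; exact hP.1.2 ((ha P).2 h0)
      have h2 : P.ord x = 0 := by
        by_contra h0; exact hP.2 ((ha' P).2 h0)
      rw [h1, h2, hs P hP.1.1]; simp)
  have hsumf : ∑ P ∈ s ∪ a ∪ a', P.ord f = 0 := by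
    apply sum_ord_eq_zero
    intro P hP
    simp only [Finset.mem_union, not_or] at hP
    by_contra h0; exact hP.1.2 ((ha P).2 h0)
  have hsumx : ∑ P ∈ s ∪ a ∪ a', max 0 (- P.ord x) = h := by
    apply sum_poles_eq
    intro P hP
    simp only [Finset.mem_union, not_or] at hP
    by_contra h0; exact hP.2 ((ha' P).2 h0)
  have hsumD : ∑ P ∈ s ∪ a ∪ a', D P = ∑ P ∈ s, D P := by
    symm
    apply Finset.sum_subset
    · intro P hP; simp [hP]
    · intro P _ hP; exact hs P hP
  have hcard : (Multiset.card e : ℤ) = n * h - N * ∑ P ∈ s, D P := by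
    rw [hecard, Finset.sum_sub_distrib, Finset.sum_add_distrib, ← Finset.mul_sum, ← Finset.mul_sum,
      hsumf, hsumx, hsumD]; ring
  obtain ⟨V, hVfin, hV, hVr⟩ := hn₀ m
  obtain ⟨V', hV'V, hV', hV'r⟩ := finrank_codim_multiset _ e V hV
  have h2le : 2 ≤ Module.finrank L V' := by
    have h1 : (Module.finrank L V : ℤ) ≤ Module.finrank L V' + (n * h - N * ∑ P ∈ s, D P) := by
      rw [← hcard]; exact_mod_cast hV'r
    rw [hVr] at h1
    have h2 : (N : ℤ) ≤ N * ∑ P ∈ s, D P := by nlinarith [Int.natCast_nonneg N]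
    have h3 : ((h * n₀ + 2 : ℕ) : ℤ) ≤ N := by exact_mod_cast hN
    rw [hn] at h1
    push_cast at h1 h3
    have h4 : (2 : ℤ) ≤ Module.finrank L V' := by nlinarith
    exact_mod_cast h4
  have : FiniteDimensional L V' := Submodule.finiteDimensional_of_le hV'V
  -- two independent elements
  obtain ⟨y, hy⟩ := (Module.finrank_pos_iff_exists_ne_zero (R := L) (M := V')).1 (by omega)
  obtain ⟨z, hyz⟩ := exists_linearIndependent_pair_of_one_lt_finrank (R := L) (M := V') (by omega) hy
  have hy0 : (y : E) ≠ 0 := fun h => hy (Subtype.ext h)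
  have hz0 : (z : E) ≠ 0 := by
    have := hyz.ne_zero 1
    exact fun h => this (Subtype.ext h)
  have hordV : ∀ w : V', (w : E) ≠ 0 → ∀ P : Place L E, P.ord f - N * D P ≤ P.ord (w : E) := by
    intro w hw P
    have h1 := (P.ge_iff hw).1 (hV' w.2 P)
    have h2 := he P
    have h3 : -((n : ℤ) * max 0 (- P.ord x) - e.count P) ≤ P.ord (w : E) := h1
    rw [h2] at h3
    linarith
  refine ⟨(z : E) * f⁻¹, (y : E) / z, mul_ne_zero hz0 (inv_ne_zero hf), ?_, ?_⟩
  · rw [transcendental_iff]
    intro c hc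
    rw [LinearIndependent.pair_iff] at hyz
    have h1 := hyz 1 (-c) (by
      apply Subtype.ext
      have : (y : E) = algebraMap L E c * z := by rw [hc]; field_simp
      change (1 : L) • (y : E) + (-c) • (z : E) = 0
      rw [this, one_smul, neg_smul, Algebra.smul_def]; ring)
    exact one_ne_zero h1.1
  · intro P
    rw [P.ord_mul hz0 (inv_ne_zero hf), P.ord_inv, P.ord_div hy0 hz0]
    have h1 := hordV y hy0 P
    have h2 := hordV z hz0 P
    rcases le_total 0 (-(P.ord (y : E) - P.ord (z : E))) with h3 | h3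
    · rw [max_eq_right h3]; linarith
    · rw [max_eq_left h3]; linarith

/-- Elements of bounded height are quotients of elements of a fixed finite dimensional space. -/
theorem exists_space_of_ht_le (L E : Type*) [Field L] [Field E] [Algebra L E] [IsAlgClosed L]
    [CharZero L] [FF L E] (H : ℕ) :
    ∃ W : Submodule L E, FiniteDimensional L W ∧ ∀ y : E, ht L y ≤ H → 
      ∃ a ∈ W, ∃ b ∈ W, b ≠ 0 ∧ y = a / b := by
  classical
  obtain ⟨x, hx⟩ := FF.exists_transcendental (L := L) (E := E)
  obtain ⟨n₀, hn₀⟩ := exists_pole_space hx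
  have hx0 : x ≠ 0 := by rintro rfl; exact hx isAlgebraic_zero
  have hhpos : 0 < ht L x := ht_pos hx
  obtain ⟨W₀, hWfin, hW, hWr⟩ := hn₀ H
  obtain ⟨a', ha'⟩ := (finite_support (L := L) x).exists_finset
  obtain ⟨mx, hmx, -⟩ := exists_multiset (L := L) (E := E)
    (fun P => ((H + n₀ : ℕ) : ℤ) * max 0 (- P.ord x)) a'
    (fun P => mul_nonneg (Int.natCast_nonneg _) (le_max_left _ _)) 
    (fun P hP => by
      have : P.ord x = 0 := by
        by_contra h0; exact hP ((ha' P).2 h0)
      rw [this]; simp)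
  have hmx' : (fun P : Place L E => ((H + n₀ : ℕ) : ℤ) * max 0 (- P.ord x)) = 
      fun P => (mx.count P : ℤ) := by
    funext P; exact (hmx P).symm
  refine ⟨LD (fun P => ((H + n₀ : ℕ) : ℤ) * max 0 (- P.ord x)), ?_, ?_⟩
  · rw [hmx']; exact LD_finite mx
  · intro y hy
    obtain ⟨s, hs⟩ := (finite_support (L := L) y).exists_finset
    obtain ⟨e, he, hecard⟩ := exists_multiset (L := L) (E := E)
      (fun P => max 0 (- P.ord y)) s (fun P => le_max_left _ _)
      (fun P hP => by
        have : P.ord y = 0 := by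
          by_contra h0; exact hP ((hs P).2 h0)
        rw [this]; simp)
    rw [sum_poles_eq y s (fun P hP => by by_contra h0; exact hP ((hs P).2 h0))] at hecard
    have hecard' : Multiset.card e = ht L y := by exact_mod_cast hecard
    obtain ⟨W', hW'W, hW', hW'r⟩ := finrank_codim_multiset _ e W₀ hW
    have hpos : 0 < Module.finrank L W' := by
      have : H + 1 ≤ ht L x * (H + 1) := Nat.le_mul_of_pos_left _ hhpos
      omega
    have : FiniteDimensional L W' := Submodule.finiteDimensional_of_le hW'W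
    obtain ⟨⟨b, hbW⟩, hb0⟩ := (Module.finrank_pos_iff_exists_ne_zero (R := L) (M := W')).1 hpos
    have hb : b ≠ 0 := fun h => hb0 (Subtype.ext h)
    refine ⟨b * y, ?_, b, hW (hW'W hbW), hb, by field_simp⟩
    intro P
    have h1 : P.Ge (-(((H + n₀ : ℕ) : ℤ) * max 0 (- P.ord x) - e.count P)) b := hW' hbW P
    rw [he P] at h1
    refine h1.mul' (P.ge_ord (y := y)) ?_
    have := le_max_right 0 (- P.ord y)
    linarith

end Riemann

end PGH
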