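import Mathlib
import Pool.Agent.Helper1_PGH.Riemann

open WithZero IntermediateField IsDedekindDomain
open scoped IntermediateField.algebraAdjoinAdjoin

namespace PGH

section Deriv

variable {L E : Type*} [Field L] [Field E] [Algebra L E]

/-- the derivation maps constants to constants -/
def PresL (L : Type*) {E : Type*} [Field L] [Field E] [Algebra L E] (D : Derivation ℤ E E) : Prop :=
  ∀ c : L, ∃ d : L, D (algebraMap L E c) = algebraMap L E d

/-- `D (O_P) ⊆ m_P^n` -/
def DGe (P : Place L E) (D : Derivation ℤ E E) (n : ℤ) : Prop :=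
  ∀ y, P.Ge 0 y → P.Ge n (D y)

theorem DGe.mono {P : Place L E} {D : Derivation ℤ E E} {m n : ℤ} (h : DGe P D n) (hmn : m ≤ n) :
    DGe P D m := fun y hy => (h y hy).mono hmn

theorem deriv_zpow (D : Derivation ℤ E E) (u : E) (n : ℤ) :
    D (u ^ n) = n * u ^ (n - 1) * D u := by
  rw [Derivation.leibniz_zpow, zsmul_eq_mul, smul_eq_mul, mul_assoc]

theorem Place.ge_int (P : Place L E) (j : ℤ) : P.Ge 0 (j : E) := by
  have := P.ge_const (j : L)
  simpa using this

theorem Place.ge_zpow (P : Place L E) {u : E} (hu0 : u ≠ 0) (hu : P.ord u = 1) (j : ℤ) :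
    P.Ge j (u ^ j) := by
  rw [P.ge_iff (zpow_ne_zero _ hu0), P.ord_zpow, hu]; omega

/-- Leibniz rule at a place. -/
theorem DGe.ge {P : Place L E} {D : Derivation ℤ E E} {N : ℤ} (h : DGe P D N) {n : ℤ} {y : E}
    (hy : P.Ge n y) : P.Ge (n - 1 + N) (D y) := by
  obtain ⟨u, hu0, hu⟩ := P.exists_unif
  have hw : P.Ge 0 (y * u ^ (-n)) := (P.ge_iff_of_unif hu0 hu).1 hy
  have hy' : y = (y * u ^ (-n)) * u ^ n := by
    rw [mul_assoc, ← zpow_add₀ hu0]; simp
  rw [hy', D.leibniz, smul_eq_mul, smul_eq_mul, deriv_zpow D u]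
  have h1 := h _ hw
  have h2 := h u ((P.ge_iff hu0).2 (by omega))
  refine Place.Ge.add ?_ ?_
  · refine hw.mul' (n := n - 1 + N) (((P.ge_int n).mul (P.ge_zpow hu0 hu (n-1))).mul' h2 (by omega)) 
      (by omega)
  · refine (P.ge_zpow hu0 hu n).mul' h1 (by omega)

/-- Leibniz rule at a static place. -/
theorem DGe.ge_static {P : Place L E} {D : Derivation ℤ E E} (h : DGe P D 0) 
    (h' : ∀ y, P.Ge 1 y → P.Ge 1 (D y)) {n : ℤ} {y : E}
    (hy : P.Ge n y) : P.Ge n (D y) := by
  obtain ⟨u, hu0, hu⟩ := P.exists_unif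
  have hw : P.Ge 0 (y * u ^ (-n)) := (P.ge_iff_of_unif hu0 hu).1 hy
  have hy' : y = (y * u ^ (-n)) * u ^ n := by
    rw [mul_assoc, ← zpow_add₀ hu0]; simp
  rw [hy', D.leibniz, smul_eq_mul, smul_eq_mul, deriv_zpow D u]
  have h1 := h _ hw
  have h2 := h' u ((P.ge_iff hu0).2 (by omega))
  refine Place.Ge.add ?_ ?_
  · refine hw.mul' (n := n) (((P.ge_int n).mul (P.ge_zpow hu0 hu (n-1))).mul' h2 (by omega)) 
      (by omega)
  · refine (P.ge_zpow hu0 hu n).mul' h1 (by omega)

/-- **Tame descent.**  If some element `u` of nonzero order `e` has a derivative of order at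
least `B`, and the derivation has bounded poles at `P`, then `D (O_P) ⊆ m_P^{min 0 (B-e+1)}` and
`D (m_P) ⊆ m_P^{min 1 (B-e+1)}`. -/
theorem tame_descent [CharZero L] {P : Place L E} {D : Derivation ℤ E E} (hD : PresL L D) 
    {N : ℤ} (h : DGe P D N) {u : E} {e B : ℤ} (hu0 : u ≠ 0) (hue : P.ord u = e) (he : e ≠ 0)
    (hB : P.Ge B (D u)) :
    DGe P D (min 0 (B - e + 1)) ∧ ∀ y, P.Ge 1 y → P.Ge (min 1 (B - e + 1)) (D y) := by
  obtain ⟨s, hs0, hs⟩ := P.exists_unif
  -- derivative of the uniformizer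
  have key : ∀ M : ℤ, DGe P D M → P.Ge (min (B - e + 1) (1 + M)) (D s) := by
    intro M hM
    set w := u * s ^ (-e) with hw
    have hw0 : w ≠ 0 := mul_ne_zero hu0 (zpow_ne_zero _ hs0)
    have hword : P.ord w = 0 := by
      rw [hw, P.ord_mul hu0 (zpow_ne_zero _ hs0), P.ord_zpow, hs, hue]; ring
    have hu' : u = w * s ^ e := by
      rw [hw, mul_assoc, ← zpow_add₀ hs0]; simp
    have h1 : D u = w * ((e : E) * s ^ (e - 1) * D s) + s ^ e * D w := by
      conv_lhs => rw [hu']
      rw [D.leibniz, smul_eq_mul, smul_eq_mul, deriv_zpow D s]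
    have hchar : CharZero E := charZero_of_injective_algebraMap (algebraMap L E).injective
    have he' : (e : E) ≠ 0 := by exact_mod_cast he
    have h2 : D s = (D u - s ^ e * D w) * (w⁻¹ * (e : E)⁻¹ * s ^ (1 - e)) := by
      rw [h1]
      have h3 : s ^ (1 - e) = s ^ (-(e - 1)) := by congr 1; ring
      rw [h3, zpow_neg]
      have h4 : s ^ (e - 1) ≠ 0 := zpow_ne_zero _ hs0
      field_simp
      ring
    rw [h2]
    have hwge : P.Ge 0 w := (P.ge_iff hw0).2 (by omega)
    have h3 : P.Ge (min B (e + M)) (D u - s ^ e * D w) := by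
      refine Place.Ge.sub (hB.mono (min_le_left _ _)) ?_
      exact ((P.ge_zpow hs0 hs e).mul (hM w hwge)).mono (min_le_right _ _)
    have h4 : P.Ge (1 - e) (w⁻¹ * (e : E)⁻¹ * s ^ (1 - e)) := by
      have h5 : P.Ge 0 w⁻¹ := (P.ge_iff (inv_ne_zero hw0)).2 (by rw [P.ord_inv]; omega)
      have h6 : P.Ge 0 (e : E)⁻¹ := by
        have := P.ge_const ((e : L)⁻¹)
        simpa using this
      exact (h5.mul h6).mul' (P.ge_zpow hs0 hs (1 - e)) (by omega)
    refine h3.mul' h4 ?_
    rcases le_total B (e + M) with h5 | h5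
    · rw [min_eq_left h5, min_eq_left (by omega)]; omega
    · rw [min_eq_right h5, min_eq_right (by omega)]; omega
  -- one step of the descent
  have step : ∀ M : ℤ, DGe P D M → DGe P D (min (min 0 (B - e + 1)) (1 + M)) := by
    intro M hM y hy
    obtain ⟨c, hc⟩ := P.exists_res hy
    set z := (y - algebraMap L E c) * s ^ (-(1 : ℤ)) with hz
    have hz0 : P.Ge 0 z := (P.ge_iff_of_unif hs0 hs).1 hc
    have hy' : y = algebraMap L E c + s * z := by
      rw [hz, zpow_neg, zpow_one]; field_simp; ring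
    obtain ⟨d, hd⟩ := hD c
    rw [hy', map_add, hd, D.leibniz, smul_eq_mul, smul_eq_mul]
    have h1 := key M hM
    refine Place.Ge.add ((P.ge_const d).mono (by omega)) (Place.Ge.add ?_ ?_)
    · have h3 := (P.ge_zpow hs0 hs 1).mul (hM z hz0)
      rw [zpow_one] at h3
      exact h3.mono (by omega)
    · refine hz0.mul' h1 (by omega)
  have hmain : ∀ k : ℕ, DGe P D (min (min 0 (B - e + 1)) (N + k)) := by
    intro k
    induction k with
    | zero => exact h.mono (by simp)
    | succ k ih =>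
      refine (step _ ih).mono ?_
      push_cast
      omega
  have h0 : DGe P D (min 0 (B - e + 1)) := by
    refine (hmain ((min 0 (B - e + 1)) - N).toNat).mono ?_
    omega
  refine ⟨h0, ?_⟩
  intro y hy
  have h1 := key _ h0
  set z := y * s ^ (-(1 : ℤ)) with hz
  have hz0 : P.Ge 0 z := (P.ge_iff_of_unif hs0 hs).1 hy
  have hy' : y = s * z := by
    rw [hz, zpow_neg, zpow_one]; field_simp
  rw [hy', D.leibniz, smul_eq_mul, smul_eq_mul]
  refine Place.Ge.add ?_ ?_
  · have := (P.ge_zpow hs0 hs 1).mul (h0 z hz0)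
    rw [zpow_one] at this
    exact this.mono (by omega)
  · refine hz0.mul' h1 (by omega)

variable [IsAlgClosed L] [CharZero L] [FF L E]

open Classical in
/-- Bounded poles, over the affine part. -/
theorem bounded_poles_aux (D : Derivation ℤ E E) (hD : PresL L D) {x : E} 
    (hx : Transcendental L x) :
    ∃ (c : Place L E → ℕ) (s : Finset (Place L E)), (∀ P ∉ s, c P = 0) ∧
      ∀ P : Place L E, P.Ge 0 x → DGe P D (-(c P : ℤ)) := by
  have := cl_dedekind hx
  have := cl_frac hx
  have hfin := cl_finite hx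
  obtain ⟨t, ht⟩ := hfin.fg_top
  -- the bound
  let c : Place L E → ℕ := fun P => (P.ord (D x)).natAbs + ∑ b ∈ t, (P.ord (D (b : E))).natAbs
  have hcx : ∀ P : Place L E, P.Ge (-(c P : ℤ)) (D x) := by
    intro P
    refine P.ge_ord.mono ?_
    have : (P.ord (D x)).natAbs ≤ c P := Nat.le_add_right _ _
    omega
  have hcb : ∀ P : Place L E, ∀ b ∈ t, P.Ge (-(c P : ℤ)) (D (b : E)) := by
    intro P b hb
    refine P.ge_ord.mono ?_
    have h1 : (P.ord (D (b : E))).natAbs ≤ ∑ b ∈ t, (P.ord (D (b : E))).natAbs := 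
      Finset.single_le_sum (f := fun b : Cl L x => (P.ord (D (b : E))).natAbs) 
        (fun _ _ => Nat.zero_le _) hb
    have : (P.ord (D (b : E))).natAbs ≤ c P := h1.trans (Nat.le_add_left _ _)
    omega
  obtain ⟨sx, hsx⟩ := (finite_support (L := L) (D x)).exists_finset
  have hsb : ∀ b : Cl L x, ∃ s : Finset (Place L E), ∀ P, P ∈ s ↔ P.ord (D (b : E)) ≠ 0 := 
    fun b => (finite_support (L := L) (D (b : E))).exists_finset
  choose sb hsb using hsb
  refine ⟨c, sx ∪ t.biUnion sb, ?_, ?_⟩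
  · intro P hP
    simp only [Finset.mem_union, Finset.mem_biUnion, not_or, not_exists, not_and] at hP
    have h1 : P.ord (D x) = 0 := by by_contra h0; exact hP.1 ((hsx P).2 h0)
    have h2 : ∀ b ∈ t, (P.ord (D (b : E))).natAbs = 0 := by
      intro b hb
      have : P.ord (D (b : E)) = 0 := by by_contra h0; exact hP.2 b hb ((hsb b P).2 h0)
      rw [this]; rfl
    change (P.ord (D x)).natAbs + ∑ b ∈ t, (P.ord (D (b : E))).natAbs = 0
    rw [h1, Finset.sum_congr rfl h2]; simp
  · intro P hPx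
    -- on L[x]
    have hring : ∀ b : Cl L x, P.Ge 0 (b : E) := fun b =>
      P.mem_ring.1 (cl_le_of_mem P.ring (fun c => P.mem_ring.2 (P.ge_const c)) (P.mem_ring.2 hPx) b)
    have hRg : ∀ r ∈ Rg L x, P.Ge 0 r ∧ P.Ge (-(c P : ℤ)) (D r) := by
      intro r hr
      induction hr using Algebra.adjoin_induction with
      | mem y hy => rw [Set.mem_singleton_iff] at hy; rw [hy]; exact ⟨hPx, hcx P⟩
      | algebraMap d =>
        obtain ⟨d', hd'⟩ := hD d
        rw [hd']
        exact ⟨P.ge_const _, (P.ge_const _).mono (by omega)⟩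
      | add a b _ _ ha hb => 
        rw [map_add]; exact ⟨ha.1.add hb.1, ha.2.add hb.2⟩
      | mul a b _ _ ha hb => 
        refine ⟨by simpa using ha.1.mul hb.1, ?_⟩
        rw [D.leibniz, smul_eq_mul, smul_eq_mul]
        exact (ha.1.mul' hb.2 (by omega)).add (hb.1.mul' ha.2 (by omega))
    have hCl : ∀ b : Cl L x, P.Ge (-(c P : ℤ)) (D (b : E)) := by
      intro b
      have hb : b ∈ Submodule.span (Rg L x) (t : Set (Cl L x)) := by rw [ht]; trivial
      induction hb using Submodule.span_induction with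
      | mem y hy => exact hcb P y hy
      | zero => simp
      | add y z _ _ hy hz => 
        have : ((y + z : Cl L x) : E) = (y : E) + (z : E) := rfl
        rw [this, map_add]; exact hy.add hz
      | smul r y _ hy =>
        have : ((r • y : Cl L x) : E) = (r : E) * (y : E) := rfl
        rw [this, D.leibniz, smul_eq_mul, smul_eq_mul]
        have h1 := hRg r r.2
        exact (h1.1.mul' hy (by omega)).add ((hring y).mul' h1.2 (by omega))
    -- on the local ring
    intro y hy
    obtain ⟨q, hPq, hq⟩ := P.eq_ofPrime hx hPx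
    have hy' : q.valuation E y ≤ 1 := by
      have := hy
      rw [P.ge_zero_iff, hPq] at this
      exact this
    obtain ⟨n, d, hnd⟩ := q.exists_primeCompl_mul_eq_of_integer (K := E) y hy'
    have hd : ¬ ((d : Cl L x) ∈ q.asIdeal) := d.2
    rw [hq] at hd
    have hnd' : y * ((d : Cl L x) : E) = (n : E) := hnd
    have hd0 : ((d : Cl L x) : E) ≠ 0 := by
      intro h0; apply hd; rw [h0]; exact P.ge_zero 1
    have hdord : P.ord ((d : Cl L x) : E) = 0 := by
      have h1 := (P.ge_iff hd0).1 (hring d)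
      rw [P.ge_iff hd0] at hd
      omega
    have hy2 : y = (n : E) * ((d : Cl L x) : E)⁻¹ := by
      rw [← hnd', mul_assoc, mul_inv_cancel₀ hd0, mul_one]
    have hdinv : P.Ge 0 ((d : Cl L x) : E)⁻¹ := 
      (P.ge_iff (inv_ne_zero hd0)).2 (by rw [P.ord_inv]; omega)
    rw [hy2, D.leibniz, D.leibniz_inv, smul_eq_mul, smul_eq_mul, smul_eq_mul]
    refine Place.Ge.add ?_ ?_
    · refine (hring n).mul' (n := -(c P : ℤ)) ?_ (by omega)
      refine Place.Ge.mul' (m := 0) ?_ (hCl d) (by omega)
      have := (hdinv.mul hdinv).neg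
      rw [← sq] at this
      simpa using this
    · exact hdinv.mul' (hCl n) (by omega)

open Classical in
/-- **Bounded poles.**  A derivation preserving the constants is regular at almost all places and
has bounded poles at the others. -/
theorem bounded_poles (D : Derivation ℤ E E) (hD : PresL L D) :
    ∃ (c : Place L E → ℕ) (s : Finset (Place L E)), (∀ P ∉ s, c P = 0) ∧
      ∀ P : Place L E, DGe P D (-(c P : ℤ)) := by
  obtain ⟨x, hx⟩ := FF.exists_transcendental (L := L) (E := E)
  have hx0 : x ≠ 0 := by rintro rfl; exact hx isAlgebraic_zero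
  obtain ⟨c, s, hc, h⟩ := bounded_poles_aux D hD hx
  obtain ⟨c', s', hc', h'⟩ := bounded_poles_aux D hD (transcendental_inv hx)
  refine ⟨fun P => c P + c' P, s ∪ s', ?_, ?_⟩
  · intro P hP
    rw [Finset.mem_union, not_or] at hP
    change c P + c' P = 0
    rw [hc P hP.1, hc' P hP.2]
  · intro P
    by_cases hP : P.Ge 0 x
    · exact (h P hP).mono (by push_cast; omega)
    · have : P.Ge 0 x⁻¹ := by
        rw [P.ge_iff (inv_ne_zero hx0), P.ord_inv]
        rw [P.ge_iff hx0] at hP; omega
      exact (h' P this).mono (by push_cast; omega)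

end Deriv

end PGH
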