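import Mathlib
import Pool.Agent.Helper1_PGH.Deriv

open IntermediateField
open scoped IntermediateField.algebraAdjoinAdjoin

namespace PGH

section DerivExt

/-- Derivations extend uniquely along formally étale maps. -/
theorem exists_deriv_ext (R A B M : Type*) [CommRing R] [CommRing A] [CommRing B] [Algebra R A]
    [Algebra R B] [Algebra A B] [IsScalarTower R A B] [AddCommGroup M] [Module R M] [Module A M]
    [Module B M] [IsScalarTower A B M] [IsScalarTower R A M] [IsScalarTower R B M]
    [Algebra.FormallyEtale A B] (D : Derivation R A M) :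
    ∃ D' : Derivation R B M, ∀ a, D' (algebraMap A B a) = D a := by
  let e := KaehlerDifferential.tensorKaehlerEquivOfFormallyEtale R A B
  let f : TensorProduct A B (Ω[A⁄R]) →ₗ[B] M := LinearMap.liftBaseChange B D.liftKaehlerDifferential
  refine ⟨(f ∘ₗ e.symm.toLinearMap).compDer (KaehlerDifferential.D R B), ?_⟩
  intro a
  change f (e.symm (KaehlerDifferential.D R B (algebraMap A B a))) = D a
  rw [KaehlerDifferential.tensorKaehlerEquivOfFormallyEtale_symm_D_algebraMap]
  simp [f]

/-- For a transcendental element `l` there is a derivation with `δ l = 1`. -/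
theorem exists_deriv (k L : Type*) [Field k] [Field L] [Algebra k L] [CharZero k] {l : L}
    (hl : Transcendental k l) : ∃ δ : Derivation k L L, δ l = 1 := by
  classical
  have h1 : AlgebraicIndepOn k id ({l} : Set L) := by
    rw [AlgebraicIndepOn]
    exact (algebraicIndependent_singleton_iff (⟨l, rfl⟩ : ({l} : Set L))).2 hl
  obtain ⟨t, hlt, ht⟩ := exists_isTranscendenceBasis_superset h1
  have hl' : l ∈ t := hlt rfl
  let φ : MvPolynomial t k →ₐ[k] L := MvPolynomial.aeval (Subtype.val : t → L)
  have hφ : Function.Injective φ := ht.1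
  let K' := IntermediateField.adjoin k (Set.range (Subtype.val : t → L))
  have hmem : ∀ a, φ a ∈ K' := by
    intro a
    have h2 : φ a ∈ φ.range := ⟨a, rfl⟩
    have h3 : φ.range = Algebra.adjoin k (Set.range (Subtype.val : t → L)) := 
      (Algebra.adjoin_range_eq_range_aeval k _).symm
    rw [h3] at h2
    exact IntermediateField.algebra_adjoin_le_adjoin _ _ h2
  let ψ : MvPolynomial t k →ₐ[k] K' := φ.codRestrict K'.toSubalgebra hmem
  have hψ : Function.Injective ψ := fun a b h => hφ (congrArg Subtype.val h)
  let _ : Algebra (MvPolynomial t k) L := φ.toRingHom.toAlgebra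
  let _ : Algebra (MvPolynomial t k) K' := ψ.toRingHom.toAlgebra
  have : IsScalarTower (MvPolynomial t k) K' L := IsScalarTower.of_algebraMap_eq (fun _ => rfl)
  have : IsScalarTower k (MvPolynomial t k) L := IsScalarTower.of_algebraMap_eq (fun c => by
    exact (φ.commutes c).symm)
  have : FaithfulSMul (MvPolynomial t k) K' := 
    (faithfulSMul_iff_algebraMap_injective _ _).2 hψ
  have : IsFractionRing (MvPolynomial t k) K' := by
    apply IsFractionRing.of_field
    rintro ⟨z, hz⟩
    obtain ⟨x, hx, y, hy, hxy⟩ := IntermediateField.mem_adjoin_iff_div.1 hz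
    rw [Algebra.adjoin_range_eq_range_aeval] at hx hy
    obtain ⟨a, ha⟩ := hx
    obtain ⟨b, hb⟩ := hy
    refine ⟨a, b, Subtype.ext ?_⟩
    change z = φ a / φ b
    rw [hxy, ← ha, ← hb]
    rfl
  have : Algebra.FormallyEtale (MvPolynomial t k) K' :=
    Algebra.FormallyEtale.of_isLocalization (nonZeroDivisors (MvPolynomial t k))
  have : CharZero K' := charZero_of_injective_algebraMap (algebraMap k K').injective
  have : Algebra.IsAlgebraic K' L := ht.isAlgebraic_field
  have : Algebra.FormallyEtale K' L := Algebra.FormallyEtale.of_isSeparable _ _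
  have : Algebra.FormallyEtale (MvPolynomial t k) L := Algebra.FormallyEtale.comp _ K' _
  let D₀ : Derivation k (MvPolynomial t k) L := 
    MvPolynomial.mkDerivation k (fun i : t => if i = ⟨l, hl'⟩ then (1 : L) else 0)
  obtain ⟨D, hD⟩ := exists_deriv_ext k (MvPolynomial t k) L L D₀
  refine ⟨D, ?_⟩
  have h4 := hD (MvPolynomial.X ⟨l, hl'⟩)
  have h5 : algebraMap (MvPolynomial t k) L (MvPolynomial.X ⟨l, hl'⟩) = l := by
    change φ (MvPolynomial.X ⟨l, hl'⟩) = l
    simp [φ]
  rw [h5] at h4
  rw [h4]
  simp [D₀]

/-- A derivation kills everything algebraic over its field of constants. -/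
theorem deriv_eq_zero_of_isAlgebraic {k E : Type*} [Field k] [Field E] [Algebra k E] [CharZero k]
    (D : Derivation k E E) {y : E} (hy : IsAlgebraic k y) : D y = 0 := by
  have h1 : IsIntegral k y := hy.isIntegral
  have h2 : Polynomial.aeval y (minpoly k y) = 0 := minpoly.aeval k y
  have h3 : Polynomial.aeval y (Polynomial.derivative (minpoly k y)) ≠ 0 := by
    have hsep : (minpoly k y).Separable := (minpoly.irreducible h1).separable
    exact hsep.aeval_derivative_ne_zero h2
  have h4 : D (Polynomial.aeval y (minpoly k y)) = 
      Polynomial.aeval y (Polynomial.derivative (minpoly k y)) * D y := by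
    rw [Derivation.map_aeval, smul_eq_mul]
  rw [h2, map_zero] at h4
  exact (mul_eq_zero.1 h4.symm).resolve_left h3

/-- the field of constants of a derivation -/
def constField {E : Type*} [Field E] (D : Derivation ℤ E E) : Subfield E where
  carrier := {z | D z = 0}
  zero_mem' := by simp
  one_mem' := by simp
  add_mem' := fun {a b} ha hb => by
    change D (a + b) = 0
    rw [map_add, show D a = 0 from ha, show D b = 0 from hb, add_zero]
  mul_mem' := fun {a b} ha hb => by
    change D (a * b) = 0
    rw [D.leibniz, show D a = 0 from ha, show D b = 0 from hb, smul_zero, smul_zero, add_zero]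
  neg_mem' := fun {a} ha => by
    change D (-a) = 0
    rw [map_neg, show D a = 0 from ha, neg_zero]
  inv_mem' := fun a ha => by
    change D a⁻¹ = 0
    rw [D.leibniz_inv, show D a = 0 from ha, smul_zero]

theorem mem_constField {E : Type*} [Field E] {D : Derivation ℤ E E} {z : E} : 
    z ∈ constField D ↔ D z = 0 := Iff.rfl

theorem deriv_zero_of_isAlgebraic_const {E : Type*} [Field E] [CharZero E] 
    (D : Derivation ℤ E E) {z : E} (hz : IsAlgebraic (constField D) z) : D z = 0 := by
  let D'' : Derivation (constField D) E E := 
    Derivation.mk' 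
      { toFun := D
        map_add' := fun a b => map_add D a b
        map_smul' := fun c a => by
          change D ((c : E) * a) = (c : E) * D a
          have : D (c : E) = 0 := c.2
          rw [D.leibniz, this, smul_zero, add_zero, smul_eq_mul] }
      (fun a b => D.leibniz a b)
  have hch : CharZero (constField D) := inferInstance
  exact deriv_eq_zero_of_isAlgebraic D'' hz

/-- If `D` kills `k` and `y x` then it kills `y t` for `t` algebraic over `k(x)`. -/
theorem deriv_zero_of_isAlgebraic_adjoin {k F E : Type*} [Field k] [Field F] [Field E] 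
    [Algebra k F] [Algebra k E] [CharZero k] (y : F →ₐ[k] E) (D : Derivation ℤ E E) 
    (hDk : ∀ c : k, D (algebraMap k E c) = 0) {x : F} (hx : D (y x) = 0) {t : F} 
    (ht : IsAlgebraic k⟮x⟯ t) : D (y t) = 0 := by
  have hchar : CharZero E := charZero_of_injective_algebraMap (algebraMap k E).injective
  have hmem : ∀ a ∈ k⟮x⟯, y a ∈ constField D := by
    intro a ha
    induction ha using IntermediateField.adjoin_induction with
    | mem z hz => rw [Set.mem_singleton_iff] at hz; rw [hz]; exact hx
    | algebraMap c => rw [y.commutes]; exact hDk c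
    | add a b _ _ ha hb => rw [map_add]; exact add_mem ha hb
    | mul a b _ _ ha hb => rw [map_mul]; exact mul_mem ha hb
    | inv a _ ha => rw [map_inv₀]; exact inv_mem ha
  let φ : k⟮x⟯ →+* constField D :=
    { toFun := fun a => ⟨y a, hmem a a.2⟩
      map_one' := by apply Subtype.ext; exact map_one y
      map_zero' := by apply Subtype.ext; exact map_zero y
      map_add' := by intro a b; apply Subtype.ext; exact map_add y _ _
      map_mul' := by intro a b; apply Subtype.ext; exact map_mul y _ _ }
  apply deriv_zero_of_isAlgebraic_const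
  exact ht.ringHom_of_comp_eq φ (y : F →+* E) φ.injective rfl

end DerivExt

end PGH
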