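import Mathlib
import Pool.Agent.Helper1_PGH.DerivExt

open WithZero IntermediateField

namespace PGH

section Below

variable {k L F E : Type*} [Field k] [Field L] [Field F] [Field E] [Algebra k L] [Algebra k F]
  [Algebra k E] [Algebra L E] [IsScalarTower k L E]

/-- `Lies y Q v e`: the place `Q` of `E/L` restricts along `y : F → E` to the place `v` of `F/k`
with ramification index `e` (the case `e = 0` means that `Q` is trivial on `F`). -/
def Lies (y : F →ₐ[k] E) (Q : Place L E) (v : Place k F) (e : ℕ) : Prop :=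
  ∀ f : F, Q.ord (y f) = e * v.ord f

theorem Lies.ge {y : F →ₐ[k] E} {Q : Place L E} {v : Place k F} {e : ℕ} (h : Lies y Q v e)
    {n : ℤ} {f : F} (hf : v.Ge n f) : Q.Ge (e * n) (y f) := by
  by_cases hf0 : f = 0
  · rw [hf0, map_zero]; exact Q.ge_zero _
  · rw [Q.ge_iff (by simpa using hf0), h f]
    rw [v.ge_iff hf0] at hf
    exact mul_le_mul_of_nonneg_left hf (Int.natCast_nonneg _)

theorem Lies.ge_zero_iff {y : F →ₐ[k] E} {Q : Place L E} {v : Place k F} {e : ℕ} (h : Lies y Q v e)
    (he : 0 < e) {f : F} : Q.Ge 0 (y f) ↔ v.Ge 0 f := by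
  by_cases hf0 : f = 0
  · rw [hf0, map_zero]; simp
  · rw [Q.ge_iff (by simpa using hf0), h f, v.ge_iff hf0]
    have : (0 : ℤ) < e := by exact_mod_cast he
    constructor
    · intro h1; by_contra h2; push Not at h2; nlinarith
    · intro h1; positivity

variable [IsAlgClosed k] [CharZero k] [FF k F]

theorem exists_place (k F : Type*) [Field k] [Field F] [Algebra k F] [IsAlgClosed k] [CharZero k] 
    [FF k F] : Nonempty (Place k F) := by
  obtain ⟨x, hx⟩ := FF.exists_transcendental (L := k) (E := F)
  obtain ⟨P, -⟩ := exists_pole hx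
  exact ⟨P⟩

/-- Every place restricts to a place (or to the trivial valuation, `e = 0`). -/
theorem exists_lies (y : F →ₐ[k] E) (Q : Place L E) : ∃ (v : Place k F) (e : ℕ), Lies y Q v e := by
  let A : ValuationSubring F := Q.ring.comap y.toRingHom
  have hA : ∀ f, f ∈ A ↔ Q.Ge 0 (y f) := fun f => Q.mem_ring
  by_cases htop : A = ⊤
  · obtain ⟨v⟩ := exists_place k F
    refine ⟨v, 0, fun f => ?_⟩
    by_cases hf0 : f = 0
    · rw [hf0, map_zero]; simp
    · have h1 : f ∈ A := by rw [htop]; trivial
      have h2 : f⁻¹ ∈ A := by rw [htop]; trivial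
      rw [hA, Q.ge_iff (by simpa using hf0)] at h1
      rw [hA, Q.ge_iff (by simpa using hf0), map_inv₀, Q.ord_inv] at h2
      simp only [Nat.cast_zero, zero_mul]
      omega
  · obtain ⟨v, hv⟩ := Place.exists_of_valuationSubring (L := k) A (fun c => by
      rw [hA]
      have : y (algebraMap k F c) = algebraMap L E (algebraMap k L c) := by
        rw [y.commutes, ← IsScalarTower.algebraMap_apply]
      rw [this]; exact Q.ge_const _) htop
    obtain ⟨t, ht0, ht⟩ := v.exists_unif
    have hyt0 : y t ≠ 0 := by simpa using ht0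
    have he : 0 ≤ Q.ord (y t) := by
      have h1 : t ∈ A := (hv t).1 ((v.ge_iff ht0).2 (by omega))
      rwa [hA, Q.ge_iff hyt0] at h1
    refine ⟨v, (Q.ord (y t)).toNat, fun f => ?_⟩
    rw [Int.toNat_of_nonneg he]
    by_cases hf0 : f = 0
    · rw [hf0, map_zero]; simp
    · set w := f * t ^ (-(v.ord f)) with hw
      have hw0 : w ≠ 0 := mul_ne_zero hf0 (zpow_ne_zero _ ht0)
      have hword : v.ord w = 0 := by
        rw [hw, v.ord_mul hf0 (zpow_ne_zero _ ht0), v.ord_zpow, ht]; ring
      have h1 : w ∈ A := (hv w).1 ((v.ge_iff hw0).2 (by omega))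
      have h2 : w⁻¹ ∈ A := (hv _).1 ((v.ge_iff (inv_ne_zero hw0)).2 (by rw [v.ord_inv]; omega))
      rw [hA, Q.ge_iff (by simpa using hw0)] at h1
      rw [hA, Q.ge_iff (by simpa using hw0), map_inv₀, Q.ord_inv] at h2
      have h3 : Q.ord (y w) = 0 := by omega
      rw [hw, map_mul, Q.ord_mul (by simpa using hf0) (by rw [map_ne_zero]; exact zpow_ne_zero _ ht0), map_zpow₀,
        Q.ord_zpow] at h3
      linarith

theorem algHom_transcendental {L F E : Type*} [Field L] [Field F] [Field E] [Algebra L F]
    [Algebra L E] (y : F →ₐ[L] E) {x : F} (hx : Transcendental L x) : Transcendental L (y x) := by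
  intro h
  exact hx ((isAlgebraic_algHom_iff y y.injective).1 h)

/-- For an embedding over the same algebraically closed field of a function field of one variable,
the restriction is never trivial. -/
theorem Lies.pos {L F E : Type*} [Field L] [Field F] [Field E] [Algebra L F]
    [Algebra L E] [IsAlgClosed L] [CharZero L] [FF L F] [FF L E] {y : F →ₐ[L] E} {Q : Place L E} 
    {v : Place L F} {e : ℕ} (h : Lies y Q v e) : 0 < e := by
  rcases Nat.eq_zero_or_pos e with he | he
  · exfalso
    obtain ⟨x, hx⟩ := FF.exists_transcendental (L := L) (E := F)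
    have hyx : Transcendental L (y x) := algHom_transcendental y hx
    have hyx0 : y x ≠ 0 := by intro h0; rw [h0] at hyx; exact hyx isAlgebraic_zero
    have h1 := h x
    rw [he, Nat.cast_zero, zero_mul] at h1
    obtain ⟨c, hc⟩ := Q.exists_res ((Q.ge_iff hyx0).2 h1.ge)
    have h2 : y x - algebraMap L E c = y (x - algebraMap L F c) := by
      rw [map_sub, y.commutes]
    have h3 : y (x - algebraMap L F c) ≠ 0 := by
      rw [map_ne_zero, sub_ne_zero]
      exact ((transcendental_iff.1 hx) c).symm
    have h4 := h (x - algebraMap L F c)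
    rw [he, Nat.cast_zero, zero_mul] at h4
    rw [h2, Q.ge_iff h3, h4] at hc
    omega
  · exact he

theorem Lies.unique {y : F →ₐ[k] E} {Q : Place L E} {v v' : Place k F} {e e' : ℕ} 
    (h : Lies y Q v e) (h' : Lies y Q v' e') (he : 0 < e) : v = v' ∧ e = e' := by
  have he' : 0 < e' := by
    rcases Nat.eq_zero_or_pos e' with h0 | h0
    · obtain ⟨t, ht0, ht⟩ := v.exists_unif
      have h1 := h t
      rw [h' t, ht, h0] at h1
      simp at h1
      omega
    · exact h0
  have hv : v = v' := by
    apply Place.eq_of_ring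
    intro f hf
    rwa [← h'.ge_zero_iff he', h.ge_zero_iff he]
  subst hv
  refine ⟨rfl, ?_⟩
  obtain ⟨t, ht0, ht⟩ := v.exists_unif
  have h1 := h t
  rw [h' t, ht] at h1
  simp at h1
  omega

/-- residues are compatible with restriction -/
theorem Lies.res {y : F →ₐ[k] E} {Q : Place L E} {v : Place k F} {e : ℕ} (h : Lies y Q v e)
    {f : F} (hf : v.Ge 0 f) : 
    Q.Ge e (y f - algebraMap k E (v.res f)) := by
  have h1 := h.ge (v.res_spec hf)
  rw [map_sub, y.commutes, mul_one] at h1
  exact h1

end Below

section Up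

/-- height in a finite extension -/
theorem ht_extension (L E E' : Type*) [Field L] [Field E] [Field E'] [Algebra L E] [Algebra E E']
    [Algebra L E'] [IsScalarTower L E E'] [IsAlgClosed L] [CharZero L] [FF L E] 
    [FiniteDimensional E E'] (w : E) : 
    ht L (algebraMap E E' w) = Module.finrank E E' * ht L w := by
  by_cases hw : Transcendental L w
  · have hw' : Transcendental L (algebraMap E E' w) := 
      (transcendental_algebraMap_iff (algebraMap E E').injective).2 hw
    unfold ht
    rw [if_pos hw, if_pos hw']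
    have h2 := FF.finite hw
    let f : E →ₐ[L] E' := IsScalarTower.toAlgHom L E E'
    have hmap : (L⟮w⟯).map f = L⟮algebraMap E E' w⟯ := by
      rw [IntermediateField.adjoin_map, Set.image_singleton]; rfl
    let e : L⟮w⟯ ≃ₐ[L] L⟮algebraMap E E' w⟯ := 
      ((L⟮w⟯).equivMap f).trans (IntermediateField.equivOfEq hmap)
    have h3 : Module.finrank L⟮algebraMap E E' w⟯ E' = Module.finrank L⟮w⟯ E' := by
      symm
      apply Algebra.finrank_eq_of_equiv_equiv e.toRingEquiv (RingEquiv.refl E')
      ext a
      rfl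
    rw [h3, ← Module.finrank_mul_finrank L⟮w⟯ E E', mul_comm]
  · have hw' : ¬ Transcendental L (algebraMap E E' w) := by
      rwa [transcendental_algebraMap_iff (algebraMap E E').injective]
    unfold ht
    rw [if_neg hw, if_neg hw', mul_zero]

theorem ge_zero_of_ord_nonneg {L E : Type*} [Field L] [Field E] [Algebra L E] (P : Place L E) 
    {y : E} (h : 0 ≤ P.ord y) : P.Ge 0 y := P.ge_ord.mono h

/-- There is a function whose only pole is `P`. -/
theorem exists_pole_only {L E : Type*} [Field L] [Field E] [Algebra L E] [IsAlgClosed L]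
    [CharZero L] [FF L E] (P : Place L E) : 
    ∃ y : E, Transcendental L y ∧ ∀ P' : Place L E, P' ≠ P → 0 ≤ P'.ord y := by
  classical
  obtain ⟨N, hN⟩ := exists_of_deg_pos (fun P' : Place L E => if P' = P then 1 else 0) {P}
    (fun P' hP' => by rw [Finset.mem_singleton] at hP'; rw [if_neg hP']) (by simp)
  obtain ⟨f, h, hf, hh, hfh⟩ := hN N le_rfl
  have hh0 : h ≠ 0 := by rintro rfl; exact hh isAlgebraic_zero
  have h1 : ∀ P' : Place L E, P' ≠ P → 0 ≤ P'.ord f ∧ 0 ≤ P'.ord (f * h) := by
    intro P' hP'
    have h2 := hfh P'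
    rw [if_neg hP', mul_zero] at h2
    rw [P'.ord_mul hf hh0]
    have h3 := le_max_left 0 (- P'.ord h)
    have h4 := le_max_right 0 (- P'.ord h)
    omega
  by_cases hft : Transcendental L f
  · exact ⟨f, hft, fun P' hP' => (h1 P' hP').1⟩
  · refine ⟨f * h, ?_, fun P' hP' => (h1 P' hP').2⟩
    obtain ⟨c, hc⟩ := not_transcendental hft
    rw [transcendental_iff] at hh ⊢
    intro d hd
    have hc0 : c ≠ 0 := by rintro rfl; rw [map_zero] at hc; exact hf hc.symm
    apply hh (c⁻¹ * d)
    rw [map_mul, hd, map_inv₀, hc, ← mul_assoc, inv_mul_cancel₀ hf, one_mul]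

/-- **Fundamental equality** for a finite extension. -/
theorem exists_above (L E E' : Type*) [Field L] [Field E] [Field E'] [Algebra L E] [Algebra E E']
    [Algebra L E'] [IsScalarTower L E E'] [IsAlgClosed L] [CharZero L] [FF L E] 
    [FiniteDimensional E E'] (P : Place L E) : 
    ∃ s : Finset (Place L E'), (∀ Q, Q ∈ s ↔ ∃ e, Lies (IsScalarTower.toAlgHom L E E') Q P e) ∧
      ∀ t : E, P.ord t = 1 → ∑ Q ∈ s, Q.ord (algebraMap E E' t) = Module.finrank E E' := by
  classical
  have hFF : FF L E' := FF.extension L E E'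
  obtain ⟨y, hy, hpole⟩ := exists_pole_only P
  have hy' : Transcendental L (algebraMap E E' y) := 
      (transcendental_algebraMap_iff (algebraMap E E').injective).2 hy
  have hyP : P.ord y < 0 := by
    obtain ⟨P', hP'⟩ := exists_pole hy
    by_cases h : P' = P
    · rwa [← h]
    · have := hpole P' h; omega
  -- height of y
  have hty : (ht L y : ℤ) = - P.ord y := by
    obtain ⟨s, hs, hsum⟩ := exists_poles hy
    have : s = {P} := by
      ext P'
      rw [hs, Finset.mem_singleton]
      constructor
      · intro h; by_contra h2; have := hpole P' h2; omega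
      · rintro rfl; exact hyP
    rw [← hsum, this, Finset.sum_singleton]
  obtain ⟨s, hs, hsum⟩ := exists_poles hy'
  have hlies : ∀ Q ∈ s, ∃ e, 0 < e ∧ Lies (IsScalarTower.toAlgHom L E E') Q P e := by
    intro Q hQ
    obtain ⟨v, e, hve⟩ := exists_lies (IsScalarTower.toAlgHom L E E') Q
    have he := hve.pos
    have h1 := hve y
    rw [hs] at hQ
    change Q.ord (algebraMap E E' y) = _ at h1
    rw [h1] at hQ
    have hv : v = P := by
      by_contra h2
      have := hpole v h2
      have : (0:ℤ) ≤ e * v.ord y := by positivity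
      omega
    rw [hv] at hve
    exact ⟨e, he, hve⟩
  refine ⟨s, ?_, ?_⟩
  · intro Q
    constructor
    · intro hQ
      obtain ⟨e, -, he⟩ := hlies Q hQ
      exact ⟨e, he⟩
    · rintro ⟨e, he⟩
      have hpos := he.pos
      rw [hs]
      have h1 := he y
      change Q.ord (algebraMap E E' y) = _ at h1
      rw [h1]
      have : (0:ℤ) < e := by exact_mod_cast hpos
      nlinarith
  · intro t ht
    have h1 : ∀ Q ∈ s, - Q.ord (algebraMap E E' y) = Q.ord (algebraMap E E' t) * (- P.ord y) := by
      intro Q hQ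
      obtain ⟨e, -, he⟩ := hlies Q hQ
      have h2 := he y
      have h3 := he t
      change Q.ord (algebraMap E E' y) = _ at h2
      change Q.ord (algebraMap E E' t) = _ at h3
      rw [h2, h3, ht]; ring
    rw [Finset.sum_congr rfl h1, ← Finset.sum_mul, ht_extension L E E'] at hsum
    push_cast at hsum
    rw [hty] at hsum
    have h4 : (- P.ord y) ≠ 0 := by omega
    exact mul_right_cancel₀ h4 hsum

/-- Places extend to finite extensions. -/
theorem exists_place_above (L E E' : Type*) [Field L] [Field E] [Field E'] [Algebra L E] 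
    [Algebra E E'] [Algebra L E'] [IsScalarTower L E E'] [IsAlgClosed L] [CharZero L] [FF L E] 
    [FiniteDimensional E E'] (P : Place L E) : 
    ∃ (Q : Place L E') (e : ℕ), 0 < e ∧ Lies (IsScalarTower.toAlgHom L E E') Q P e := by
  obtain ⟨s, hs, h⟩ := exists_above L E E' P
  have hFF : FF L E' := FF.extension L E E'
  obtain ⟨t, ht0, ht⟩ := P.exists_unif
  have h1 := h t ht
  have hne : s.Nonempty := by
    rw [Finset.nonempty_iff_ne_empty]
    rintro rfl
    rw [Finset.sum_empty] at h1
    have : 0 < Module.finrank E E' := Module.finrank_pos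
    omega
  obtain ⟨Q, hQ⟩ := hne
  obtain ⟨e, he⟩ := (hs Q).1 hQ
  exact ⟨Q, e, he.pos, he⟩

end Up

end PGH
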