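import Mathlib
import Pool.Agent.Helper1_PGH.Below

open WithZero IntermediateField

namespace PGH

section Inertia

variable {L E' : Type*} [Field L] [Field E'] [Algebra L E']

theorem Place.ext_ord {P Q : Place L E'} (h : ∀ y, P.ord y = Q.ord y) : P = Q := by
  apply Place.eq_of_ring
  intro y hy
  by_cases hy0 : y = 0
  · rw [hy0]; exact Q.ge_zero _
  · rw [Q.ge_iff hy0, ← h y]; exact (P.ge_iff hy0).1 hy

/-- transport of a place by an automorphism -/
def Place.pull (σ : E' ≃ₐ[L] E') (Q : Place L E') : Place L E' where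
  v := Q.v.comap (σ : E' ≃+* E').toRingHom
  exists_unif' := by
    obtain ⟨u, hu⟩ := Q.exists_unif'
    exact ⟨σ.symm u, by simpa using hu⟩
  v_const' := by
    intro c hc
    simpa using Q.v_const' c hc
  exists_res' := by
    intro y hy
    obtain ⟨c, hc⟩ := Q.exists_res' (σ y) hy
    exact ⟨c, by simpa using hc⟩

theorem Place.pull_ord (σ : E' ≃ₐ[L] E') (Q : Place L E') (y : E') : 
    (Q.pull σ).ord y = Q.ord (σ y) := rfl

theorem Place.ge_congr {Q : Place L E'} {a b : E'} (h : Q.ord a = Q.ord b) (ha : a ≠ 0) 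
    (hb : b ≠ 0) {n : ℤ} : Q.Ge n a ↔ Q.Ge n b := by
  rw [Q.ge_iff ha, Q.ge_iff hb, h]

section fixed

variable {Q : Place L E'} {σ : E' →ₐ[L] E'} 

/-- `σ` fixes the place `Q` -/
def Fixes (Q : Place L E') (σ : E' →ₐ[L] E') : Prop := ∀ y, Q.ord (σ y) = Q.ord y

theorem Fixes.ge (h : Fixes Q σ) {n : ℤ} {y : E'} (hy : Q.Ge n y) : Q.Ge n (σ y) := by
  by_cases hy0 : y = 0
  · rw [hy0, map_zero]; exact Q.ge_zero _
  · rw [Q.ge_iff (by simpa using hy0), h y]
    exact (Q.ge_iff hy0).1 hy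

theorem Fixes.sub (h : Fixes Q σ) {y : E'} (hy : Q.Ge 0 y) : Q.Ge 1 (σ y - y) := by
  have h1 := Q.res_spec hy
  have h2 := h.ge h1
  rw [map_sub, σ.commutes] at h2
  have := h2.sub h1
  convert this using 1
  ring

/-- the action on units of the local ring is trivial modulo the maximal ideal -/
theorem Fixes.unit (h : Fixes Q σ) {y : E'} (hy0 : y ≠ 0) (hy : Q.ord y = 0) : 
    Q.Ge 1 (σ y / y - 1) := by
  have h1 := h.sub ((Q.ge_iff hy0).2 hy.ge)
  have h2 : σ y / y - 1 = (σ y - y) * y⁻¹ := by field_simp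
  rw [h2]
  exact h1.mul' (n := 0) ((Q.ge_iff (inv_ne_zero hy0)).2 (by rw [Q.ord_inv]; omega)) (by omega)

/-- if the action on a uniformizer is by `ζ` then on elements of order `n` it is by `ζ^n` -/
theorem Fixes.char_zpow (h : Fixes Q σ) {s : E'} (hs0 : s ≠ 0) (hs : Q.ord s = 1) {ζ : L}
    (hζ : ζ ≠ 0) (hζs : Q.Ge 1 (σ s / s - algebraMap L E' ζ)) {y : E'} (hy0 : y ≠ 0) :
    Q.Ge 1 (σ y / y - algebraMap L E' (ζ ^ (Q.ord y))) := by
  -- units congruent to constants
  have key : ∀ (a b : E') (c d : L), Q.Ge 1 (a - algebraMap L E' c) → 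
      Q.Ge 1 (b - algebraMap L E' d) → Q.Ge 1 (a * b - algebraMap L E' (c * d)) := by
    intro a b c d ha hb
    have h1 : a * b - algebraMap L E' (c * d) = (a - algebraMap L E' c) * b + 
        algebraMap L E' c * (b - algebraMap L E' d) := by rw [map_mul]; ring
    rw [h1]
    exact (ha.mul' (Q.ge_zero_of_res hb) (by omega)).add ((Q.ge_const c).mul' hb (by omega))
  have keyinv : ∀ (a : E') (c : L), a ≠ 0 → c ≠ 0 → Q.Ge 1 (a - algebraMap L E' c) → 
      Q.Ge 1 (a⁻¹ - algebraMap L E' c⁻¹) := by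
    intro a c ha0 hc ha
    have hc' : algebraMap L E' c ≠ 0 := by simpa using hc
    have haord : Q.ord a = 0 := by
      by_contra hne
      have h0 := (Q.ge_iff ha0).1 (Q.ge_zero_of_res ha)
      have h1 : Q.Ge 1 a := (Q.ge_iff ha0).2 (by omega)
      have h2 := h1.sub ha
      rw [sub_sub_cancel] at h2
      exact Q.not_ge_one_const hc h2
    have h1 : a⁻¹ - algebraMap L E' c⁻¹ = -((a - algebraMap L E' c) * (a⁻¹ * algebraMap L E' c⁻¹)) := by
      rw [map_inv₀]; field_simp; ring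
    rw [h1]
    refine (ha.mul' (n := 0) ?_ (by omega)).neg
    refine Place.Ge.mul' (m := 0) ?_ (Q.ge_const _) (by omega)
    exact (Q.ge_iff (inv_ne_zero ha0)).2 (by rw [Q.ord_inv]; omega)
  have hσs0 : σ s ≠ 0 := by simpa using hs0
  have hq0 : σ s / s ≠ 0 := div_ne_zero hσs0 hs0
  have hpow : ∀ n : ℕ, Q.Ge 1 ((σ s / s) ^ n - algebraMap L E' (ζ ^ n)) := by
    intro n
    induction n with
    | zero => simp
    | succ n ih => rw [pow_succ, pow_succ]; exact key _ _ _ _ ih hζs
  have hzpow : ∀ n : ℤ, Q.Ge 1 ((σ s / s) ^ n - algebraMap L E' (ζ ^ n)) := by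
    intro n
    obtain ⟨m, rfl | rfl⟩ := n.eq_nat_or_neg
    · simpa using hpow m
    · rw [zpow_neg, zpow_neg, zpow_natCast, zpow_natCast]
      exact keyinv _ _ (pow_ne_zero _ hq0) (pow_ne_zero _ hζ) (hpow m)
  set n := Q.ord y with hn
  set w := y * s ^ (-n) with hw
  have hw0 : w ≠ 0 := mul_ne_zero hy0 (zpow_ne_zero _ hs0)
  have hword : Q.ord w = 0 := by
    rw [hw, Q.ord_mul hy0 (zpow_ne_zero _ hs0), Q.ord_zpow, hs]; omega
  have h1 := h.unit hw0 hword
  have h2 : σ y / y = (σ w / w) * (σ s / s) ^ n := by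
    rw [hw, map_mul, map_zpow₀, div_zpow, zpow_neg, zpow_neg]
    have := zpow_ne_zero n hs0
    have := zpow_ne_zero n hσs0
    field_simp
  rw [h2]
  have := key (σ w / w) ((σ s / s) ^ n) 1 (ζ ^ n) (by rwa [map_one]) (hzpow n)
  rwa [one_mul] at this

end fixed

section galois

variable {E : Type*} [Field E] [Algebra L E] [Algebra E E'] [IsScalarTower L E E']

/-- the Galois group acts on places -/
instance placeAction : MulAction (E' ≃ₐ[E] E') (Place L E') where
  smul σ Q := Q.pull ((σ⁻¹).restrictScalars L)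
  one_smul Q := by
    apply Place.ext_ord
    intro y
    rfl
  mul_smul σ τ Q := by
    apply Place.ext_ord
    intro y
    change Q.ord ((σ * τ)⁻¹ y) = Q.ord (τ⁻¹ (σ⁻¹ y))
    rw [mul_inv_rev]; rfl

theorem place_smul_ord (σ : E' ≃ₐ[E] E') (Q : Place L E') (y : E') : 
    (σ • Q).ord y = Q.ord (σ⁻¹ y) := rfl

/-- an automorphism over `E`, as an `L`-algebra endomorphism -/
def toL (L : Type*) {E E' : Type*} [Field L] [Field E'] [Algebra L E'] [Field E] [Algebra L E]
    [Algebra E E'] [IsScalarTower L E E'] (σ : E' ≃ₐ[E] E') : E' →ₐ[L] E' :=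
  (σ.restrictScalars L : E' ≃ₐ[L] E')

@[simp] theorem toL_apply (σ : E' ≃ₐ[E] E') (y : E') : toL L σ y = σ y := rfl

theorem fixes_of_stabilizer {Q : Place L E'} {σ : E' ≃ₐ[E] E'} 
    (h : σ ∈ MulAction.stabilizer (E' ≃ₐ[E] E') Q) : Fixes Q (toL L σ) := by
  intro y
  have h1 : σ • Q = Q := h
  have h2 : (σ • Q).ord (σ y) = Q.ord (σ y) := by rw [h1]
  rw [place_smul_ord] at h2
  have h3 : σ⁻¹ (σ y) = y := by
    rw [← AlgEquiv.mul_apply]; simp
  rw [h3] at h2
  exact h2.symm

variable [IsAlgClosed L] [CharZero L] [FF L E] [FiniteDimensional E E'] [IsGalois E E']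

theorem ram_le_card_stabilizer (Q : Place L E') (P : Place L E) (e : ℕ) 
    (h : Lies (IsScalarTower.toAlgHom L E E') Q P e) : 
    e ≤ Nat.card (MulAction.stabilizer (E' ≃ₐ[E] E') Q) := by
  classical
  have hFF : FF L E' := FF.extension L E E'
  obtain ⟨s, hs, hsum⟩ := exists_above L E E' P
  obtain ⟨t, ht0, ht⟩ := P.exists_unif
  have h1 := hsum t ht
  have horb : ∀ R ∈ MulAction.orbit (E' ≃ₐ[E] E') Q, R ∈ s ∧ R.ord (algebraMap E E' t) = e := by
    rintro _ ⟨σ, rfl⟩
    have hl : Lies (IsScalarTower.toAlgHom L E E') (σ • Q) P e := by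
      intro f
      rw [place_smul_ord]
      have : σ⁻¹ ((IsScalarTower.toAlgHom L E E') f) = (IsScalarTower.toAlgHom L E E') f := 
        (σ⁻¹).commutes f
      rw [this]; exact h f
    refine ⟨(hs _).2 ⟨e, hl⟩, ?_⟩
    have := hl t
    rw [ht, mul_one] at this
    exact this
  have hfin : (MulAction.orbit (E' ≃ₐ[E] E') Q).Finite := Set.finite_range _
  have h2 : (e : ℤ) * Nat.card (MulAction.orbit (E' ≃ₐ[E] E') Q) ≤ Module.finrank E E' := by
    rw [← h1]
    calc (e : ℤ) * Nat.card (MulAction.orbit (E' ≃ₐ[E] E') Q) 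
        = ∑ R ∈ hfin.toFinset, R.ord (algebraMap E E' t) := by
          rw [Finset.sum_congr rfl (fun R hR => (horb R (hfin.mem_toFinset.1 hR)).2)]
          rw [Finset.sum_const, nsmul_eq_mul, Nat.card_coe_set_eq, 
            Set.ncard_eq_toFinset_card _ hfin, mul_comm]
      _ ≤ ∑ R ∈ s, R.ord (algebraMap E E' t) := by
          apply Finset.sum_le_sum_of_subset_of_nonneg
          · intro R hR
            exact (horb R (hfin.mem_toFinset.1 hR)).1
          · intro R hR _
            obtain ⟨e', he'⟩ := (hs R).1 hR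
            have := he' t
            rw [ht, mul_one] at this
            change 0 ≤ R.ord ((IsScalarTower.toAlgHom L E E') t)
            rw [this]; positivity
  have h3 : Nat.card (MulAction.orbit (E' ≃ₐ[E] E') Q) * 
      Nat.card (MulAction.stabilizer (E' ≃ₐ[E] E') Q) = Module.finrank E E' := by
    rw [← IsGalois.card_aut_eq_finrank, ← Nat.card_prod, 
      Nat.card_congr (MulAction.orbitProdStabilizerEquivGroup (E' ≃ₐ[E] E') Q)]
  have hfin' : Finite (MulAction.orbit (E' ≃ₐ[E] E') Q) := hfin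
  have hne : Nonempty (MulAction.orbit (E' ≃ₐ[E] E') Q) := ⟨⟨Q, MulAction.mem_orbit_self Q⟩⟩
  have h4 : 0 < Nat.card (MulAction.orbit (E' ≃ₐ[E] E') Q) := Nat.card_pos
  have h5 : e * Nat.card (MulAction.orbit (E' ≃ₐ[E] E') Q) ≤ 
      Nat.card (MulAction.stabilizer (E' ≃ₐ[E] E') Q) * Nat.card (MulAction.orbit (E' ≃ₐ[E] E') Q) := by
    rw [mul_comm (Nat.card (MulAction.stabilizer (E' ≃ₐ[E] E') Q)), h3]
    exact_mod_cast h2
  exact Nat.le_of_mul_le_mul_right h5 h4

/-- an automorphism of finite order fixing `Q` with trivial character is trivial -/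
theorem eq_one_of_char_eq_one {Q : Place L E'} {σ : E' ≃ₐ[E] E'} (hσ : Fixes Q (toL L σ))
    {s : E'} (hs0 : s ≠ 0) (hs : Q.ord s = 1) (h : Q.Ge 1 (σ s / s - 1)) : σ = 1 := by
  by_contra hne
  have : ∃ y, σ y ≠ y := by
    by_contra hcon
    push Not at hcon
    exact hne (AlgEquiv.ext hcon)
  obtain ⟨y, hy⟩ := this
  set w := σ y - y with hw
  have hw0 : w ≠ 0 := sub_ne_zero.2 hy
  set r := orderOf σ with hr
  have hrpos : 0 < r := orderOf_pos σ
  -- each power acts trivially to first order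
  have hpow : ∀ m : ℕ, Fixes Q (toL L (σ ^ m)) ∧ Q.Ge 1 ((σ ^ m) s / s - 1) := by
    intro m
    induction m with
    | zero => 
      refine ⟨fun y => rfl, ?_⟩
      have : ((σ ^ 0 : E' ≃ₐ[E] E') s) = s := by rw [pow_zero]; rfl
      rw [this, div_self hs0]; simp
    | succ m ih =>
      have h1 : ∀ z, (σ ^ (m + 1)) z = (σ ^ m) (σ z) := fun z => by rw [pow_succ]; rfl
      refine ⟨fun y => ?_, ?_⟩
      · rw [toL_apply, h1]
        have h2 := ih.1 (σ y)
        rw [toL_apply] at h2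
        rw [h2]
        exact hσ y
      · rw [h1]
        have hσs0 : σ s ≠ 0 := by simpa using hs0
        -- (σ^m (σ s)) / s = (σ^m (σ s))/(σ s) * (σ s / s)
        have h3 := ih.1.char_zpow hs0 hs (ζ := 1) one_ne_zero (by simpa using ih.2) hσs0
        rw [one_zpow, map_one, toL_apply] at h3
        have h4 : (σ ^ m) (σ s) / s - 1 = ((σ ^ m) (σ s) / σ s - 1) * (σ s / s) + (σ s / s - 1) := by
          field_simp; ring
        rw [h4]
        have h5 : Q.Ge 0 (σ s / s) := by
          have := (h.mono (by norm_num : (0:ℤ) ≤ 1)).add Q.ge_one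
          simpa using this
        exact (h3.mul' h5 (by omega)).add h
  have hterm : ∀ m : ℕ, Q.Ge 1 ((σ ^ m) w / w - 1) := by
    intro m
    have h3 := (hpow m).1.char_zpow hs0 hs (ζ := 1) one_ne_zero (by simpa using (hpow m).2) hw0
    rwa [one_zpow, map_one, toL_apply] at h3
  have hsum0 : ∑ m ∈ Finset.range r, (σ ^ m) w = 0 := by
    have h1 : ∀ m : ℕ, (σ ^ m) w = (σ ^ (m + 1)) y - (σ ^ m) y := by
      intro m
      rw [hw, map_sub, pow_succ]; rfl
    rw [Finset.sum_congr rfl (fun m _ => h1 m), Finset.sum_range_sub (fun m => (σ ^ m) y), 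
      hr, pow_orderOf_eq_one, pow_zero]
    simp
  have h2 : Q.Ge 1 (∑ m ∈ Finset.range r, ((σ ^ m) w / w - 1)) := 
    Place.Ge.sum (fun m _ => hterm m)
  rw [Finset.sum_sub_distrib, ← Finset.sum_div, hsum0, zero_div, zero_sub, Finset.sum_const,
    Finset.card_range, nsmul_eq_mul, mul_one] at h2
  have h3 := h2.neg
  rw [neg_neg] at h3
  have h4 : ((r : ℕ) : E') = algebraMap L E' (r : L) := by simp
  rw [h4] at h3
  exact Q.not_ge_one_const (by exact_mod_cast hrpos.ne') h3

/-- **Inertia.**  At every place `Q` of a Galois extension there is an automorphism `σ` fixing `Q`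
whose order bounds the ramification index and which acts on elements of order `n` by `ζ^n` with
`ζ` a primitive root of unity of order `orderOf σ`. -/
theorem exists_inertia (E : Type*) [Field E] [Algebra L E] [Algebra E E'] [IsScalarTower L E E']
    [FF L E] [FiniteDimensional E E'] [IsGalois E E'] (Q : Place L E') : 
    ∃ (σ : E' ≃ₐ[E] E') (ζ : L), IsPrimitiveRoot ζ (orderOf σ) ∧ Fixes Q (toL L σ) ∧
      (∀ y : E', y ≠ 0 → Q.Ge 1 (σ y / y - algebraMap L E' (ζ ^ (Q.ord y)))) ∧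
      ∀ (P : Place L E) (e : ℕ), Lies (IsScalarTower.toAlgHom L E E') Q P e → e ≤ orderOf σ := by
  classical
  obtain ⟨s, hs0, hs⟩ := Q.exists_unif
  set H := MulAction.stabilizer (E' ≃ₐ[E] E') Q with hH
  have hunit : ∀ σ : H, (σ.1 s / s) ≠ 0 ∧ Q.Ge 0 (σ.1 s / s) := by
    intro σ
    have h1 : σ.1 s ≠ 0 := by simpa using hs0
    have h2 : Q.ord (σ.1 s) = Q.ord s := fixes_of_stabilizer σ.2 s
    refine ⟨div_ne_zero h1 hs0, ?_⟩
    rw [Q.ge_iff (div_ne_zero h1 hs0), Q.ord_div h1 hs0, h2]; omega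
  have hres : ∀ σ : H, ∃ c : L, c ≠ 0 ∧ Q.Ge 1 (σ.1 s / s - algebraMap L E' c) := by
    intro σ
    obtain ⟨c, hc⟩ := Q.exists_res (hunit σ).2
    refine ⟨c, ?_, hc⟩
    rintro rfl
    rw [map_zero, sub_zero, Q.ge_iff (hunit σ).1] at hc
    have h1 : σ.1 s ≠ 0 := by simpa using hs0
    have h2 : Q.ord (σ.1 s) = Q.ord s := fixes_of_stabilizer σ.2 s
    rw [Q.ord_div h1 hs0, h2] at hc; omega
  choose χ hχ0 hχ using hres
  let f : H →* L :=
    { toFun := χ
      map_one' := by
        apply Q.res_unique (hχ 1)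
        have : ((1 : H).1 s) = s := rfl
        rw [this, div_self hs0, map_one, sub_self]; exact Q.ge_zero _
      map_mul' := by
        intro σ τ
        apply Q.res_unique (hχ (σ * τ))
        have h1 : ((σ * τ : H).1 s) = σ.1 (τ.1 s) := rfl
        have hτs0 : τ.1 s ≠ 0 := by simpa using hs0
        have h2 := (fixes_of_stabilizer (L := L) σ.2).char_zpow hs0 hs (hχ0 σ) (hχ σ) hτs0
        have h3 : Q.ord (τ.1 s) = 1 := by rw [← hs]; exact fixes_of_stabilizer τ.2 s
        rw [h3, zpow_one, toL_apply] at h2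
        rw [h1]
        have h4 : σ.1 (τ.1 s) / s - algebraMap L E' (χ σ * χ τ) = 
            (σ.1 (τ.1 s) / τ.1 s - algebraMap L E' (χ σ)) * (τ.1 s / s) + 
            algebraMap L E' (χ σ) * (τ.1 s / s - algebraMap L E' (χ τ)) := by
          rw [map_mul]; field_simp; ring
        rw [h4]
        exact (h2.mul' (hunit τ).2 (by omega)).add ((Q.ge_const _).mul' (hχ τ) (by omega)) }
  have hinj : Function.Injective f := by
    rw [injective_iff_map_eq_one]
    intro σ hσ
    have h1 : χ σ = 1 := hσ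
    have h2 := hχ σ
    rw [h1, map_one] at h2
    exact Subtype.ext (eq_one_of_char_eq_one (fixes_of_stabilizer σ.2) hs0 hs h2)
  have hcyc : IsCyclic H := isCyclic_of_injective_ringHom f hinj
  obtain ⟨g, hg⟩ := hcyc.exists_generator
  have h1 : orderOf (g : E' ≃ₐ[E] E') = Nat.card H := by
    rw [Subgroup.orderOf_coe]
    exact orderOf_eq_card_of_forall_mem_zpowers hg
  have h2 : orderOf (f g) = orderOf (g : E' ≃ₐ[E] E') := by
    rw [orderOf_injective f hinj, Subgroup.orderOf_coe]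
  refine ⟨g, χ g, ?_, fixes_of_stabilizer g.2, ?_, ?_⟩
  · rw [← h2]
    exact IsPrimitiveRoot.orderOf (f g)
  · intro y hy0
    exact (fixes_of_stabilizer g.2).char_zpow hs0 hs (hχ0 g) (hχ g) hy0
  · intro P e he
    rw [h1]
    exact ram_le_card_stabilizer Q P e he

end galois

end Inertia

end PGH
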