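import Mathlib
import Pool.Agent.Helper1_PGH.Inertia

open WithZero IntermediateField

namespace PGH

section Height

variable {L E : Type*} [Field L] [Field E] [Algebra L E] [IsAlgClosed L] [CharZero L] [FF L E]

theorem ht_le_of_pole_le {ι : Type*} (I : Finset ι) (z : ι → E) (y : E)
    (h : ∀ P : Place L E, max 0 (- P.ord y) ≤ ∑ i ∈ I, max 0 (- P.ord (z i))) :
    ht L y ≤ ∑ i ∈ I, ht L (z i) := by
  classical
  have hex : ∀ w : E, ∃ s : Finset (Place L E), ∀ P, P ∈ s ↔ P.ord w ≠ 0 := 
    fun w => (finite_support (L := L) w).exists_finset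
  choose S hS using hex
  set s := S y ∪ I.biUnion (fun i => S (z i)) with hs
  have h1 := sum_poles_eq y s (fun P hP => by
    by_contra h0
    apply hP
    rw [hs, Finset.mem_union]; left; exact (hS y P).2 h0)
  have h2 : ∀ i ∈ I, ∑ P ∈ s, max 0 (- P.ord (z i)) ≤ ht L (z i) := fun i _ => sum_poles_le _ _
  have h3 : (ht L y : ℤ) ≤ ∑ i ∈ I, (ht L (z i) : ℤ) := by
    rw [← h1]
    calc ∑ P ∈ s, max 0 (- P.ord y) ≤ ∑ P ∈ s, ∑ i ∈ I, max 0 (- P.ord (z i)) := 
          Finset.sum_le_sum (fun P _ => h P)
      _ = ∑ i ∈ I, ∑ P ∈ s, max 0 (- P.ord (z i)) := Finset.sum_comm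
      _ ≤ ∑ i ∈ I, (ht L (z i) : ℤ) := Finset.sum_le_sum h2
  exact_mod_cast h3

theorem ht_const (c : L) : ht L (algebraMap L E c) = 0 := by
  unfold ht
  rw [if_neg]
  intro h
  exact h (isAlgebraic_algebraMap c)

theorem pole_add_le (P : Place L E) (a b : E) : 
    max 0 (- P.ord (a + b)) ≤ max 0 (- P.ord a) + max 0 (- P.ord b) := by
  by_cases hab : a + b = 0
  · rw [hab, P.ord_zero]; simp; positivity
  · have h1 : P.Ge (min (P.ord a) (P.ord b)) (a + b) := 
      (P.ge_ord.mono (min_le_left _ _)).add (P.ge_ord.mono (min_le_right _ _))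
    rw [P.ge_iff hab] at h1
    omega

theorem pole_mul_le (P : Place L E) (a b : E) : 
    max 0 (- P.ord (a * b)) ≤ max 0 (- P.ord a) + max 0 (- P.ord b) := by
  by_cases ha : a = 0
  · rw [ha, zero_mul, P.ord_zero]; simp
  by_cases hb : b = 0
  · rw [hb, mul_zero, P.ord_zero]; simp
  rw [P.ord_mul ha hb]; omega

theorem ht_add_le (a b : E) : ht L (a + b) ≤ ht L a + ht L b := by
  have := ht_le_of_pole_le (L := L) Finset.univ ![a, b] (a + b) (fun P => by
    rw [Fin.sum_univ_two]; exact pole_add_le P a b)
  rw [Fin.sum_univ_two] at this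
  exact this

theorem ht_mul_le (a b : E) : ht L (a * b) ≤ ht L a + ht L b := by
  have := ht_le_of_pole_le (L := L) Finset.univ ![a, b] (a * b) (fun P => by
    rw [Fin.sum_univ_two]; exact pole_mul_le P a b)
  rw [Fin.sum_univ_two] at this
  exact this

theorem ht_sum_le {ι : Type*} (I : Finset ι) (z : ι → E) : 
    ht L (∑ i ∈ I, z i) ≤ ∑ i ∈ I, ht L (z i) := by
  classical
  induction I using Finset.induction_on with
  | empty => 
    rw [Finset.sum_empty, Finset.sum_empty]
    have := ht_const (L := L) (E := E) 0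
    rw [map_zero] at this; rw [this]
  | insert a s ha ih =>
    rw [Finset.sum_insert ha, Finset.sum_insert ha]
    exact (ht_add_le _ _).trans (by omega)

theorem ht_prod_le {ι : Type*} (I : Finset ι) (z : ι → E) : 
    ht L (∏ i ∈ I, z i) ≤ ∑ i ∈ I, ht L (z i) := by
  classical
  induction I using Finset.induction_on with
  | empty => 
    rw [Finset.prod_empty, Finset.sum_empty]
    have := ht_const (L := L) (E := E) 1
    rw [map_one] at this; rw [this]
  | insert a s ha ih =>
    rw [Finset.prod_insert ha, Finset.sum_insert ha]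
    exact (ht_mul_le _ _).trans (by omega)

theorem ht_pow_le (a : E) (n : ℕ) : ht L (a ^ n) ≤ n * ht L a := by
  have := ht_prod_le (L := L) (Finset.range n) (fun _ => a)
  simpa using this

theorem ht_inv (a : E) : ht L a⁻¹ = ht L a := by
  unfold ht
  by_cases h : Transcendental L a
  · rw [if_pos h, if_pos (transcendental_inv h)]
    have : L⟮a⁻¹⟯ = L⟮a⟯ := by
      apply le_antisymm
      · rw [adjoin_simple_le_iff]
        exact inv_mem (mem_adjoin_simple_self L a)
      · rw [adjoin_simple_le_iff]
        have := inv_mem (mem_adjoin_simple_self L (a⁻¹)) 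
        simpa using this
    rw [this]
  · have h2 : ¬ Transcendental L a⁻¹ := by
      intro h3
      have := transcendental_inv h3
      rw [inv_inv] at this
      exact h this
    rw [if_neg h, if_neg h2]

/-- complexity of a polynomial -/
noncomputable def cx {ι k : Type*} [CommSemiring k] (q : MvPolynomial ι k) : ℕ := 
  ∑ m ∈ q.support, m.degree

theorem ht_aeval_le {ι : Type*} [Fintype ι] (q : MvPolynomial ι L) (z : ι → E) :
    ht L (MvPolynomial.aeval z q) ≤ cx q * ∑ i, ht L (z i) := by
  classical
  rw [MvPolynomial.aeval_def, MvPolynomial.eval₂_eq']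
  refine (ht_sum_le _ _).trans ?_
  unfold cx
  rw [Finset.sum_mul]
  apply Finset.sum_le_sum
  intro m _
  refine (ht_mul_le _ _).trans ?_
  rw [ht_const, zero_add]
  refine (ht_prod_le _ _).trans ?_
  calc ∑ i, ht L (z i ^ m i) ≤ ∑ i, m i * ht L (z i) := 
        Finset.sum_le_sum (fun i _ => ht_pow_le _ _)
    _ ≤ ∑ i, m.degree * ht L (z i) := by
        apply Finset.sum_le_sum
        intro i _
        apply Nat.mul_le_mul_right
        exact Finsupp.le_degree i m
    _ = m.degree * ∑ i, ht L (z i) := by rw [Finset.mul_sum]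

/-- height of a root of a polynomial -/
theorem ht_root_le (p : Polynomial E) (ρ : E) (hp : p ≠ 0) (h : p.eval ρ = 0) :
    ht L ρ ≤ ht L p.leadingCoeff + ∑ j ∈ Finset.range (p.natDegree + 1), ht L (p.coeff j) := by
  classical
  have hlc : p.leadingCoeff ≠ 0 := Polynomial.leadingCoeff_ne_zero.2 hp
  have key : ∀ P : Place L E, max 0 (- P.ord ρ) ≤ max 0 (-P.ord (p.leadingCoeff)⁻¹) + 
      ∑ j ∈ Finset.range (p.natDegree + 1), max 0 (-P.ord (p.coeff j)) := by
    intro P
    have hnn : ∀ j ∈ Finset.range (p.natDegree + 1), 0 ≤ max 0 (-P.ord (p.coeff j)) :=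
      fun j _ => le_max_left _ _
    have hs0 := Finset.sum_nonneg hnn
    by_cases hρ : 0 ≤ P.ord ρ
    · rw [max_eq_left (by omega)]
      have := le_max_left 0 (-P.ord (p.leadingCoeff)⁻¹)
      omega
    · push Not at hρ
      by_contra hcon
      push Not at hcon
      set m := - P.ord ρ with hm
      have hmpos : 0 < m := by omega
      have hρ0 : ρ ≠ 0 := by rintro rfl; simp at hρ
      rw [max_eq_right hmpos.le] at hcon
      -- each lower term has larger order than the leading term
      have hterm : ∀ j ∈ Finset.range p.natDegree, 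
          P.Ge (P.ord p.leadingCoeff + p.natDegree * P.ord ρ + 1) (p.coeff j * ρ ^ j) := by
        intro j hj
        rw [Finset.mem_range] at hj
        refine (P.ge_ord (y := p.coeff j)).mul' (P.ge_ord.pow j) ?_
        have h1 : max 0 (-P.ord (p.coeff j)) ≤ ∑ j ∈ Finset.range (p.natDegree + 1), max 0 (-P.ord (p.coeff j)) :=
          Finset.single_le_sum hnn (Finset.mem_range.2 (by omega))
        have h2 := le_max_right 0 (-P.ord (p.coeff j))
        have h3 := le_max_right 0 (-P.ord (p.leadingCoeff)⁻¹)
        rw [P.ord_inv, neg_neg] at h3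
        rw [P.ord_inv, neg_neg] at hcon
        have h4 : m ≤ ((p.natDegree : ℤ) - j) * m := by
          have : (1 : ℤ) ≤ (p.natDegree : ℤ) - j := by omega
          nlinarith
        have h5 : P.ord ρ = - m := by omega
        rw [h5]
        nlinarith
      have heq : p.leadingCoeff * ρ ^ p.natDegree = - ∑ j ∈ Finset.range p.natDegree, p.coeff j * ρ ^ j := by
        have h1 := h
        rw [Polynomial.eval_eq_sum_range, Finset.sum_range_succ] at h1
        have : p.coeff p.natDegree = p.leadingCoeff := rfl
        rw [this] at h1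
        exact eq_neg_of_add_eq_zero_right h1
      have h6 := (Place.Ge.sum hterm).neg
      rw [← heq, P.ge_iff (mul_ne_zero hlc (pow_ne_zero _ hρ0)), P.ord_mul hlc (pow_ne_zero _ hρ0),
        P.ord_pow] at h6
      omega
  have h2 := ht_le_of_pole_le (L := L) (insert (p.natDegree + 1) (Finset.range (p.natDegree + 1)))
    (fun j => if j = p.natDegree + 1 then (p.leadingCoeff)⁻¹ else p.coeff j) ρ (fun P => by
      rw [Finset.sum_insert (by simp)]
      rw [if_pos rfl]
      refine (key P).trans_eq ?_
      congr 1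
      apply Finset.sum_congr rfl
      intro j hj
      rw [Finset.mem_range] at hj
      rw [if_neg (by omega)])
  rw [Finset.sum_insert (by simp), if_pos rfl, ht_inv] at h2
  refine h2.trans_eq ?_
  congr 1
  apply Finset.sum_congr rfl
  intro j hj
  rw [Finset.mem_range] at hj
  rw [if_neg (by omega)]

/-- explicit complexity of a polynomial over a polynomial ring -/
noncomputable def cx' {ι k : Type*} [CommSemiring k] (p : Polynomial (MvPolynomial ι k)) : ℕ := 
  cx p.leadingCoeff + ∑ j ∈ Finset.range (p.natDegree + 1), cx (p.coeff j)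

/-- height of a root of a polynomial with coefficients polynomials in `z`. -/
theorem ht_root_le' {ι : Type*} [Fintype ι] (p : Polynomial (MvPolynomial ι L)) (z : ι → E) (ρ : E)
    (h0 : MvPolynomial.aeval z p.leadingCoeff ≠ 0) 
    (h : (p.map (MvPolynomial.aeval z).toRingHom).eval ρ = 0) :
    ht L ρ ≤ cx' p * ∑ i, ht L (z i) := by
  have hdeg : (p.map (MvPolynomial.aeval z).toRingHom).natDegree = p.natDegree := 
    Polynomial.natDegree_map_of_leadingCoeff_ne_zero _ h0
  have hlc : (p.map (MvPolynomial.aeval z).toRingHom).leadingCoeff = MvPolynomial.aeval z p.leadingCoeff := 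
    Polynomial.leadingCoeff_map_of_leadingCoeff_ne_zero _ h0
  have hne : p.map (MvPolynomial.aeval z).toRingHom ≠ 0 := by
    intro h1
    rw [h1, Polynomial.leadingCoeff_zero] at hlc
    exact h0 hlc.symm
  refine (ht_root_le (L := L) _ ρ hne h).trans ?_
  rw [hlc, hdeg]
  unfold cx'
  rw [add_mul, Finset.sum_mul]
  refine add_le_add (ht_aeval_le _ _) (Finset.sum_le_sum fun j _ => ?_)
  rw [Polynomial.coeff_map]
  exact ht_aeval_le _ _

end Height

end PGH
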