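import Mathlib
import Pool.Agent.Helper1_PGH.FF

open IntermediateField Polynomial
open scoped IntermediateField.algebraAdjoinAdjoin

namespace PGH

section Rel

variable {k M ι : Type*} [Field k] [Field M] [Algebra k M]

theorem exists_relation_of_isAlgebraic (h : ι → M) {z : M} 
    (hz : IsAlgebraic (IntermediateField.adjoin k (Set.range h)) z) : 
    ∃ p : Polynomial (MvPolynomial ι k), MvPolynomial.aeval h p.leadingCoeff ≠ 0 ∧
      (p.map (MvPolynomial.aeval h).toRingHom).eval z = 0 := by
  have h1 : IsAlgebraic (Algebra.adjoin k (Set.range h)) z := 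
    (IsFractionRing.isAlgebraic_iff (Algebra.adjoin k (Set.range h)) 
      (IntermediateField.adjoin k (Set.range h)) M).2 hz
  obtain ⟨q, hq0, hq⟩ := h1
  have hmem : ∀ a : MvPolynomial ι k, (MvPolynomial.aeval h).toRingHom a ∈ 
      (Algebra.adjoin k (Set.range h)).toSubring := by
    intro a
    rw [Algebra.adjoin_range_eq_range_aeval]
    exact ⟨a, rfl⟩
  let θ : MvPolynomial ι k →+* Algebra.adjoin k (Set.range h) := 
    (MvPolynomial.aeval h).toRingHom.codRestrict (Algebra.adjoin k (Set.range h)).toSubring hmem
  have hθ : (algebraMap (Algebra.adjoin k (Set.range h)) M).comp θ = 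
      (MvPolynomial.aeval h).toRingHom := by
    ext <;> rfl
  have hlift : q ∈ Polynomial.lifts θ := by
    rw [Polynomial.lifts_iff_coeff_lifts]
    intro n
    have h2 : ∀ w : M, w ∈ Algebra.adjoin k (Set.range h) → ∃ a : MvPolynomial ι k, MvPolynomial.aeval h a = w := by
      intro w hw
      rw [Algebra.adjoin_range_eq_range_aeval] at hw
      exact hw
    obtain ⟨a, ha⟩ := h2 _ (q.coeff n).2
    exact ⟨a, Subtype.ext ha⟩
  obtain ⟨p, hp, hdeg⟩ := Polynomial.exists_natDegree_eq_of_mem_lifts hlift
  refine ⟨p, ?_, ?_⟩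
  · have h2 : θ p.leadingCoeff = q.leadingCoeff := by
      rw [Polynomial.leadingCoeff, Polynomial.leadingCoeff, ← hdeg, ← hp, coeff_map]
    intro h3
    have h4 : algebraMap (Algebra.adjoin k (Set.range h)) M (θ p.leadingCoeff) = 0 := by
      rw [← RingHom.comp_apply, hθ]; exact h3
    rw [h2] at h4
    have h5 : q.leadingCoeff = 0 := Subtype.ext h4
    exact hq0 (Polynomial.leadingCoeff_eq_zero.1 h5)
  · rw [← hθ, ← Polynomial.map_map, hp, eval_map]
    exact hq

variable [IsAlgClosed k] {F : ι → IntermediateField k M} [∀ i, FF k (F i)]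

/-- `M` is algebraic over `k(h_1, …, h_n)` if it is algebraic over the compositum of the `F_i`. -/
theorem isAlgebraic_adjoin_of_iSup [Algebra.IsAlgebraic (⨆ i, F i : IntermediateField k M) M] 
    (h : ∀ i, F i) (hh : ∀ i, Transcendental k (h i)) (z : M) : 
    IsAlgebraic (IntermediateField.adjoin k (Set.range (fun i => (h i : M)))) z := by
  set H := IntermediateField.adjoin k (Set.range (fun i => (h i : M))) with hH
  let AC : IntermediateField k M := (algebraicClosure H M).restrictScalars k
  have h1 : (⨆ i, F i : IntermediateField k M) ≤ AC := by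
    apply iSup_le
    intro i z hz
    change IsIntegral H z
    rw [← isAlgebraic_iff_isIntegral]
    have h2 := FF.isAlgebraic (hh i)
    have h3 := h2.isAlgebraic ⟨z, hz⟩
    -- k⟮h i⟯ → H
    have h4 : ∀ w ∈ k⟮h i⟯, (w : M) ∈ H := by
      intro w hw
      induction hw using IntermediateField.adjoin_induction with
      | mem x hx => 
        rw [Set.mem_singleton_iff] at hx
        rw [hx]
        exact IntermediateField.subset_adjoin _ _ ⟨i, rfl⟩
      | algebraMap x => exact H.algebraMap_mem x
      | add x y _ _ hx hy => exact add_mem hx hy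
      | inv x _ hx => exact inv_mem hx
      | mul x y _ _ hx hy => exact mul_mem hx hy
    obtain ⟨q, hq0, hq⟩ := h3
    let θ : k⟮h i⟯ →+* H := 
      { toFun := fun w => ⟨(w : F i), h4 w.1 w.2⟩
        map_one' := rfl
        map_zero' := rfl
        map_add' := fun _ _ => rfl
        map_mul' := fun _ _ => rfl }
    refine ⟨q.map θ, ?_, ?_⟩
    · rwa [Ne, Polynomial.map_eq_zero_iff θ.injective]
    · rw [aeval_def, eval₂_map]
      have h5 := congrArg (algebraMap (F i) M) hq
      rw [map_zero, aeval_def, Polynomial.hom_eval₂] at h5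
      exact h5
  have h2 : IsAlgebraic AC z := by
    have h3 : IsAlgebraic (⨆ i, F i : IntermediateField k M) z := Algebra.IsAlgebraic.isAlgebraic z
    obtain ⟨q, hq0, hq⟩ := h3
    refine ⟨q.map (IntermediateField.inclusion h1).toRingHom, ?_, ?_⟩
    · rwa [Ne, Polynomial.map_eq_zero_iff (RingHom.injective _)]
    · rw [aeval_def, eval₂_map]
      exact hq
  have h3 : IsAlgebraic (algebraicClosure H M) z := h2
  have h4 : Algebra.IsAlgebraic H (algebraicClosure H M) := inferInstance
  exact h3.restrictScalars H

end Rel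

end PGH
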