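import Mathlib
import Pool.Agent.Helper1_PGH.Height

open WithZero IntermediateField

namespace PGH

section Count

variable {k L E : Type*} [Field k] [Field L] [Field E] [Algebra k L] [Algebra k E] [Algebra L E]
  [IsScalarTower k L E]

section single

variable {F : Type*} [Field F] [Algebra k F] {y : F →ₐ[k] E} {Q : Place L E} {v : Place k F} {e : ℕ}
  {D : Derivation ℤ E E}

theorem deriv_sub_res (hDk : ∀ c : k, D (algebraMap k E c) = 0) (x : F) (c : k) : 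
    D (y (x - algebraMap k F c)) = D (y x) := by
  rw [map_sub, y.commutes, map_sub, hDk, sub_zero]

theorem local_nonstatic (hl : Lies y Q v e) (hDk : ∀ c : k, D (algebraMap k E c) = 0) {A : ℤ}
    (hD : DGe Q D (1 - A)) (x : F) : Q.Ge (e * dord x v + e - A) (D (y x)) := by
  have h1 : Q.Ge (e * v.ord (x - algebraMap k F (v.res x))) (y (x - algebraMap k F (v.res x))) := 
    hl.ge (v.ge_ord)
  have h2 := hD.ge h1
  rw [deriv_sub_res hDk] at h2
  refine h2.mono ?_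
  unfold dord
  linarith

theorem local_static (hl : Lies y Q v e) (hDk : ∀ c : k, D (algebraMap k E c) = 0) 
    (hD : DGe Q D 0) (hD' : ∀ z, Q.Ge 1 z → Q.Ge 1 (D z)) (x : F) : 
    Q.Ge (e * dord x v + e) (D (y x)) := by
  have h1 : Q.Ge (e * v.ord (x - algebraMap k F (v.res x))) (y (x - algebraMap k F (v.res x))) := 
    hl.ge (v.ge_ord)
  have h2 := hD.ge_static hD' h1
  rw [deriv_sub_res hDk] at h2
  refine h2.mono ?_
  unfold dord
  linarith

theorem local_trivial (hPL : PresL L D) {A : ℤ}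
    (hD : DGe Q D (1 - A)) {z : E} {c : L} {r : ℤ} (hr : Q.Ge r (z - algebraMap L E c)) : 
    Q.Ge (min 0 (r - A)) (D z) := by
  obtain ⟨d, hd⟩ := hPL c
  have h1 := hD.ge hr
  rw [map_sub, hd] at h1
  have h2 := (h1.mono (show min 0 (r - A) ≤ r - 1 + (1 - A) by omega)).add 
    ((Q.ge_const d).mono (show min 0 (r - A) ≤ 0 from min_le_left _ _))
  rwa [sub_add_cancel] at h2

end single

variable {ι : Type*} {F : ι → Type*} [∀ i, Field (F i)] [∀ i, Algebra k (F i)]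

/-- The local inequality at one place. -/
theorem local_ineq (T S : Finset ι) (hST : S ⊆ T) (μ : ι → ℕ) (lam : ι → ℕ) (x : ∀ i, F i)
    (y : ∀ i, F i →ₐ[k] E) (Q : Place L E) (v : ∀ i, Place k (F i)) (e : ι → ℕ)
    (hl : ∀ i ∈ T, Lies (y i) Q (v i) (e i)) (D : Derivation ℤ E E) 
    (hDk : ∀ c : k, D (algebraMap k E c) = 0) (hPL : PresL L D) 
    (hDne : ∀ i ∈ T, D (y i (x i)) ≠ 0) (C r : ℕ)
    (hcase : (DGe Q D 0 ∧ ∀ z, Q.Ge 1 z → Q.Ge 1 (D z)) ∨ 
      (DGe Q D (1 - (C + r : ℤ)) ∧ 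
        (∀ i ∈ T, i ∉ S → r ≤ e i ∨ (e i = 0 ∧ ∃ c : L, Q.Ge r (y i (x i) - algebraMap L E c))) ∧
        r * ∑ i ∈ S, μ i ≤ ∑ i ∈ S, (μ i + lam i) * e i)) :
    ∑ i ∈ T, (e i : ℤ) * (μ i * dord (x i) (v i) - lam i) - (∑ i ∈ T, (μ i : ℤ)) * C ≤ 
      ∑ i ∈ T, (μ i : ℤ) * Q.ord (D (y i (x i))) := by
  classical
  rcases hcase with ⟨h1, h2⟩ | ⟨h1, h2, h3⟩
  · rw [Finset.sum_mul, ← Finset.sum_sub_distrib]
    apply Finset.sum_le_sum
    intro i hi
    have h3 := local_static (hl i hi) hDk h1 h2 (x i)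
    rw [Q.ge_iff (hDne i hi)] at h3
    have h4 : (0 : ℤ) ≤ μ i := Int.natCast_nonneg _
    have h5 : (0 : ℤ) ≤ lam i := Int.natCast_nonneg _
    have h6 : (0 : ℤ) ≤ e i := Int.natCast_nonneg _
    have h7 : (0 : ℤ) ≤ C := Int.natCast_nonneg _
    nlinarith [mul_le_mul_of_nonneg_left h3 h4, mul_nonneg h4 h6, mul_nonneg h6 h5, mul_nonneg h4 h7]
  · -- bounds for each index
    have hgood : ∀ i ∈ T, i ∉ S → (e i : ℤ) * dord (x i) (v i) - C ≤ Q.ord (D (y i (x i))) := by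
      intro i hi hiS
      rcases h2 i hi hiS with h4 | ⟨h4, c, hc⟩
      · have h5 := local_nonstatic (hl i hi) hDk h1 (x i)
        rw [Q.ge_iff (hDne i hi)] at h5
        have : (r : ℤ) ≤ e i := by exact_mod_cast h4
        linarith
      · have h5 := local_trivial hPL h1 hc
        rw [Q.ge_iff (hDne i hi)] at h5
        rw [h4]
        push_cast
        rw [show min 0 ((r : ℤ) - (C + r)) = - C by omega] at h5
        linarith
    have hbad : ∀ i ∈ T, (e i : ℤ) * dord (x i) (v i) - C + (e i - r) ≤ Q.ord (D (y i (x i))) := by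
      intro i hi
      have h5 := local_nonstatic (hl i hi) hDk h1 (x i)
      rw [Q.ge_iff (hDne i hi)] at h5
      linarith
    have hsplit : ∀ g : ι → ℤ, ∑ i ∈ T, g i = ∑ i ∈ S, g i + ∑ i ∈ T \ S, g i := by
      intro g
      rw [add_comm, Finset.sum_sdiff hST]
    rw [Finset.sum_mul, ← Finset.sum_sub_distrib, hsplit, hsplit (fun i => (μ i : ℤ) * Q.ord (D (y i (x i))))]
    have hG : ∑ i ∈ T \ S, ((e i : ℤ) * (μ i * dord (x i) (v i) - lam i) - μ i * C) ≤ 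
        ∑ i ∈ T \ S, (μ i : ℤ) * Q.ord (D (y i (x i))) := by
      apply Finset.sum_le_sum
      intro i hi
      rw [Finset.mem_sdiff] at hi
      have h4 := mul_le_mul_of_nonneg_left (hgood i hi.1 hi.2) (Int.natCast_nonneg (μ i))
      have h5 : (0 : ℤ) ≤ lam i := Int.natCast_nonneg _
      have h6 : (0 : ℤ) ≤ e i := Int.natCast_nonneg _
      nlinarith [mul_nonneg h6 h5]
    have hB : ∑ i ∈ S, ((e i : ℤ) * (μ i * dord (x i) (v i) - lam i) - μ i * C) ≤ 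
        ∑ i ∈ S, (μ i : ℤ) * Q.ord (D (y i (x i))) := by
      have h4 : ∑ i ∈ S, ((e i : ℤ) * (μ i * dord (x i) (v i)) - μ i * C + (μ i * e i - r * μ i)) ≤ 
          ∑ i ∈ S, (μ i : ℤ) * Q.ord (D (y i (x i))) := by
        apply Finset.sum_le_sum
        intro i hi
        have h5 := mul_le_mul_of_nonneg_left (hbad i (hST hi)) (Int.natCast_nonneg (μ i))
        linarith
      have h5 : (r : ℤ) * ∑ i ∈ S, (μ i : ℤ) ≤ ∑ i ∈ S, ((μ i : ℤ) + lam i) * e i := by exact_mod_cast h3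
      refine le_trans ?_ h4
      rw [Finset.mul_sum] at h5
      have h6 : ∑ i ∈ S, ((e i : ℤ) * (μ i * dord (x i) (v i)) - μ i * C + (μ i * e i - r * μ i)) - 
          ∑ i ∈ S, ((e i : ℤ) * (μ i * dord (x i) (v i) - lam i) - μ i * C) = 
          ∑ i ∈ S, ((μ i : ℤ) + lam i) * e i - ∑ i ∈ S, (r : ℤ) * μ i := by
        rw [← Finset.sum_sub_distrib, ← Finset.sum_sub_distrib]
        apply Finset.sum_congr rfl
        intro i _
        ring
      linarith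
    linarith

variable [IsAlgClosed L] [CharZero L] [FF L E]

theorem count_main (T : Finset ι) (μ : ι → ℕ) (lam : ∀ i, Place k (F i) → ℕ) (x h f : ∀ i, F i)
    (y : ∀ i, F i →ₐ[k] E) (N : ℕ)
    (hN : ∀ i ∈ T, ∀ v : Place k (F i), - v.ord (f i) + max 0 (- v.ord (h i)) ≤ 
      N * (μ i * dord (x i) v - lam i v))
    (v : ∀ (_ : Place L E) i, Place k (F i)) (e : ∀ (_ : Place L E) (_ : ι), ℕ) 
    (hl : ∀ Q, ∀ i ∈ T, Lies (y i) Q (v Q i) (e Q i)) (D : Derivation ℤ E E) 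
    (C : Place L E → ℕ) (Ctot : ℕ) (hC : ∀ s : Finset (Place L E), ∑ Q ∈ s, C Q ≤ Ctot)
    (hLT : ∀ Q : Place L E, ∑ i ∈ T, (e Q i : ℤ) * (μ i * dord (x i) (v Q i) - lam i (v Q i)) - 
      (∑ i ∈ T, (μ i : ℤ)) * C Q ≤ ∑ i ∈ T, (μ i : ℤ) * Q.ord (D (y i (x i)))) :
    ∑ i ∈ T, ht L (y i (h i)) ≤ N * (∑ i ∈ T, μ i) * Ctot := by
  classical
  have hex : ∀ w : E, ∃ s : Finset (Place L E), ∀ P, P ∈ s ↔ P.ord w ≠ 0 := 
    fun w => (finite_support (L := L) w).exists_finset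
  choose S hS using hex
  set s := T.biUnion (fun i => S (D (y i (x i))) ∪ S (y i (f i)) ∪ S (y i (h i))) with hs
  have hsub : ∀ i ∈ T, ∀ w, (w = D (y i (x i)) ∨ w = y i (f i) ∨ w = y i (h i)) → 
      ∀ P ∉ s, P.ord w = 0 := by
    intro i hi w hw P hP
    by_contra h0
    apply hP
    rw [hs, Finset.mem_biUnion]
    refine ⟨i, hi, ?_⟩
    simp only [Finset.mem_union]
    rcases hw with rfl | rfl | rfl
    · left; left; exact (hS _ P).2 h0
    · left; right; exact (hS _ P).2 h0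
    · right; exact (hS _ P).2 h0
  -- sum of the local inequalities
  have h1 : ∑ Q ∈ s, ∑ i ∈ T, (μ i : ℤ) * Q.ord (D (y i (x i))) = 0 := by
    rw [Finset.sum_comm]
    apply Finset.sum_eq_zero
    intro i hi
    rw [← Finset.mul_sum, sum_ord_eq_zero _ s (hsub i hi _ (Or.inl rfl)), mul_zero]
  have h2 : ∑ Q ∈ s, ∑ i ∈ T, (e Q i : ℤ) * (μ i * dord (x i) (v Q i) - lam i (v Q i)) ≤ 
      (∑ i ∈ T, (μ i : ℤ)) * Ctot := by
    have h3 := Finset.sum_le_sum (fun Q (_ : Q ∈ s) => hLT Q)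
    rw [h1, Finset.sum_sub_distrib, ← Finset.mul_sum] at h3
    have h4 : (∑ Q ∈ s, (C Q : ℤ)) ≤ Ctot := by exact_mod_cast hC s
    have h5 : (0 : ℤ) ≤ ∑ i ∈ T, (μ i : ℤ) := Finset.sum_nonneg (fun i _ => Int.natCast_nonneg _)
    nlinarith [mul_le_mul_of_nonneg_left h4 h5]
  -- lower bound through f and h
  have h3 : ∀ Q : Place L E, ∀ i ∈ T, - Q.ord (y i (f i)) + max 0 (- Q.ord (y i (h i))) ≤ 
      N * ((e Q i : ℤ) * (μ i * dord (x i) (v Q i) - lam i (v Q i))) := by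
    intro Q i hi
    rw [hl Q i hi, hl Q i hi]
    have h4 := mul_le_mul_of_nonneg_left (hN i hi (v Q i)) (Int.natCast_nonneg (e Q i))
    have h5 : max 0 (-((e Q i : ℤ) * (v Q i).ord (h i))) = (e Q i : ℤ) * max 0 (-(v Q i).ord (h i)) := by
      rw [mul_max_of_nonneg _ _ (Int.natCast_nonneg (e Q i)), mul_zero, mul_neg]
    rw [h5]
    linarith
  have h4 : ∑ i ∈ T, (ht L (y i (h i)) : ℤ) ≤ 
      N * ∑ Q ∈ s, ∑ i ∈ T, (e Q i : ℤ) * (μ i * dord (x i) (v Q i) - lam i (v Q i)) := by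
    rw [Finset.mul_sum]
    calc ∑ i ∈ T, (ht L (y i (h i)) : ℤ) 
        = ∑ i ∈ T, ∑ Q ∈ s, (- Q.ord (y i (f i)) + max 0 (- Q.ord (y i (h i)))) := by
          apply Finset.sum_congr rfl
          intro i hi
          rw [Finset.sum_add_distrib, Finset.sum_neg_distrib, 
            sum_ord_eq_zero _ s (hsub i hi _ (Or.inr (Or.inl rfl))),
            sum_poles_eq _ s (hsub i hi _ (Or.inr (Or.inr rfl)))]
          simp
      _ = ∑ Q ∈ s, ∑ i ∈ T, (- Q.ord (y i (f i)) + max 0 (- Q.ord (y i (h i)))) := Finset.sum_comm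
      _ ≤ ∑ Q ∈ s, N * ∑ i ∈ T, (e Q i : ℤ) * (μ i * dord (x i) (v Q i) - lam i (v Q i)) := by
          apply Finset.sum_le_sum
          intro Q _
          rw [Finset.mul_sum]
          exact Finset.sum_le_sum (fun i hi => h3 Q i hi)
  have h5 : ∑ i ∈ T, (ht L (y i (h i)) : ℤ) ≤ N * ((∑ i ∈ T, (μ i : ℤ)) * Ctot) :=
    h4.trans (mul_le_mul_of_nonneg_left h2 (Int.natCast_nonneg _))
  have h6 : ((∑ i ∈ T, ht L (y i (h i)) : ℕ) : ℤ) ≤ ((N * (∑ i ∈ T, μ i) * Ctot : ℕ) : ℤ) := by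
    push_cast
    rw [mul_assoc]
    exact h5
  exact_mod_cast h6

end Count

end PGH
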