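import Mathlib
import Pool.Agent.Helper1_PGH.Count

open WithZero IntermediateField

namespace PGH

section Core

variable {k L E E' : Type*} [Field k] [Field L] [Field E] [Field E'] [Algebra k L] 
  [Algebra k E'] [Algebra L E] [Algebra L E'] [Algebra E E'] 
  [IsScalarTower k L E'] [IsScalarTower L E E']
  [IsAlgClosed k] [CharZero k] [IsAlgClosed L] [CharZero L] [FF L E]
  [FiniteDimensional E E'] 

/-- the place of `E` below a place of `E'` -/
noncomputable def placeBelow (E : Type*) [Field E] [Algebra L E] [Algebra E E'] 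
    [IsScalarTower L E E'] [FF L E] (Q : Place L E') : Place L E :=
  (exists_lies (IsScalarTower.toAlgHom L E E') Q).choose

theorem placeBelow_lies (Q : Place L E') : 
    ∃ e, 0 < e ∧ Lies (IsScalarTower.toAlgHom L E E') Q (placeBelow E Q) e := by
  have : FF L E' := FF.extension L E E'
  obtain ⟨e, he⟩ := (exists_lies (IsScalarTower.toAlgHom L E E') Q).choose_spec
  exact ⟨e, he.pos, he⟩

/-- total weight upstairs -/
theorem sum_weight_le (c : Place L E → ℕ) (sc : Finset (Place L E)) (hsc : ∀ P ∉ sc, c P = 0)
    (w : Place L E → E) (hw : ∀ P : Place L E, P.ord (w P) < 0) (s : Finset (Place L E')) :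
    ∑ Q ∈ s, c (placeBelow E Q) ≤ (∑ P ∈ sc, c P * ht L (w P)) * Module.finrank E E' := by
  classical
  have hFF : FF L E' := FF.extension L E E'
  have h1 : ∀ Q : Place L E', (c (placeBelow E Q) : ℤ) ≤ 
      ∑ P ∈ sc, (c P : ℤ) * max 0 (- Q.ord (algebraMap E E' (w P))) := by
    intro Q
    by_cases hQ : placeBelow E Q ∈ sc
    · obtain ⟨e, he, hl⟩ := placeBelow_lies (E := E) Q
      have h2 : (1 : ℤ) ≤ max 0 (- Q.ord (algebraMap E E' (w (placeBelow E Q)))) := by
        have h3 := hl (w (placeBelow E Q))
        change Q.ord (algebraMap E E' (w (placeBelow E Q))) = _ at h3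
        rw [h3]
        have h4 := hw (placeBelow E Q)
        have h5 : (1 : ℤ) ≤ e := by exact_mod_cast he
        refine le_trans ?_ (le_max_right _ _)
        nlinarith
      calc (c (placeBelow E Q) : ℤ) ≤ (c (placeBelow E Q) : ℤ) * 
            max 0 (- Q.ord (algebraMap E E' (w (placeBelow E Q)))) := by
            nlinarith [Int.natCast_nonneg (c (placeBelow E Q))]
        _ ≤ _ := Finset.single_le_sum 
            (f := fun P => (c P : ℤ) * max 0 (- Q.ord (algebraMap E E' (w P))))
            (fun P _ => mul_nonneg (Int.natCast_nonneg _) (le_max_left _ _)) hQ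
    · rw [hsc _ hQ]
      exact Finset.sum_nonneg (fun P _ => mul_nonneg (Int.natCast_nonneg _) (le_max_left _ _))
  have h2 : (∑ Q ∈ s, (c (placeBelow E Q) : ℤ)) ≤ 
      (∑ P ∈ sc, (c P : ℤ) * ht L (w P)) * Module.finrank E E' := by
    calc (∑ Q ∈ s, (c (placeBelow E Q) : ℤ)) ≤ 
          ∑ Q ∈ s, ∑ P ∈ sc, (c P : ℤ) * max 0 (- Q.ord (algebraMap E E' (w P))) := 
          Finset.sum_le_sum (fun Q _ => h1 Q)
      _ = ∑ P ∈ sc, (c P : ℤ) * ∑ Q ∈ s, max 0 (- Q.ord (algebraMap E E' (w P))) := by
          rw [Finset.sum_comm]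
          apply Finset.sum_congr rfl
          intro P _
          rw [Finset.mul_sum]
      _ ≤ ∑ P ∈ sc, (c P : ℤ) * (ht L (algebraMap E E' (w P)) : ℤ) := by
          apply Finset.sum_le_sum
          intro P _
          exact mul_le_mul_of_nonneg_left (sum_poles_le _ _) (Int.natCast_nonneg _)
      _ = (∑ P ∈ sc, (c P : ℤ) * ht L (w P)) * Module.finrank E E' := by
          rw [Finset.sum_mul]
          apply Finset.sum_congr rfl
          intro P _
          rw [ht_extension L E E']
          push_cast; ring
  exact_mod_cast h2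

variable {ι : Type*} [Fintype ι] {F : ι → Type*} [∀ i, Field (F i)] [∀ i, Algebra k (F i)] 
  [∀ i, FF k (F i)] [IsGalois E E']

open Classical in
theorem core_count (y : ∀ i, F i →ₐ[k] E') (act : (E' ≃ₐ[E] E') → ∀ i, F i ≃ₐ[k] F i)
    (hact : ∀ σ i f, σ (y i f) = y i (act σ i f)) (μ : ι → ℕ) (lam : ∀ i, Place k (F i) → ℕ)
    (x h f : ∀ i, F i) (hx : ∀ i, Transcendental k (x i)) (N : ℕ)
    (hN : ∀ i, ∀ v : Place k (F i), - v.ord (f i) + max 0 (- v.ord (h i)) ≤ 
      N * (μ i * dord (x i) v - lam i v))
    (hcrit : ∀ (σ : E' ≃ₐ[E] E') (ζ : k), IsPrimitiveRoot ζ (orderOf σ) → 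
      ∀ (v : ∀ i, Place k (F i)) (e : ι → ℕ), 
      (∀ i, (∃ a, act σ i a ≠ a) → 0 < e i ∧ (∀ a, (v i).ord (act σ i a) = (v i).ord a) ∧
        ∀ t, (v i).ord t = 1 → (v i).Ge 1 (act σ i t / t - algebraMap k (F i) (ζ ^ e i))) →
      orderOf σ * ∑ i ∈ Finset.univ.filter (fun i => ∃ a, act σ i a ≠ a), μ i ≤ 
        ∑ i ∈ Finset.univ.filter (fun i => ∃ a, act σ i a ≠ a), (μ i + lam i (v i)) * e i)
    (D : Derivation ℤ E E) (D' : Derivation ℤ E' E') 
    (hDD' : ∀ a, D' (algebraMap E E' a) = algebraMap E E' (D a)) (hPL : PresL L D)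
    (hDk : ∀ c : k, D' (algebraMap k E' c) = 0)
    (c : Place L E → ℕ) (hc : ∀ P, DGe P D (-(c P : ℤ))) (K : ℕ) 
    (hK : ∀ s : Finset (Place L E'), ∑ Q ∈ s, c (placeBelow E Q) ≤ K) :
    ∑ i ∈ Finset.univ.filter (fun i => D' (y i (x i)) ≠ 0), ht L (y i (h i)) ≤ 
      N * (∑ i ∈ Finset.univ.filter (fun i => D' (y i (x i)) ≠ 0), μ i) * 
        (Module.finrank E E' * K) := by
  have hFF : FF L E' := FF.extension L E E'
  have hPL' : PresL L D' := by
    intro a
    obtain ⟨d, hd⟩ := hPL a
    refine ⟨d, ?_⟩
    rw [IsScalarTower.algebraMap_apply L E E', hDD', hd, ← IsScalarTower.algebraMap_apply]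
  -- data at each place
  have hex : ∀ (Q : Place L E') (i : ι), ∃ (v : Place k (F i)) (e : ℕ), Lies (y i) Q v e := 
    fun Q i => exists_lies (y i) Q
  choose v e hl using hex
  set T := Finset.univ.filter (fun i => D' (y i (x i)) ≠ 0) with hT
  refine count_main T μ lam x h f y N (fun i _ v => hN i v) v e (fun Q i _ => hl Q i) D'
    (fun Q => Module.finrank E E' * c (placeBelow E Q)) _ ?_ ?_
  · intro s
    rw [← Finset.mul_sum]
    exact Nat.mul_le_mul_left _ (hK s)
  · intro Q
    obtain ⟨σ, ζ, hζ, hfix, hchar, hram⟩ := exists_inertia E Q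
    obtain ⟨e₀, he₀, hl₀⟩ := placeBelow_lies (E := E) Q
    have hr := hram _ _ hl₀
    set r := orderOf σ with hrdef
    have hrpos : 0 < r := orderOf_pos σ
    have hrle : r ≤ Module.finrank E E' := by
      rw [← IsGalois.card_aut_eq_finrank]
      exact Nat.le_of_dvd Nat.card_pos (orderOf_dvd_natCard σ)
    -- ζ comes from k
    obtain ⟨ζ₀, hζ₀⟩ : ∃ ζ₀ : k, algebraMap k L ζ₀ = ζ := by
      apply mem_range_of_isAlgebraic
      refine ⟨Polynomial.X ^ r - Polynomial.C 1, Polynomial.X_pow_sub_C_ne_zero hrpos 1, ?_⟩
      simp [hζ.pow_eq_one]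
    have hζ₀' : IsPrimitiveRoot ζ₀ r := by
      rw [← hζ₀] at hζ
      exact hζ.of_map_of_injective (algebraMap k L).injective
    -- bounded poles at Q
    obtain ⟨t, ht0, ht⟩ := (placeBelow E Q).exists_unif
    obtain ⟨cb, sb, -, hbound⟩ := bounded_poles (L := L) D' hPL'
    have hQt : Q.ord (algebraMap E E' t) = e₀ := by
      have := hl₀ t
      rw [ht, mul_one] at this
      exact this
    have hQt0 : algebraMap E E' t ≠ 0 := by simpa using ht0
    have hQDt : Q.Ge (-((e₀ : ℤ) * c (placeBelow E Q))) (D' (algebraMap E E' t)) := by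
      rw [hDD']
      have h1 := hc (placeBelow E Q) t (((placeBelow E Q).ge_iff ht0).2 (by omega))
      have h2 := hl₀.ge h1
      refine Place.Ge.mono h2 ?_
      linarith
    obtain ⟨htame, -⟩ := tame_descent hPL' (hbound Q) hQt0 hQt (by omega) hQDt
    have hDGe : DGe Q D' (1 - ((Module.finrank E E' * c (placeBelow E Q) : ℕ) + r : ℤ)) := by
      refine htame.mono ?_
      have h1 : ((e₀ : ℤ)) ≤ r := by exact_mod_cast hr
      have h2 : ((r : ℤ)) ≤ Module.finrank E E' := by exact_mod_cast hrle
      have h3 : (0 : ℤ) ≤ c (placeBelow E Q) := Int.natCast_nonneg _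
      have h4 : (e₀ : ℤ) * c (placeBelow E Q) ≤ Module.finrank E E' * c (placeBelow E Q) := by
        apply mul_le_mul_of_nonneg_right _ h3
        linarith
      have h5 : (0 : ℤ) ≤ e₀ * c (placeBelow E Q) := by positivity
      push_cast
      rw [le_min_iff]
      constructor
      · have : (1 : ℤ) ≤ r := by exact_mod_cast hrpos
        linarith
      · linarith
    -- trivial restriction means trivial action
    have htriv : ∀ i, e Q i = 0 → ∀ a, act σ i a = a := by
      intro i hi a
      by_contra hne
      have h0 : ∀ b, Q.ord (y i b) = 0 := by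
        intro b; rw [hl Q i b, hi]; simp
      have h1 : Q.Ge 0 (y i a) := by
        by_cases ha : y i a = 0
        · rw [ha]; exact Q.ge_zero _
        · exact (Q.ge_iff ha).2 (h0 a).ge
      have h2 := hfix.sub h1
      rw [toL_apply, hact, ← map_sub, Q.ge_iff (by rw [map_ne_zero, sub_ne_zero]; exact hne), h0] at h2
      omega
    apply local_ineq T (T.filter (fun i => ∃ a, act σ i a ≠ a)) (Finset.filter_subset _ _) μ 
      (fun i => lam i (v Q i)) x y Q (v Q) (e Q) (fun i _ => hl Q i) D' hDk hPL' 
      (fun i hi => by rw [hT, Finset.mem_filter] at hi; exact hi.2) 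
      (Module.finrank E E' * c (placeBelow E Q)) r
    by_cases hstat : ∃ i, D' (y i (x i)) = 0 ∧ ∃ a, act σ i a ≠ a
    · -- static
      left
      obtain ⟨i, hi, a, ha⟩ := hstat
      have he : 0 < e Q i := by
        by_contra h0
        exact ha (htriv i (by omega) a)
      obtain ⟨t, ht0, ht⟩ := (v Q i).exists_unif
      have h1 : D' (y i t) = 0 := by
        have hal := FF.isAlgebraic (hx i)
        exact deriv_zero_of_isAlgebraic_adjoin (y i) D' hDk hi (hal.isAlgebraic t)
      have h2 : Q.ord (y i t) = e Q i := by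
        have := hl Q i t
        rwa [ht, mul_one] at this
      obtain ⟨h3, h4⟩ := tame_descent (B := e Q i) hPL' (hbound Q) (by simpa using ht0) h2 (by omega) 
        (by rw [h1]; exact Q.ge_zero _)
      refine ⟨h3.mono (by omega), fun z hz => (h4 z hz).mono (by omega)⟩
    · right
      push Not at hstat
      refine ⟨hDGe, ?_, ?_⟩
      · intro i hiT hiS
        have hact1 : ∀ a, act σ i a = a := by
          intro a
          by_contra hne
          apply hiS
          rw [Finset.mem_filter]
          exact ⟨hiT, a, hne⟩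
        have hfixy : ∀ a, σ (y i a) = y i a := by
          intro a; rw [hact, hact1]
        rcases Nat.eq_zero_or_pos (e Q i) with he | he
        · right
          refine ⟨he, ?_⟩
          have h0 : Q.ord (y i (x i)) = 0 := by rw [hl Q i, he]; simp
          have hyx0 : y i (x i) ≠ 0 := by
            rw [map_ne_zero]; intro h0; have := hx i; rw [h0] at this; exact this isAlgebraic_zero
          obtain ⟨c, hc⟩ := Q.exists_res ((Q.ge_iff hyx0).2 h0.ge)
          refine ⟨c, ?_⟩
          by_cases hw : y i (x i) - algebraMap L E' c = 0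
          · rw [hw]; exact Q.ge_zero _
          · have h1 := hchar _ hw
            have hσw : σ (y i (x i) - algebraMap L E' c) = y i (x i) - algebraMap L E' c := by
              rw [map_sub, hfixy, IsScalarTower.algebraMap_apply L E E', σ.commutes]
            rw [hσw, div_self hw, ← map_one (algebraMap L E'), ← map_sub] at h1
            have h2 : (1 : L) - ζ ^ (Q.ord (y i (x i) - algebraMap L E' c)) = 0 := by
              by_contra hne
              exact Q.not_ge_one_const hne h1
            rw [Q.ge_iff hw] at hc ⊢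
            have h3 : ζ ^ (Q.ord (y i (x i) - algebraMap L E' c)) = 1 := (sub_eq_zero.1 h2).symm
            rw [hζ.zpow_eq_one_iff_dvd] at h3
            exact Int.le_of_dvd (by omega) h3
        · left
          obtain ⟨t, ht0, ht⟩ := (v Q i).exists_unif
          have hyt0 : y i t ≠ 0 := by simpa using ht0
          have h1 := hchar _ hyt0
          have h2 : Q.ord (y i t) = e Q i := by
            have := hl Q i t
            rwa [ht, mul_one] at this
          rw [hfixy, div_self hyt0, ← map_one (algebraMap L E'), ← map_sub, h2] at h1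
          have h3 : (1 : L) - ζ ^ ((e Q i : ℤ)) = 0 := by
            by_contra hne
            exact Q.not_ge_one_const hne h1
          have h4 : ζ ^ ((e Q i : ℤ)) = 1 := (sub_eq_zero.1 h3).symm
          rw [zpow_natCast, hζ.pow_eq_one_iff_dvd] at h4
          exact Nat.le_of_dvd he h4
      · have hS : T.filter (fun i => ∃ a, act σ i a ≠ a) = 
            Finset.univ.filter (fun i => ∃ a, act σ i a ≠ a) := by
          ext i
          simp only [Finset.mem_filter, Finset.mem_univ, true_and, hT]
          constructor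
          · exact fun h => h.2
          · intro h
            refine ⟨?_, h⟩
            intro h0
            obtain ⟨a, ha⟩ := h
            exact ha (hstat i h0 a)
        rw [hS]
        apply hcrit σ ζ₀ hζ₀' (v Q) (e Q)
        intro i ⟨a, ha⟩
        have he : 0 < e Q i := by
          by_contra h0
          exact ha (htriv i (by omega) a)
        refine ⟨he, ?_, ?_⟩
        · intro b
          have h1 := hfix (y i b)
          rw [toL_apply, hact, hl Q i, hl Q i] at h1
          exact mul_left_cancel₀ (by exact_mod_cast he.ne') h1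
        · intro t ht
          have ht0 : t ≠ 0 := by rintro rfl; simp at ht
          have hyt0 : y i t ≠ 0 := by simpa using ht0
          have h1 := hchar _ hyt0
          have h2 : Q.ord (y i t) = e Q i := by
            have := hl Q i t
            rwa [ht, mul_one] at this
          rw [h2, zpow_natCast, hact, ← map_div₀, ← hζ₀, ← map_pow, ← IsScalarTower.algebraMap_apply,
            ← (y i).commutes, ← map_sub] at h1
          set w := act σ i t / t - algebraMap k (F i) (ζ₀ ^ e Q i) with hw
          by_cases hw0 : w = 0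
          · rw [hw0]; exact (v Q i).ge_zero _
          · rw [Q.ge_iff (by simpa using hw0), hl Q i] at h1
            rw [(v Q i).ge_iff hw0]
            by_contra h3
            push Not at h3
            have : (e Q i : ℤ) * (v Q i).ord w ≤ 0 := by
              apply mul_nonpos_of_nonneg_of_nonpos (Int.natCast_nonneg _); omega
            omega

end Core

end PGH
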