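import Mathlib
import Pool.Agent.Helper1_PGH.Core

open WithZero IntermediateField
open scoped TensorProduct IntermediateField.algebraAdjoinAdjoin

namespace PGH

section Horiz

variable {k K L E : Type*} [Field k] [Field K] [Field L] [Field E] [Algebra k K] [Algebra k L] 
  [Algebra k E] [Algebra K E] [Algebra L E] [IsScalarTower k K E] [IsScalarTower k L E]

/-- The multiplication map `K ⊗ L → E`. -/
noncomputable def mu (k K L E : Type*) [Field k] [Field K] [Field L] [Field E] [Algebra k K] [Algebra k L] 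
    [Algebra k E] [Algebra K E] [Algebra L E] [IsScalarTower k K E] [IsScalarTower k L E] :
    K ⊗[k] L →ₐ[k] E :=
  Algebra.TensorProduct.productMap (IsScalarTower.toAlgHom k K E) (IsScalarTower.toAlgHom k L E)

theorem mu_tmul (κ : K) (l : L) : mu k K L E (κ ⊗ₜ l) = algebraMap K E κ * algebraMap L E l := by
  simp [mu]

theorem exists_repr {I : Type*} (b : Module.Basis I k L) (a : K ⊗[k] L) :
    ∃ f : I →₀ K, a = f.sum (fun i κ => κ ⊗ₜ[k] b i) := by
  refine ⟨(b.baseChange K).repr a, ?_⟩
  conv_lhs => rw [← (b.baseChange K).linearCombination_repr a]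
  rw [Finsupp.linearCombination_apply]
  apply Finsupp.sum_congr
  intro i _
  rw [Module.Basis.baseChange_apply, TensorProduct.smul_tmul', smul_eq_mul, mul_one]

variable {D : Derivation ℤ E E}

theorem deriv_mu_sum (hK : ∀ κ : K, D (algebraMap K E κ) = 0) {I : Type*} 
    (b : I → L) (f : I →₀ K) : 
    D (mu k K L E (f.sum (fun i κ => κ ⊗ₜ[k] b i))) = 
      f.sum (fun i κ => algebraMap K E κ * D (algebraMap L E (b i))) := by
  rw [Finsupp.sum, map_sum, map_sum, Finsupp.sum]
  apply Finset.sum_congr rfl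
  intro i _
  rw [mu_tmul, D.leibniz, hK, smul_zero, add_zero, smul_eq_mul]

variable [IsAlgClosed k] [CharZero k] [FF k K]

/-- Case A: the place is nontrivial on `K`. -/
theorem gauss (hK : ∀ κ : K, D (algebraMap K E κ) = 0) (hPL : PresL L D) 
    {P : Place L E} {v : Place k K} {e : ℕ} (he : 0 < e)
    (hl : Lies (IsScalarTower.toAlgHom k K E) P v e) (a : K ⊗[k] L) (ha : mu k K L E a ≠ 0) :
    ∃ (κ₀ : K) (z : E), κ₀ ≠ 0 ∧ mu k K L E a = algebraMap K E κ₀ * z ∧ z ≠ 0 ∧ P.ord z = 0 ∧ 
      P.Ge 0 (D z) := by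
  classical
  let b := Module.Basis.ofVectorSpace k L
  obtain ⟨f, rfl⟩ := exists_repr b a
  have hne : f.support.Nonempty := by
    rw [Finset.nonempty_iff_ne_empty]
    intro h0
    rw [Finsupp.support_eq_empty] at h0
    apply ha; rw [h0]; simp
  obtain ⟨i₀, hi₀, hmin⟩ := f.support.exists_min_image (fun i => v.ord (f i)) hne
  have hκ₀ : f i₀ ≠ 0 := Finsupp.mem_support_iff.1 hi₀
  -- normalised coefficients
  set g : _ → K := fun i => f i / f i₀ with hg
  have hg0 : ∀ i, v.Ge 0 (g i) := by
    intro i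
    by_cases hi : f i = 0
    · rw [hg]; simp only [hi, zero_div]; exact v.ge_zero _
    · rw [hg, v.ge_iff (div_ne_zero hi hκ₀), v.ord_div hi hκ₀]
      have := hmin i (Finsupp.mem_support_iff.2 hi)
      omega
  have hg1 : g i₀ = 1 := div_self hκ₀
  set z : E := ∑ i ∈ f.support, algebraMap K E (g i) * algebraMap L E (b i) with hz
  have hmul : mu k K L E (f.sum (fun i κ => κ ⊗ₜ[k] b i)) = algebraMap K E (f i₀) * z := by
    rw [Finsupp.sum, map_sum, hz, Finset.mul_sum]
    apply Finset.sum_congr rfl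
    intro i _
    rw [mu_tmul, hg, ← mul_assoc, ← map_mul]
    congr 2
    field_simp
  have hz0 : z ≠ 0 := by
    rintro h0; apply ha; rw [hmul, h0, mul_zero]
  have hge : ∀ (κ : K) (n : ℤ), v.Ge n κ → P.Ge (e * n) (algebraMap K E κ) := 
    fun κ n h => hl.ge h
  -- residue of z
  set l : L := ∑ i ∈ f.support, algebraMap k L (v.res (g i)) * b i with hldef
  have hzl : P.Ge 1 (z - algebraMap L E l) := by
    rw [hz, hldef, map_sum, ← Finset.sum_sub_distrib]
    apply Place.Ge.sum
    intro i _
    rw [map_mul, ← sub_mul]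
    have h1 : P.Ge 1 (algebraMap K E (g i) - algebraMap L E (algebraMap k L (v.res (g i)))) := by
      have h2 := hge _ _ (v.res_spec (hg0 i))
      rw [map_sub, ← IsScalarTower.algebraMap_apply k K E] at h2
      rw [← IsScalarTower.algebraMap_apply k L E]
      exact h2.mono (by omega)
    exact h1.mul' (P.ge_const _) (by omega)
  have hl0 : l ≠ 0 := by
    intro h0
    have h1 : ∑ i ∈ f.support, (v.res (g i)) • b i = 0 := by
      rw [← h0, hldef]
      apply Finset.sum_congr rfl
      intro i _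
      rw [Algebra.smul_def]
    have h2 := (linearIndependent_iff'.1 b.linearIndependent) f.support (fun i => v.res (g i)) h1 i₀ hi₀
    have h3 : v.res (g i₀) = 1 := by
      apply v.res_eq (hg0 i₀)
      rw [hg1, map_one, sub_self]; exact v.ge_zero _
    rw [h3] at h2
    exact one_ne_zero h2
  have hzord : P.ord z = 0 := by
    have h1 := (P.ge_iff hz0).1 (P.ge_zero_of_res hzl)
    by_contra hne
    have h2 : P.Ge 1 z := (P.ge_iff hz0).2 (by omega)
    have h3 := h2.sub hzl
    rw [sub_sub_cancel] at h3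
    exact P.not_ge_one_const hl0 h3
  refine ⟨f i₀, z, hκ₀, hmul, hz0, hzord, ?_⟩
  rw [hz, map_sum]
  apply Place.Ge.sum
  intro i _
  rw [D.leibniz, hK, smul_zero, add_zero, smul_eq_mul]
  obtain ⟨d, hd⟩ := hPL (b i)
  rw [hd]
  have h1 := hge _ _ (hg0 i)
  exact h1.mul' (P.ge_const d) (by simp)

/-- Case A conclusion: the place is static. -/
theorem horiz_static (hK : ∀ κ : K, D (algebraMap K E κ) = 0) (hPL : PresL L D) 
    (hfrac : ∀ z : E, ∃ a b : K ⊗[k] L, mu k K L E b ≠ 0 ∧ z = mu k K L E a / mu k K L E b)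
    {P : Place L E} {v : Place k K} {e : ℕ} (he : 0 < e)
    (hl : Lies (IsScalarTower.toAlgHom k K E) P v e) (y : E) : P.Ge (P.ord y) (D y) := by
  by_cases hy0 : y = 0
  · rw [hy0, map_zero]; exact P.ge_zero _
  obtain ⟨a, b, hb, hab⟩ := hfrac y
  have ha : mu k K L E a ≠ 0 := by
    intro h0; apply hy0; rw [hab, h0, zero_div]
  obtain ⟨κ, z, hκ, hκz, hz0, hzord, hDz⟩ := gauss hK hPL he hl a ha
  obtain ⟨κ', z', hκ', hκz', hz0', hzord', hDz'⟩ := gauss hK hPL he hl b hb
  have hκE : algebraMap K E κ ≠ 0 := by simpa using hκ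
  have hκE' : algebraMap K E κ' ≠ 0 := by simpa using hκ'
  have hy : y = algebraMap K E (κ / κ') * (z * z'⁻¹) := by
    rw [hab, hκz, hκz', map_div₀]; field_simp
  have hord : P.ord y = P.ord (algebraMap K E (κ / κ')) := by
    rw [hy, P.ord_mul (by rw [map_ne_zero]; exact div_ne_zero hκ hκ') (mul_ne_zero hz0 (inv_ne_zero hz0')),
      P.ord_mul hz0 (inv_ne_zero hz0'), P.ord_inv, hzord, hzord']; ring
  rw [hord, hy, D.leibniz, hK, smul_zero, add_zero, smul_eq_mul]
  refine P.ge_ord.mul' (n := 0) ?_ (by omega)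
  have hzi : P.Ge 0 z'⁻¹ := (P.ge_iff (inv_ne_zero hz0')).2 (by rw [P.ord_inv]; omega)
  have hzg : P.Ge 0 z := (P.ge_iff hz0).2 (by omega)
  rw [D.leibniz, D.leibniz_inv, smul_eq_mul, smul_eq_mul, smul_eq_mul]
  refine Place.Ge.add ?_ ?_
  · refine hzg.mul' (n := 0) ?_ (by omega)
    refine Place.Ge.mul' (m := 0) ?_ hDz' (by omega)
    have := (hzi.mul hzi).neg
    rw [← sq] at this
    simpa using this
  · exact hzi.mul' hDz (by omega)

/-- The ring of fractions `α/β` with `β` a unit at `P`. -/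
def Oo (k K : Type*) {L E : Type*} [Field k] [Field K] [Field L] [Field E] [Algebra k K] 
    [Algebra k L] [Algebra k E] [Algebra K E] [Algebra L E] [IsScalarTower k K E] 
    [IsScalarTower k L E] (P : Place L E) (z : E) : Prop := 
  ∃ a b : K ⊗[k] L, mu k K L E b ≠ 0 ∧ P.ord (mu k K L E b) = 0 ∧ z = mu k K L E a / mu k K L E b

section Oo

omit [IsAlgClosed k] [CharZero k] [FF k K]

variable {P : Place L E}

theorem Oo.mul {z w : E} (hz : Oo k K P z) (hw : Oo k K P w) : Oo k K P (z * w) := by
  obtain ⟨a, b, hb, hb1, rfl⟩ := hz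
  obtain ⟨c, d, hd, hd1, rfl⟩ := hw
  refine ⟨a * c, b * d, ?_, ?_, ?_⟩
  · rw [map_mul]; exact mul_ne_zero hb hd
  · rw [map_mul, P.ord_mul hb hd, hb1, hd1]; rfl
  · rw [map_mul, map_mul]; field_simp

theorem Oo.add {z w : E} (hz : Oo k K P z) (hw : Oo k K P w) : Oo k K P (z + w) := by
  obtain ⟨a, b, hb, hb1, rfl⟩ := hz
  obtain ⟨c, d, hd, hd1, rfl⟩ := hw
  refine ⟨a * d + c * b, b * d, ?_, ?_, ?_⟩
  · rw [map_mul]; exact mul_ne_zero hb hd
  · rw [map_mul, P.ord_mul hb hd, hb1, hd1]; rfl
  · rw [map_add, map_mul, map_mul, map_mul]; field_simp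

theorem Oo.of_mu (a : K ⊗[k] L) : Oo k K P (mu k K L E a) := 
  ⟨a, 1, by rw [map_one]; exact one_ne_zero, by rw [map_one]; exact P.ord_one, by rw [map_one, div_one]⟩

theorem Oo.of_K (κ : K) : Oo k K P (algebraMap K E κ) := by
  have := Oo.of_mu (P := P) (κ ⊗ₜ[k] (1 : L))
  rwa [mu_tmul, map_one, mul_one] at this

theorem Oo.of_L (l : L) : Oo k K P (algebraMap L E l) := by
  have := Oo.of_mu (P := P) ((1 : K) ⊗ₜ[k] l)
  rwa [mu_tmul, map_one, one_mul] at this

theorem Oo.neg {z : E} (hz : Oo k K P z) : Oo k K P (-z) := by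
  have := (Oo.of_L (k := k) (K := K) (P := P) (-1)).mul hz
  rwa [map_neg, map_one, neg_one_mul] at this

theorem Oo.sub {z w : E} (hz : Oo k K P z) (hw : Oo k K P w) : Oo k K P (z - w) := by
  rw [sub_eq_add_neg]; exact hz.add hw.neg

theorem Oo.sum {ι : Type*} {s : Finset ι} {f : ι → E} (h : ∀ i ∈ s, Oo k K P (f i)) : 
    Oo k K P (∑ i ∈ s, f i) := by
  classical
  induction s using Finset.induction_on with
  | empty => 
    rw [Finset.sum_empty, ← map_zero (algebraMap L E)]; exact Oo.of_L 0
  | insert a s ha ih =>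
    rw [Finset.sum_insert ha]
    exact (h a (Finset.mem_insert_self _ _)).add
      (ih fun i hi => h i (Finset.mem_insert_of_mem hi))

theorem Oo.pow {z : E} (hz : Oo k K P z) (n : ℕ) : Oo k K P (z ^ n) := by
  induction n with
  | zero => rw [pow_zero, ← map_one (algebraMap L E)]; exact Oo.of_L 1
  | succ n ih => rw [pow_succ]; exact ih.mul hz

theorem Oo.inv {z : E} (hz : Oo k K P z) (hz0 : z ≠ 0) (hz1 : P.ord z = 0) : Oo k K P z⁻¹ := by
  obtain ⟨a, b, hb, hb1, rfl⟩ := hz
  have ha : mu k K L E a ≠ 0 := by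
    intro h0; apply hz0; rw [h0, zero_div]
  refine ⟨b, a, ha, ?_, ?_⟩
  · rw [P.ord_div ha hb, hb1, sub_zero] at hz1; exact hz1
  · rw [inv_div]

end Oo

omit [IsAlgClosed k] [CharZero k] [FF k K] in
/-- A root of a nonzero polynomial is a simple root of some polynomial (characteristic zero). -/
theorem exists_simple_root {R F : Type*} [CommRing R] [IsDomain R] [Field F] [Algebra R F] 
    (hinj : Function.Injective (algebraMap R F)) [CharZero F] {κ : F} (h : IsAlgebraic R κ) : 
    ∃ p : Polynomial R, (p.map (algebraMap R F)).eval κ = 0 ∧ 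
      (p.map (algebraMap R F)).derivative.eval κ ≠ 0 := by
  obtain ⟨p, hp0, hp⟩ := h
  have hp' : (p.map (algebraMap R F)).eval κ = 0 := by
    rw [Polynomial.eval_map_algebraMap]; exact hp
  clear hp
  induction hn : p.natDegree using Nat.strong_induction_on generalizing p with
  | _ n ih =>
    by_cases h1 : (p.map (algebraMap R F)).derivative.eval κ = 0
    · have hdeg : 0 < p.natDegree := by
        rw [Nat.pos_iff_ne_zero]
        intro h0
        rw [Polynomial.natDegree_eq_zero] at h0
        obtain ⟨c, rfl⟩ := h0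
        rw [Polynomial.map_C, Polynomial.eval_C, map_eq_zero_iff _ hinj] at hp'
        rw [hp', map_zero] at hp0
        exact hp0 rfl
      have hR : CharZero R := by
        refine ⟨fun a b hab => ?_⟩
        have h3 := congrArg (algebraMap R F) hab
        simpa using h3
      have h2 : p.derivative ≠ 0 := by
        intro h0
        have := Polynomial.derivative_eq_zero.1 h0
        omega
      refine ih p.derivative.natDegree ?_ p.derivative h2 ?_ rfl
      · rw [← hn]; exact Polynomial.natDegree_derivative_lt hdeg.ne'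
      · rw [← Polynomial.derivative_map]; exact h1
    · exact ⟨p, hp', h1⟩

/-- Case B: the place is trivial on `K`. -/
theorem horiz_moving (hK : ∀ κ : K, D (algebraMap K E κ) = 0) (hPL : PresL L D) 
    [IsAlgClosed L] [CharZero L] [FF L E]
    (hfrac : ∀ z : E, ∃ a b : K ⊗[k] L, mu k K L E b ≠ 0 ∧ z = mu k K L E a / mu k K L E b)
    {P : Place L E} (htriv : ∀ κ : K, P.ord (algebraMap K E κ) = 0) : DGe P D 0 := by
  classical
  have hKge : ∀ κ : K, P.Ge 0 (algebraMap K E κ) := by
    intro κ
    exact P.ge_ord.mono (by rw [htriv])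
  obtain ⟨t, ht⟩ := FF.exists_transcendental (L := k) (E := K)
  let b := Module.Basis.ofVectorSpace k L
  -- the residue map on K
  set ρ : K → L := fun κ => P.res (algebraMap K E κ) with hρdef
  have hρ : ∀ κ, P.Ge 1 (algebraMap K E κ - algebraMap L E (ρ κ)) := fun κ => P.res_spec (hKge κ)
  have hρadd : ∀ κ κ', ρ (κ + κ') = ρ κ + ρ κ' := by
    intro κ κ'
    apply P.res_eq (hKge _)
    have := (hρ κ).add (hρ κ')
    convert this using 1
    rw [map_add, map_add]; ring
  have hρmul : ∀ κ κ', ρ (κ * κ') = ρ κ * ρ κ' := by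
    intro κ κ'
    apply P.res_eq (hKge _)
    have := ((hρ κ).mul' (hKge κ') (show (1:ℤ) ≤ 1 + 0 by omega)).add 
      ((P.ge_const (ρ κ)).mul' (hρ κ') (show (1:ℤ) ≤ 0 + 1 by omega))
    convert this using 1
    rw [map_mul, map_mul]; ring
  have hρk : ∀ c : k, ρ (algebraMap k K c) = algebraMap k L c := by
    intro c
    apply P.res_eq (hKge _)
    rw [← IsScalarTower.algebraMap_apply, ← IsScalarTower.algebraMap_apply, sub_self]
    exact P.ge_zero _
  let ρh : K →+* L :=
    { toFun := ρ
      map_one' := by rw [← map_one (algebraMap k K), hρk, map_one]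
      map_zero' := by rw [← map_zero (algebraMap k K), hρk, map_zero]
      map_add' := hρadd
      map_mul' := hρmul }
  have hρh : ∀ κ, ρh κ = ρ κ := fun _ => rfl
  set w : E := algebraMap K E t - algebraMap L E (ρ t) with hw
  have hw1 : P.Ge 1 w := hρ t
  -- w is nonzero
  have hw0 : w ≠ 0 := by
    intro h0
    have hmem : ∀ a ∈ k⟮t⟯, algebraMap K E a = algebraMap L E (ρ a) := by
      intro a ha
      induction ha using IntermediateField.adjoin_induction with
      | mem z hz => rw [Set.mem_singleton_iff] at hz; rw [hz]; exact sub_eq_zero.1 h0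
      | algebraMap c => rw [hρk, ← IsScalarTower.algebraMap_apply, ← IsScalarTower.algebraMap_apply]
      | add a b _ _ ha hb => rw [hρadd, map_add, map_add, ha, hb]
      | mul a b _ _ ha hb => rw [hρmul, map_mul, map_mul, ha, hb]
      | inv a _ ha => 
        have h3 : ρ a⁻¹ = (ρ a)⁻¹ := by rw [← hρh, map_inv₀, hρh]
        rw [h3, map_inv₀, map_inv₀, ha]
    let φ : k⟮t⟯ →+* L := ρh.comp (algebraMap k⟮t⟯ K)
    have hKL : ∀ κ : K, ∃ l : L, algebraMap L E l = algebraMap K E κ := by
      intro κ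
      have h1 : IsAlgebraic k⟮t⟯ κ := (FF.isAlgebraic ht).isAlgebraic κ
      apply mem_range_of_isAlgebraic
      refine h1.ringHom_of_comp_eq φ (algebraMap K E) φ.injective ?_
      ext a
      exact (hmem a a.2).symm
    obtain ⟨z, hz⟩ := FF.exists_transcendental (L := L) (E := E)
    rw [transcendental_iff] at hz
    obtain ⟨c, d, hd, hcd⟩ := hfrac z
    have hmu : ∀ a : K ⊗[k] L, ∃ l : L, algebraMap L E l = mu k K L E a := by
      intro a
      induction a using TensorProduct.induction_on with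
      | zero => exact ⟨0, by simp⟩
      | tmul κ l =>
        obtain ⟨l', hl'⟩ := hKL κ
        exact ⟨l' * l, by rw [mu_tmul, map_mul, hl']⟩
      | add a b ha hb =>
        obtain ⟨l, hl⟩ := ha
        obtain ⟨l', hl'⟩ := hb
        exact ⟨l + l', by rw [map_add, map_add, hl, hl']⟩
    obtain ⟨l, hl⟩ := hmu c
    obtain ⟨l', hl'⟩ := hmu d
    exact hz (l / l') (by rw [map_div₀, hl, hl', hcd])
  -- constants of `k[t]`
  have c2 : ∀ r ∈ Rg k t, ∃ z, Oo k K P z ∧ algebraMap K E r - algebraMap L E (ρ r) = w * z := by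
    intro r hr
    induction hr using Algebra.adjoin_induction with
    | mem y hy => 
      rw [Set.mem_singleton_iff] at hy; rw [hy]
      exact ⟨1, by rw [← map_one (algebraMap L E)]; exact Oo.of_L 1, by rw [mul_one]⟩
    | algebraMap c => 
      refine ⟨0, by rw [← map_zero (algebraMap L E)]; exact Oo.of_L 0, ?_⟩
      rw [hρk, ← IsScalarTower.algebraMap_apply, ← IsScalarTower.algebraMap_apply]; simp
    | add a b _ _ ha hb => 
      obtain ⟨z, hz, hz'⟩ := ha
      obtain ⟨z', hz1, hz1'⟩ := hb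
      refine ⟨z + z', hz.add hz1, ?_⟩
      rw [mul_add, ← hz', ← hz1', hρadd, map_add, map_add]; ring
    | mul a b _ _ ha hb => 
      obtain ⟨z, hz, hz'⟩ := ha
      obtain ⟨z', hz1, hz1'⟩ := hb
      refine ⟨z * algebraMap K E b + algebraMap L E (ρ a) * z', 
        (hz.mul (Oo.of_K b)).add ((Oo.of_L _).mul hz1), ?_⟩
      have : w * (z * algebraMap K E b + algebraMap L E (ρ a) * z') = 
        (w * z) * algebraMap K E b + algebraMap L E (ρ a) * (w * z') := by ring
      rw [this, ← hz', ← hz1', hρmul, map_mul, map_mul]; ring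
  have hcharE : CharZero E := charZero_of_injective_algebraMap (algebraMap k E).injective
  have hcharK : CharZero K := charZero_of_injective_algebraMap (algebraMap k K).injective
  -- all of K
  have c3 : ∀ κ : K, ∃ z, Oo k K P z ∧ algebraMap K E κ - algebraMap L E (ρ κ) = w * z := by
    intro κ
    have halg : IsAlgebraic (Rg k t) κ := by
      have h1 := FF.isAlgebraic ht
      have : Algebra.IsAlgebraic (Rg k t) K := Algebra.IsAlgebraic.trans (Rg k t) k⟮t⟯ K
      exact Algebra.IsAlgebraic.isAlgebraic κ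
    obtain ⟨p, hp0, hp1⟩ := exists_simple_root (R := Rg k t) (F := K) 
      (FaithfulSMul.algebraMap_injective _ _) halg
    set q := p.map (algebraMap (Rg k t) K) with hq
    set n := q.natDegree with hn
    have hcoeff : ∀ j, q.coeff j ∈ Rg k t := by
      intro j; rw [hq, Polynomial.coeff_map]; exact (p.coeff j).2
    set κE := algebraMap K E κ with hκE
    set lE := algebraMap L E (ρ κ) with hlE
    have hκl : P.Ge 1 (κE - lE) := hρ κ
    -- the two evaluations
    have h1 : ∑ j ∈ Finset.range (n + 1), algebraMap K E (q.coeff j) * κE ^ j = 0 := by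
      have := hp0
      rw [Polynomial.eval_eq_sum_range] at this
      have h2 := congrArg (algebraMap K E) this
      rw [map_sum, map_zero] at h2
      rw [← h2]
      apply Finset.sum_congr rfl
      intro j _
      rw [map_mul, map_pow]
    have h2 : ∑ j ∈ Finset.range (n + 1), algebraMap L E (ρ (q.coeff j)) * lE ^ j = 0 := by
      have := hp0
      rw [Polynomial.eval_eq_sum_range] at this
      have h2 := congrArg (algebraMap L E) (congrArg ρh this)
      rw [map_sum, map_zero, map_sum, map_zero] at h2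
      rw [← h2]
      apply Finset.sum_congr rfl
      intro j _
      rw [map_mul, map_pow, map_mul, map_pow]; rfl
    choose! zc hzc hzc' using c2
    set g : ℕ → E := fun j => ∑ i ∈ Finset.range j, κE ^ i * lE ^ (j - 1 - i) with hg
    have hgeom : ∀ j, g j * (κE - lE) = κE ^ j - lE ^ j := by
      intro j; rw [hg]; exact geom_sum₂_mul κE lE j
    set G := ∑ j ∈ Finset.range (n + 1), algebraMap K E (q.coeff j) * g j with hG
    set H := ∑ j ∈ Finset.range (n + 1), zc (q.coeff j) * lE ^ j with hH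
    have hGO : Oo k K P G := Oo.sum (fun j _ => (Oo.of_K _).mul 
      (Oo.sum (fun i _ => ((Oo.of_K κ).pow i).mul ((Oo.of_L _).pow _))))
    have hHO : Oo k K P H := Oo.sum (fun j _ => (hzc _ (hcoeff j)).mul ((Oo.of_L _).pow _))
    have hrel : (κE - lE) * G + w * H = 0 := by
      have h3 : (κE - lE) * G + w * H = 
          ∑ j ∈ Finset.range (n + 1), algebraMap K E (q.coeff j) * κE ^ j - 
          ∑ j ∈ Finset.range (n + 1), algebraMap L E (ρ (q.coeff j)) * lE ^ j := by
        rw [hG, hH, Finset.mul_sum, Finset.mul_sum, ← Finset.sum_add_distrib, ← Finset.sum_sub_distrib]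
        apply Finset.sum_congr rfl
        intro j _
        have h4 := hgeom j
        have h5 := hzc' _ (hcoeff j)
        have h6 : w * (zc (q.coeff j) * lE ^ j) = (w * zc (q.coeff j)) * lE ^ j := by ring
        rw [h6, ← h5]
        have h7 : (κE - lE) * (algebraMap K E (q.coeff j) * g j) = 
          algebraMap K E (q.coeff j) * (g j * (κE - lE)) := by ring
        rw [h7, h4]; ring
      rw [h3, h1, h2, sub_zero]
    -- G is a unit
    have hpow : ∀ m : ℕ, P.Ge 1 (κE ^ m - lE ^ m) := by
      intro m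
      rw [← hgeom m]
      refine Place.Ge.mul' (m := 0) (Place.Ge.sum (fun i _ => ?_)) hκl (by omega)
      have h3 := (hKge κ).pow i
      have h4 := (P.ge_const (ρ κ)).pow (m - 1 - i)
      rw [mul_zero] at h3 h4
      exact h3.mul' h4 (by omega)
    have hder : P.Ge 1 (G - algebraMap K E (q.derivative.eval κ)) := by
      have h3 : algebraMap K E (q.derivative.eval κ) = 
          ∑ j ∈ Finset.range (n + 1), algebraMap K E (q.coeff j) * (j * κE ^ (j - 1)) := by
        rw [Polynomial.derivative_eval, Polynomial.sum_over_range _ (by intro j; simp), map_sum]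
        apply Finset.sum_congr rfl
        intro j _
        rw [map_mul, map_mul, map_pow, map_natCast, mul_assoc]
      rw [h3, hG, ← Finset.sum_sub_distrib]
      apply Place.Ge.sum
      intro j _
      rw [← mul_sub]
      refine (hKge _).mul' (n := 1) ?_ (by omega)
      have h4 : g j - j * κE ^ (j - 1) = ∑ i ∈ Finset.range j, (κE ^ i * (lE ^ (j - 1 - i) - κE ^ (j - 1 - i))) := by
        rw [hg]
        simp only [mul_sub, Finset.sum_sub_distrib]
        congr 1
        rw [Finset.sum_congr rfl (g := fun _ => κE ^ (j - 1)) (fun i hi => by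
          rw [Finset.mem_range] at hi
          rw [← pow_add]; congr 1; omega)]
        rw [Finset.sum_const, Finset.card_range, nsmul_eq_mul]
      rw [h4]
      apply Place.Ge.sum
      intro i _
      have h5 := (hKge κ).pow i
      rw [mul_zero] at h5
      have h6 := (hpow (j - 1 - i)).neg
      rw [neg_sub] at h6
      exact h5.mul' h6 (by omega)
    have hGunit : G ≠ 0 ∧ P.ord G = 0 := by
      have h3 : algebraMap K E (q.derivative.eval κ) ≠ 0 := by rw [map_ne_zero]; exact hp1
      have h4 : P.ord (algebraMap K E (q.derivative.eval κ)) = 0 := htriv _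
      have h5 : G ≠ 0 := by
        intro h0
        rw [h0, zero_sub] at hder
        have h6 := hder.neg
        rw [neg_neg, P.ge_iff h3, h4] at h6
        omega
      refine ⟨h5, ?_⟩
      have h6 : P.Ge 0 G := by
        have := (hder.mono (by omega : (0:ℤ) ≤ 1)).add (hKge (q.derivative.eval κ))
        simpa using this
      have h7 := (P.ge_iff h5).1 h6
      by_contra hne
      have h8 : P.Ge 1 G := (P.ge_iff h5).2 (by omega)
      have h9 := h8.sub hder
      rw [sub_sub_cancel, P.ge_iff h3, h4] at h9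
      omega
    refine ⟨-(H * G⁻¹), (hHO.mul (hGO.inv hGunit.1 hGunit.2)).neg, ?_⟩
    have h3 : (κE - lE) = -(w * H) * G⁻¹ := by
      rw [eq_mul_inv_iff_mul_eq₀ hGunit.1]
      exact eq_neg_of_add_eq_zero_left hrel
    rw [h3]; ring
  choose zK hzK hzK' using c3
  have hmuge : ∀ a : K ⊗[k] L, P.Ge 0 (mu k K L E a) := by
    intro a
    obtain ⟨f, rfl⟩ := exists_repr b a
    rw [Finsupp.sum, map_sum]
    apply Place.Ge.sum
    intro i _
    rw [mu_tmul]
    exact (hKge _).mul' (P.ge_const _) (by omega)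
  have c4 : ∀ a : K ⊗[k] L, P.Ge 1 (mu k K L E a) → ∃ z, Oo k K P z ∧ mu k K L E a = w * z := by
    intro a ha
    obtain ⟨f, rfl⟩ := exists_repr b a
    set l : L := ∑ i ∈ f.support, ρ (f i) * b i with hl
    set z : E := ∑ i ∈ f.support, zK (f i) * algebraMap L E (b i) with hz
    have h1 : mu k K L E (f.sum (fun i κ => κ ⊗ₜ[k] b i)) = algebraMap L E l + w * z := by
      rw [hl, hz, Finsupp.sum, map_sum, map_sum, Finset.mul_sum, ← Finset.sum_add_distrib]
      apply Finset.sum_congr rfl
      intro i _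
      rw [mu_tmul, map_mul, ← mul_assoc, ← hzK']; ring
    have hzO : Oo k K P z := Oo.sum (fun i _ => (hzK _).mul (Oo.of_L _))
    have hzge : P.Ge 1 (w * z) := by
      have h2 : w * z = ∑ i ∈ f.support, (algebraMap K E (f i) - algebraMap L E (ρ (f i))) * algebraMap L E (b i) := by
        rw [hz, Finset.mul_sum]
        apply Finset.sum_congr rfl
        intro i _
        rw [hzK', mul_assoc]
      rw [h2]
      apply Place.Ge.sum
      intro i _
      exact (hρ _).mul' (P.ge_const _) (by omega)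
    have hl0 : l = 0 := by
      by_contra hne
      have h2 := ha.sub hzge
      rw [h1, add_sub_cancel_right] at h2
      exact P.not_ge_one_const hne h2
    refine ⟨z, hzO, ?_⟩
    rw [h1, hl0, map_zero, zero_add]
  have hOoge : ∀ z, Oo k K P z → P.Ge 0 z := by
    rintro z ⟨a, c, hc, hc1, rfl⟩
    rw [div_eq_mul_inv]
    refine (hmuge a).mul' (n := 0) ?_ (by omega)
    rw [P.ge_iff (inv_ne_zero hc), P.ord_inv, hc1]; simp
  have c5 : ∀ z, Oo k K P z → P.Ge 1 z → ∃ z', Oo k K P z' ∧ z = w * z' := by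
    rintro z ⟨a, c, hc, hc1, rfl⟩ hz
    have h1 : P.Ge 1 (mu k K L E a) := by
      have := hz.mul' (hmuge c) (show (1:ℤ) ≤ 1 + 0 by omega)
      rwa [div_mul_cancel₀ _ hc] at this
    obtain ⟨z', hz', h2⟩ := c4 a h1
    refine ⟨z' * (mu k K L E c)⁻¹, hz'.mul ((Oo.of_mu c).inv hc hc1), ?_⟩
    rw [h2]; ring
  have hword : 1 ≤ P.ord w := (P.ge_iff hw0).1 hw1
  have c6 : ∀ (N : ℕ) (z : E), z ≠ 0 → Oo k K P z → P.ord z ≤ N → 
      ∃ (n : ℕ) (u : E), Oo k K P u ∧ u ≠ 0 ∧ P.ord u = 0 ∧ z = w ^ n * u := by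
    intro N
    induction N with
    | zero =>
      intro z hz0 hz hN
      refine ⟨0, z, hz, hz0, ?_, by simp⟩
      have := (P.ge_iff hz0).1 (hOoge z hz)
      simp at hN; omega
    | succ N ih =>
      intro z hz0 hz hN
      by_cases h0 : P.ord z = 0
      · exact ⟨0, z, hz, hz0, h0, by simp⟩
      · have h1 := (P.ge_iff hz0).1 (hOoge z hz)
        obtain ⟨z', hz', hzz'⟩ := c5 z hz ((P.ge_iff hz0).2 (by omega))
        have hz0' : z' ≠ 0 := by rintro rfl; rw [mul_zero] at hzz'; exact hz0 hzz'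
        have h2 : P.ord z = P.ord w + P.ord z' := by rw [hzz', P.ord_mul hw0 hz0']
        obtain ⟨n, u, hu, hu0, hu1, hu2⟩ := ih z' hz0' hz' (by push_cast at hN; omega)
        exact ⟨n + 1, u, hu, hu0, hu1, by rw [hzz', hu2, pow_succ]; ring⟩
  have c7 : ∀ y, P.Ge 0 y → Oo k K P y := by
    intro y hy
    by_cases hy0 : y = 0
    · rw [hy0, ← map_zero (algebraMap L E)]; exact Oo.of_L 0
    obtain ⟨a, c, hc, hac⟩ := hfrac y
    have ha : mu k K L E a ≠ 0 := by
      intro h0; apply hy0; rw [hac, h0, zero_div]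
    obtain ⟨n, u, hu, hu0, hu1, hu2⟩ := c6 (P.ord (mu k K L E a)).toNat _ ha (Oo.of_mu a) (by omega)
    obtain ⟨m, u', hu', hu0', hu1', hu2'⟩ := c6 (P.ord (mu k K L E c)).toNat _ hc (Oo.of_mu c) (by omega)
    have h1 : P.ord y = ((n : ℤ) - m) * P.ord w := by
      rw [hac, P.ord_div ha hc, hu2, hu2', P.ord_mul (pow_ne_zero _ hw0) hu0, 
        P.ord_mul (pow_ne_zero _ hw0) hu0', P.ord_pow, P.ord_pow, hu1, hu1']; ring
    have h2 := (P.ge_iff hy0).1 hy
    have h3 : m ≤ n := by
      by_contra h4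
      push Not at h4
      have : ((n : ℤ) - m) ≤ -1 := by omega
      nlinarith
    have h4 : y = w ^ (n - m) * (u * u'⁻¹) := by
      rw [hac, hu2, hu2']
      have h5 : w ^ n = w ^ (n - m) * w ^ m := by rw [← pow_add]; congr 1; omega
      rw [h5]
      have := pow_ne_zero m hw0
      field_simp
    rw [h4]
    exact (((Oo.of_K t).sub (Oo.of_L _)).pow _).mul (hu.mul (hu'.inv hu0' hu1'))
  have c8 : ∀ a : K ⊗[k] L, P.Ge 0 (D (mu k K L E a)) := by
    intro a
    obtain ⟨f, rfl⟩ := exists_repr b a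
    rw [deriv_mu_sum hK]
    apply Place.Ge.sum
    intro i _
    obtain ⟨d, hd⟩ := hPL (b i)
    change P.Ge 0 (algebraMap K E (f i) * D (algebraMap L E (b i)))
    rw [hd]
    exact (hKge _).mul' (P.ge_const _) (by omega)
  intro y hy
  obtain ⟨a, c, hc, hc1, rfl⟩ := c7 y hy
  have hinv : P.Ge 0 (mu k K L E c)⁻¹ := by
    rw [P.ge_iff (inv_ne_zero hc), P.ord_inv, hc1]; simp
  rw [D.leibniz_div, smul_eq_mul, smul_eq_mul, smul_eq_mul]
  refine Place.Ge.mul' (m := 0) ?_ ?_ (by omega : (0:ℤ) ≤ 0 + 0)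
  · have := hinv.mul hinv
    rw [← sq] at this
    simpa using this
  · exact ((hmuge c).mul' (c8 a) (by omega)).sub ((hmuge a).mul' (c8 c) (by omega))

/-- **Horizontality.**  A derivation of `E = Frac (K ⊗ L)` killing `K` and preserving `L` is regular
at every place of `E/L`. -/
theorem horizontal (hK : ∀ κ : K, D (algebraMap K E κ) = 0) (hPL : PresL L D) 
    [IsAlgClosed L] [CharZero L] [FF L E]
    (hfrac : ∀ z : E, ∃ a b : K ⊗[k] L, mu k K L E b ≠ 0 ∧ z = mu k K L E a / mu k K L E b)
    (P : Place L E) : DGe P D 0 := by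
  obtain ⟨v, e, hl⟩ := exists_lies (IsScalarTower.toAlgHom k K E) P
  rcases Nat.eq_zero_or_pos e with he | he
  · apply horiz_moving hK hPL hfrac
    intro κ
    have := hl κ
    rw [he] at this
    simpa using this
  · intro y hy
    by_cases hy0 : y = 0
    · rw [hy0, map_zero]; exact P.ge_zero _
    · exact (horiz_static hK hPL hfrac he hl y).mono ((P.ge_iff hy0).1 hy)

end Horiz

end PGH
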