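import Mathlib
import Pool.Agent.Helper1_PGH.Horiz

open WithZero IntermediateField
open scoped TensorProduct IntermediateField.algebraAdjoinAdjoin

namespace PGH

section Comp

variable (K L Ω : Type*) [Field K] [Field L] [Field Ω] [Algebra K Ω] [Algebra L Ω]

/-- The compositum of `K` and `L` inside `Ω`. -/
noncomputable def EE : IntermediateField L Ω := IntermediateField.adjoin L (Set.range (algebraMap K Ω))

theorem mem_EE_K (κ : K) : algebraMap K Ω κ ∈ EE K L Ω := 
  IntermediateField.subset_adjoin _ _ ⟨κ, rfl⟩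

noncomputable instance EE.algK : Algebra K (EE K L Ω) :=
  RingHom.toAlgebra
    { toFun := fun κ => ⟨algebraMap K Ω κ, mem_EE_K K L Ω κ⟩
      map_one' := by apply Subtype.ext; exact map_one _
      map_zero' := by apply Subtype.ext; exact map_zero _
      map_add' := by intro a b; apply Subtype.ext; exact map_add _ _ _
      map_mul' := by intro a b; apply Subtype.ext; exact map_mul _ _ _ }

theorem EE.coe_K (κ : K) : ((algebraMap K (EE K L Ω) κ : EE K L Ω) : Ω) = algebraMap K Ω κ := rfl

theorem EE.coe_L (l : L) : ((algebraMap L (EE K L Ω) l : EE K L Ω) : Ω) = algebraMap L Ω l := rfl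

variable {K L Ω} {k : Type*} [Field k] [Algebra k K] [Algebra k L] [Algebra k Ω] 
  [IsScalarTower k K Ω] [IsScalarTower k L Ω]

instance EE.towerk : IsScalarTower k K (EE K L Ω) := IsScalarTower.of_algebraMap_eq (fun c => by
  apply Subtype.ext
  change algebraMap k Ω c = algebraMap K Ω (algebraMap k K c)
  rw [← IsScalarTower.algebraMap_apply])

instance EE.towerkL : IsScalarTower k L (EE K L Ω) := IsScalarTower.of_algebraMap_eq (fun c => by
  apply Subtype.ext
  change algebraMap k Ω c = algebraMap L Ω (algebraMap k L c)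
  rw [← IsScalarTower.algebraMap_apply])

theorem coe_mu (a : K ⊗[k] L) : ((mu k K L (EE K L Ω) a : EE K L Ω) : Ω) = mu k K L Ω a := by
  induction a using TensorProduct.induction_on with
  | zero => simp
  | tmul κ l => rw [mu_tmul, mu_tmul]; rfl
  | add a b ha hb => rw [map_add, map_add, ← ha, ← hb]; rfl

theorem EE.hfrac (z : EE K L Ω) : ∃ a b : K ⊗[k] L, mu k K L (EE K L Ω) b ≠ 0 ∧ 
    z = mu k K L (EE K L Ω) a / mu k K L (EE K L Ω) b := by
  obtain ⟨x, hx, y, hy, hxy⟩ := IntermediateField.mem_adjoin_iff_div.1 z.2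
  have hrange : ∀ x ∈ Algebra.adjoin L (Set.range (algebraMap K Ω)), ∃ a, mu k K L Ω a = x := by
    intro x hx
    induction hx using Algebra.adjoin_induction with
    | mem y hy => 
      obtain ⟨κ, rfl⟩ := hy
      exact ⟨κ ⊗ₜ 1, by rw [mu_tmul, map_one, mul_one]⟩
    | algebraMap l => exact ⟨1 ⊗ₜ l, by rw [mu_tmul, map_one, one_mul]⟩
    | add a b _ _ ha hb => 
      obtain ⟨a, rfl⟩ := ha
      obtain ⟨b, rfl⟩ := hb
      exact ⟨a + b, map_add _ _ _⟩
    | mul a b _ _ ha hb => 
      obtain ⟨a, rfl⟩ := ha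
      obtain ⟨b, rfl⟩ := hb
      exact ⟨a * b, map_mul _ _ _⟩
  obtain ⟨a, ha⟩ := hrange x hx
  obtain ⟨b, hb⟩ := hrange y hy
  by_cases hy0 : y = 0
  · refine ⟨0, 1, by rw [map_one]; exact one_ne_zero, ?_⟩
    rw [map_zero, zero_div]
    apply Subtype.ext
    rw [hxy, hy0, div_zero]; rfl
  · refine ⟨a, b, ?_, ?_⟩
    · intro h0
      have := congrArg (Subtype.val) h0
      change ((mu k K L (EE K L Ω) b : EE K L Ω) : Ω) = 0 at this
      rw [coe_mu, hb] at this
      exact hy0 this
    · apply Subtype.ext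
      change (z : Ω) = ((mu k K L (EE K L Ω) a : EE K L Ω) : Ω) / ((mu k K L (EE K L Ω) b : EE K L Ω) : Ω)
      rw [coe_mu, coe_mu, ha, hb, hxy]

variable (hinj : Function.Injective (mu k K L Ω))

include hinj in
theorem mu_EE_injective : Function.Injective (mu k K L (EE K L Ω)) := by
  intro a b hab
  apply hinj
  rw [← coe_mu (K := K) (L := L) (Ω := Ω) a, ← coe_mu (K := K) (L := L) (Ω := Ω) b, hab]

variable [IsAlgClosed k] [CharZero k] [IsAlgClosed L] 

include hinj in
theorem not_mem_range_of_inj {t : K} (ht : Transcendental k t) (c : L) : 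
    algebraMap L Ω c ≠ algebraMap K Ω t := by
  intro h
  have h1 : mu k K L Ω (t ⊗ₜ[k] (1 : L) - (1 : K) ⊗ₜ[k] c) = 0 := by
    rw [map_sub, mu_tmul, mu_tmul, map_one, map_one, mul_one, one_mul, h, sub_self]
  have h2 : t ⊗ₜ[k] (1 : L) - (1 : K) ⊗ₜ[k] c = 0 := by
    apply hinj; rw [h1, map_zero]
  have ht' : t ∉ Submodule.span k {(1 : K)} := by
    intro hmem
    rw [Submodule.mem_span_singleton] at hmem
    obtain ⟨a, ha⟩ := hmem
    apply (transcendental_iff.1 ht) a
    rw [← ha, Algebra.smul_def, mul_one]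
  obtain ⟨f, hft, hf1⟩ := Submodule.exists_le_ker_of_notMem ht'
  have hf1' : f 1 = 0 := hf1 (Submodule.mem_span_singleton_self _)
  have h3 := congrArg ((TensorProduct.lid k L).toLinearMap ∘ₗ LinearMap.rTensor L f) h2
  rw [map_sub, map_zero] at h3
  simp only [LinearMap.coe_comp, LinearEquiv.coe_coe, Function.comp_apply, LinearMap.rTensor_tmul,
    TensorProduct.lid_tmul, hf1', zero_smul, sub_zero] at h3
  rw [Algebra.smul_def, mul_one, map_eq_zero] at h3
  exact hft h3

include hinj in
theorem EE.transcendental {t : K} (ht : Transcendental k t) : 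
    Transcendental L (algebraMap K (EE K L Ω) t) := by
  rw [transcendental_iff]
  intro c hc
  exact not_mem_range_of_inj hinj ht c (congrArg Subtype.val hc)

include hinj in
theorem EE.ff [FF k K] : FF L (EE K L Ω) := by
  obtain ⟨t, ht⟩ := FF.exists_transcendental (L := k) (E := K)
  have htE := EE.transcendental hinj ht
  have hess : Algebra.EssFiniteType k K := FF.ess
  obtain ⟨s, hs⟩ := IntermediateField.fg_top k K
  have hessE : Algebra.EssFiniteType L (EE K L Ω) := by
    classical
    rw [IntermediateField.essFiniteType_iff]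
    refine ⟨s.image (algebraMap K Ω), ?_⟩
    apply le_antisymm
    · rw [IntermediateField.adjoin_le_iff]
      intro z hz
      rw [Finset.coe_image] at hz
      obtain ⟨κ, -, rfl⟩ := hz
      exact mem_EE_K K L Ω κ
    · rw [EE, IntermediateField.adjoin_le_iff]
      rintro _ ⟨κ, rfl⟩
      have hκ : κ ∈ IntermediateField.adjoin k (s : Set K) := by rw [hs]; trivial
      induction hκ using IntermediateField.adjoin_induction with
      | mem z hz => exact IntermediateField.subset_adjoin _ _ (by rw [Finset.coe_image]; exact ⟨z, hz, rfl⟩)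
      | algebraMap c => 
        rw [← IsScalarTower.algebraMap_apply, IsScalarTower.algebraMap_apply k L Ω]
        exact IntermediateField.algebraMap_mem _ _
      | add a b _ _ ha hb => rw [map_add]; exact add_mem ha hb
      | mul a b _ _ ha hb => rw [map_mul]; exact mul_mem ha hb
      | inv a _ ha => rw [map_inv₀]; exact inv_mem ha
  set tE : EE K L Ω := algebraMap K (EE K L Ω) t with htEdef
  have hmem : ∀ a ∈ k⟮t⟯, algebraMap K (EE K L Ω) a ∈ L⟮tE⟯ := by
    intro a ha
    induction ha using IntermediateField.adjoin_induction with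
    | mem z hz => 
      rw [Set.mem_singleton_iff] at hz; rw [hz]
      exact IntermediateField.mem_adjoin_simple_self _ _
    | algebraMap c => 
      rw [← IsScalarTower.algebraMap_apply, IsScalarTower.algebraMap_apply k L (EE K L Ω)]
      exact IntermediateField.algebraMap_mem _ _
    | add a b _ _ ha hb => rw [map_add]; exact add_mem ha hb
    | mul a b _ _ ha hb => rw [map_mul]; exact mul_mem ha hb
    | inv a _ ha => rw [map_inv₀]; exact inv_mem ha
  let φ : k⟮t⟯ →+* L⟮tE⟯ :=
    { toFun := fun a => ⟨algebraMap K (EE K L Ω) a, hmem a a.2⟩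
      map_one' := by apply Subtype.ext; exact map_one (algebraMap K (EE K L Ω))
      map_zero' := by apply Subtype.ext; exact map_zero (algebraMap K (EE K L Ω))
      map_add' := by intro a b; apply Subtype.ext; exact map_add (algebraMap K (EE K L Ω)) _ _
      map_mul' := by intro a b; apply Subtype.ext; exact map_mul (algebraMap K (EE K L Ω)) _ _ }
  have hKalg : ∀ κ : K, IsAlgebraic L⟮tE⟯ (algebraMap K (EE K L Ω) κ) := by
    intro κ
    have h1 : IsAlgebraic k⟮t⟯ κ := (FF.isAlgebraic ht).isAlgebraic κ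
    exact h1.ringHom_of_comp_eq φ (algebraMap K (EE K L Ω)) φ.injective rfl
  have hmu : ∀ a : K ⊗[k] L, IsAlgebraic L⟮tE⟯ (mu k K L (EE K L Ω) a) := by
    intro a
    induction a using TensorProduct.induction_on with
    | zero => rw [map_zero]; exact isAlgebraic_zero
    | tmul κ l =>
      rw [mu_tmul]
      refine (hKalg κ).mul ?_
      rw [IsScalarTower.algebraMap_apply L L⟮tE⟯ (EE K L Ω)]
      exact isAlgebraic_algebraMap _
    | add a b ha hb => rw [map_add]; exact ha.add hb
  have halg : Algebra.IsAlgebraic L⟮tE⟯ (EE K L Ω) := by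
    refine ⟨fun z => ?_⟩
    obtain ⟨a, b, -, rfl⟩ := EE.hfrac (k := k) z
    rw [div_eq_mul_inv]
    exact (hmu a).mul (hmu b).inv
  have : Algebra.EssFiniteType L⟮tE⟯ (EE K L Ω) := Algebra.EssFiniteType.of_comp L _ _
  have : FiniteDimensional L⟮tE⟯ (EE K L Ω) := Algebra.finite_of_essFiniteType_of_isAlgebraic
  exact FF.of_finite htE this

include hinj in
/-- A derivation of `L/k` extends to a derivation of the compositum killing `K`. -/
theorem EE.exists_deriv (δ : Derivation k L L) : ∃ D : Derivation ℤ (EE K L Ω) (EE K L Ω), 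
    (∀ κ : K, D (algebraMap K (EE K L Ω) κ) = 0) ∧ 
    (∀ l : L, D (algebraMap L (EE K L Ω) l) = algebraMap L (EE K L Ω) (δ l)) ∧
    ∀ a : K ⊗[k] L, D (mu k K L (EE K L Ω) a) = 
      mu k K L (EE K L Ω) ((δ : L →ₗ[k] L).lTensor K a) := by
  let _ : Algebra (K ⊗[k] L) (EE K L Ω) := (mu k K L (EE K L Ω)).toRingHom.toAlgebra
  have hsmul : ∀ (a : K ⊗[k] L) (z : EE K L Ω), a • z = mu k K L (EE K L Ω) a * z := fun _ _ => rfl
  have halg : ∀ a : K ⊗[k] L, algebraMap (K ⊗[k] L) (EE K L Ω) a = mu k K L (EE K L Ω) a := fun _ => rfl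
  have : IsScalarTower K (K ⊗[k] L) (EE K L Ω) := IsScalarTower.of_algebraMap_eq (fun κ => by
    rw [halg, Algebra.TensorProduct.algebraMap_apply, mu_tmul]
    simp)
  have : FaithfulSMul (K ⊗[k] L) (EE K L Ω) := 
    (faithfulSMul_iff_algebraMap_injective _ _).2 (mu_EE_injective hinj)
  have : IsFractionRing (K ⊗[k] L) (EE K L Ω) := by
    apply IsFractionRing.of_field
    intro z
    obtain ⟨a, b, -, h⟩ := EE.hfrac (k := k) z
    exact ⟨a, b, h⟩
  have : Algebra.FormallyEtale (K ⊗[k] L) (EE K L Ω) :=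
    Algebra.FormallyEtale.of_isLocalization (nonZeroDivisors (K ⊗[k] L))
  let H : K ⊗[k] L →ₗ[K] EE K L Ω := 
    (IsScalarTower.toAlgHom K (K ⊗[k] L) (EE K L Ω)).toLinearMap ∘ₗ (δ : L →ₗ[k] L).baseChange K
  have hH : ∀ κ l, H (κ ⊗ₜ l) = algebraMap K (EE K L Ω) κ * algebraMap L (EE K L Ω) (δ l) := by
    intro κ l
    change mu k K L (EE K L Ω) ((δ : L →ₗ[k] L).baseChange K (κ ⊗ₜ l)) = _
    rw [LinearMap.baseChange_tmul, mu_tmul]; rfl
  have hH' : ∀ a, H a = mu k K L (EE K L Ω) ((δ : L →ₗ[k] L).lTensor K a) := fun a => rfl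
  let D₀ : Derivation K (K ⊗[k] L) (EE K L Ω) := Derivation.mk' H (by
    intro a b
    rw [hsmul, hsmul]
    induction a using TensorProduct.induction_on with
    | zero => simp
    | add x y hx hy => rw [add_mul, map_add, hx, hy, map_add, map_add]; ring
    | tmul κ l =>
      induction b using TensorProduct.induction_on with
      | zero => simp
      | add x y hx hy => rw [mul_add, map_add, hx, hy, map_add, map_add]; ring
      | tmul κ' l' =>
        rw [Algebra.TensorProduct.tmul_mul_tmul, hH, hH, hH, mu_tmul, mu_tmul, δ.leibniz, smul_eq_mul,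
          smul_eq_mul, map_add, map_mul, map_mul, map_mul]
        ring)
  obtain ⟨D₁, hD₁⟩ := exists_deriv_ext K (K ⊗[k] L) (EE K L Ω) (EE K L Ω) D₀
  have h1 : ∀ a, D₁ (mu k K L (EE K L Ω) a) = H a := fun a => hD₁ a
  refine ⟨D₁.restrictScalars ℤ, ?_, ?_, ?_⟩
  · intro κ
    change D₁ (algebraMap K (EE K L Ω) κ) = 0
    exact D₁.map_algebraMap κ
  · intro l
    change D₁ (algebraMap L (EE K L Ω) l) = _
    have h2 : algebraMap L (EE K L Ω) l = mu k K L (EE K L Ω) (1 ⊗ₜ l) := by
      rw [mu_tmul, map_one, one_mul]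
    rw [h2, h1, hH, map_one, one_mul]
  · intro a
    change D₁ (mu k K L (EE K L Ω) a) = _
    rw [h1, hH']

theorem lTensor_repr {J : Type*} [DecidableEq J] (β : Module.Basis J k K) (δ : Derivation k L L) 
    (a : K ⊗[k] L) (j : J) : 
    TensorProduct.equivFinsuppOfBasisLeft β ((δ : L →ₗ[k] L).lTensor K a) j = 
      δ (TensorProduct.equivFinsuppOfBasisLeft (N := L) β a j) := by
  induction a using TensorProduct.induction_on with
  | zero => simp
  | add x y hx hy => 
    rw [map_add, map_add, Finsupp.add_apply, hx, hy, map_add, Finsupp.add_apply, map_add]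
  | tmul κ l => 
    rw [LinearMap.lTensor_tmul, TensorProduct.equivFinsuppOfBasisLeft_apply_tmul_apply,
      TensorProduct.equivFinsuppOfBasisLeft_apply_tmul_apply]
    simp

/-- an element of `K ⊗ L` killed by all derivations of `L` comes from `K` -/
theorem mem_K_of_forall_deriv (a : K ⊗[k] L) 
    (h : ∀ δ : Derivation k L L, (δ : L →ₗ[k] L).lTensor K a = 0) : ∃ κ : K, a = κ ⊗ₜ 1 := by
  classical
  let β := Module.Basis.ofVectorSpace k K
  set e := TensorProduct.equivFinsuppOfBasisLeft (N := L) β with he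
  have h1 : ∀ j, ∃ c : k, algebraMap k L c = e a j := by
    intro j
    by_contra hcon
    push Not at hcon
    have htr : Transcendental k (e a j) := by
      rw [transcendental_iff]; exact hcon
    obtain ⟨δ, hδ⟩ := exists_deriv k L htr
    have h2 := lTensor_repr β δ a j
    rw [h δ, map_zero, Finsupp.zero_apply, ← he, hδ] at h2
    exact zero_ne_one h2
  choose c hc using h1
  refine ⟨∑ j ∈ (e a).support, c j • β j, ?_⟩
  apply e.injective
  ext j
  rw [TensorProduct.sum_tmul, map_sum, Finsupp.finset_sum_apply]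
  have h3 : ∀ i, e ((c i • β i) ⊗ₜ[k] (1 : L)) j = if i = j then algebraMap k L (c i) else 0 := by
    intro i
    rw [he, TensorProduct.equivFinsuppOfBasisLeft_apply_tmul_apply]
    rw [map_smul, Module.Basis.repr_self, Finsupp.smul_single, smul_eq_mul, mul_one, Finsupp.single_apply]
    split_ifs
    · rw [Algebra.smul_def, mul_one]
    · rw [zero_smul]
  rw [Finset.sum_congr rfl (fun i _ => h3 i), Finset.sum_ite_eq']
  split_ifs with hj
  · exact (hc j).symm
  · rw [Finsupp.notMem_support_iff] at hj; exact hj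

include hinj in
/-- An element of the compositum killed by all derivations of `L` lies in `K`. -/
theorem EE.mem_K_of_deriv (z : EE K L Ω) 
    (h : ∀ (δ : Derivation k L L) (D : Derivation ℤ (EE K L Ω) (EE K L Ω)), 
      (∀ κ : K, D (algebraMap K (EE K L Ω) κ) = 0) → 
      (∀ l : L, D (algebraMap L (EE K L Ω) l) = algebraMap L (EE K L Ω) (δ l)) → D z = 0) :
    ∃ κ : K, algebraMap K (EE K L Ω) κ = z := by
  classical
  let β := Module.Basis.ofVectorSpace k K
  set e := TensorProduct.equivFinsuppOfBasisLeft (N := L) β with he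
  have hinj' := mu_EE_injective hinj
  -- denominators
  let S : Set (K ⊗[k] L) := {b | b ≠ 0 ∧ ∃ a, mu k K L (EE K L Ω) a = z * mu k K L (EE K L Ω) b}
  have hS : ∃ n : ℕ, ∃ b ∈ S, (e b).support.card = n := by
    obtain ⟨a, b, hb, hab⟩ := EE.hfrac (k := k) z
    refine ⟨_, b, ⟨?_, a, ?_⟩, rfl⟩
    · rintro rfl; rw [map_zero] at hb; exact hb rfl
    · rw [hab, div_mul_cancel₀ _ hb]
  obtain ⟨b, hbS, hbn⟩ := Nat.find_spec hS
  have hmin : ∀ b' ∈ S, (e b).support.card ≤ (e b').support.card := by
    intro b' hb'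
    rw [hbn]
    exact Nat.find_min' hS ⟨b', hb', rfl⟩
  obtain ⟨hb0, a, ha⟩ := hbS
  -- normalise
  have hsupp : (e b).support.Nonempty := by
    rw [Finsupp.support_nonempty_iff]
    intro h0
    exact hb0 (e.injective (by rw [h0, map_zero]))
  obtain ⟨j₀, hj₀⟩ := hsupp
  have hl₀ : e b j₀ ≠ 0 := Finsupp.mem_support_iff.1 hj₀
  set l₀ := e b j₀ with hl₀def
  have hmulL : ∀ (l : L) (x : K ⊗[k] L) (j), e ((1 ⊗ₜ l) * x) j = l * e x j := by
    intro l x j
    induction x using TensorProduct.induction_on with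
    | zero => simp
    | add x y hx hy => rw [mul_add, map_add, Finsupp.add_apply, hx, hy, map_add, Finsupp.add_apply, mul_add]
    | tmul κ l' => 
      rw [Algebra.TensorProduct.tmul_mul_tmul, one_mul, he, 
        TensorProduct.equivFinsuppOfBasisLeft_apply_tmul_apply,
        TensorProduct.equivFinsuppOfBasisLeft_apply_tmul_apply, mul_smul_comm]
  set b' : K ⊗[k] L := (1 ⊗ₜ l₀⁻¹) * b with hb'
  set a' : K ⊗[k] L := (1 ⊗ₜ l₀⁻¹) * a with ha'
  have hab' : mu k K L (EE K L Ω) a' = z * mu k K L (EE K L Ω) b' := by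
    rw [ha', hb', map_mul, map_mul, ha]; ring
  have hb'0 : b' ≠ 0 := by
    intro h0
    have h1 : e b' j₀ = l₀⁻¹ * l₀ := hmulL _ _ _
    rw [h0, map_zero, Finsupp.zero_apply, inv_mul_cancel₀ hl₀] at h1
    exact zero_ne_one h1
  have hb'j : e b' j₀ = 1 := by
    rw [hb', hmulL, ← hl₀def, inv_mul_cancel₀ hl₀]
  have hcard : (e b').support = (e b).support := by
    ext j
    rw [Finsupp.mem_support_iff, Finsupp.mem_support_iff, hb', hmulL]
    simp [hl₀]
  have key : ∀ δ : Derivation k L L, (δ : L →ₗ[k] L).lTensor K b' = 0 ∧ 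
      (δ : L →ₗ[k] L).lTensor K a' = 0 := by
    intro δ
    obtain ⟨D, hDK, hDL, hDmu⟩ := EE.exists_deriv hinj δ
    have hDz := h δ D hDK hDL
    have h1 : mu k K L (EE K L Ω) ((δ : L →ₗ[k] L).lTensor K a') = 
        z * mu k K L (EE K L Ω) ((δ : L →ₗ[k] L).lTensor K b') := by
      rw [← hDmu, ← hDmu, hab', D.leibniz, hDz, smul_zero, add_zero, smul_eq_mul]
    have h2 : (δ : L →ₗ[k] L).lTensor K b' = 0 := by
      by_contra hne
      have h3 := hmin _ ⟨hne, _, h1⟩
      rw [← hcard] at h3
      have h4 : (e ((δ : L →ₗ[k] L).lTensor K b')).support ⊂ (e b').support := by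
        rw [Finset.ssubset_iff_of_subset]
        · refine ⟨j₀, by rw [hcard]; exact hj₀, ?_⟩
          rw [Finsupp.notMem_support_iff, he, lTensor_repr, ← he, hb'j, δ.map_one_eq_zero]
        · intro j hj
          rw [Finsupp.mem_support_iff] at hj ⊢
          intro h0
          apply hj
          rw [he, lTensor_repr, ← he, h0, map_zero]
      exact absurd (Finset.card_lt_card h4) (not_lt.2 h3)
    refine ⟨h2, ?_⟩
    rw [h2, map_zero, mul_zero, ← map_zero (mu k K L (EE K L Ω))] at h1
    exact hinj' h1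
  obtain ⟨κb, hκb⟩ := mem_K_of_forall_deriv b' (fun δ => (key δ).1)
  obtain ⟨κa, hκa⟩ := mem_K_of_forall_deriv a' (fun δ => (key δ).2)
  rw [hκa, hκb, mu_tmul, mu_tmul, map_one, mul_one, mul_one] at hab'
  have hκb0 : κb ≠ 0 := by
    rintro rfl
    rw [TensorProduct.zero_tmul] at hκb
    exact hb'0 hκb
  refine ⟨κa / κb, ?_⟩
  rw [map_div₀, hab', mul_div_cancel_right₀]
  simpa using hκb0

end Comp

end PGH
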