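import Mathlib

open IntermediateField Polynomial

namespace PGH

section Extension

/-- Homomorphisms to algebraically closed fields extend along integral extensions. -/
theorem exists_ringHom_extension {R S Ω : Type*} [CommRing R] [CommRing S] [Algebra R S] [Field Ω]
    [IsAlgClosed Ω] [Algebra.IsIntegral R S] (hinj : Function.Injective (algebraMap R S)) 
    (φ : R →+* Ω) : ∃ ψ : S →+* Ω, ∀ r, ψ (algebraMap R S r) = φ r := by
  have hP : (RingHom.ker φ).IsPrime := RingHom.ker_isPrime φ
  obtain ⟨Q, -, hQ, hQP⟩ := Ideal.exists_ideal_over_prime_of_isIntegral (RingHom.ker φ) (⊥ : Ideal S)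
    (by
      intro r hr
      rw [Ideal.mem_comap, Ideal.mem_bot] at hr
      have : r = 0 := hinj (by rw [hr, map_zero])
      rw [this]; exact Ideal.zero_mem _)
  let f : (R ⧸ RingHom.ker φ) →+* (S ⧸ Q) := Ideal.quotientMap Q (algebraMap R S) hQP.ge
  let _ : Algebra (R ⧸ RingHom.ker φ) (S ⧸ Q) := f.toAlgebra
  let _ : Algebra (R ⧸ RingHom.ker φ) Ω := (RingHom.kerLift φ).toAlgebra
  have hfinj : Function.Injective f := Ideal.quotientMap_injective' hQP.le
  have h1 : Module.IsTorsionFree (R ⧸ RingHom.ker φ) (S ⧸ Q) := 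
    Module.isTorsionFree_iff_algebraMap_injective.2 hfinj
  have h2 : Module.IsTorsionFree (R ⧸ RingHom.ker φ) Ω := 
    Module.isTorsionFree_iff_algebraMap_injective.2 (RingHom.kerLift_injective φ)
  have h3 : Algebra.IsIntegral (R ⧸ RingHom.ker φ) (S ⧸ Q) := by
    refine ⟨fun s => ?_⟩
    obtain ⟨s, rfl⟩ := Ideal.Quotient.mk_surjective s
    obtain ⟨p, hp, hps⟩ := Algebra.IsIntegral.isIntegral (R := R) s
    refine ⟨p.map (Ideal.Quotient.mk _), hp.map _, ?_⟩
    rw [eval₂_map]
    have : (algebraMap (R ⧸ RingHom.ker φ) (S ⧸ Q)).comp (Ideal.Quotient.mk _) = 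
        (Ideal.Quotient.mk Q).comp (algebraMap R S) := by
      ext r; rfl
    rw [this, ← hom_eval₂, hps, map_zero]
  have h4 : Algebra.IsAlgebraic (R ⧸ RingHom.ker φ) (S ⧸ Q) := inferInstance
  let g : (S ⧸ Q) →ₐ[R ⧸ RingHom.ker φ] Ω := IsAlgClosed.lift
  refine ⟨g.toRingHom.comp (Ideal.Quotient.mk Q), fun r => ?_⟩
  change g (Ideal.Quotient.mk Q (algebraMap R S r)) = φ r
  have h5 : Ideal.Quotient.mk Q (algebraMap R S r) = 
    algebraMap (R ⧸ RingHom.ker φ) (S ⧸ Q) (Ideal.Quotient.mk _ r) := rfl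
  rw [h5, g.commutes]
  rfl

end Extension

section Conj

variable {Γ k R S : Type*} [Group Γ] [Finite Γ] [Field k] [CommRing R] [CommRing S]
  [Algebra k R] [Algebra k S] [Algebra R S] [IsScalarTower k R S] [MulSemiringAction Γ S]
  [SMulCommClass Γ R S] [Algebra.IsInvariant R S Γ]

/-- Two extensions of a homomorphism from the ring of invariants are conjugate. -/
theorem exists_smul_eq [Infinite k] {Ω : Type*} [Field Ω] [Algebra k Ω] (ψ ψ' : S →ₐ[k] Ω)
    (h : ∀ r : R, ψ' (algebraMap R S r) = ψ (algebraMap R S r)) :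
    ∃ γ : Γ, ∀ s, ψ' s = ψ (γ • s) := by
  classical
  cases nonempty_fintype Γ
  have hk : ∀ (γ : Γ) (c : k) (s : S), γ • (c • s) = c • (γ • s) := by
    intro γ c s
    rw [← IsScalarTower.algebraMap_smul R c s, ← IsScalarTower.algebraMap_smul R c (γ • s),
      smul_comm]
  let act : Γ → (S →ₗ[k] S) := fun γ => 
    { toFun := fun s => γ • s
      map_add' := fun a b => smul_add _ _ _
      map_smul' := fun c s => hk γ c s }
  let p : Γ → Subspace k S := fun γ => LinearMap.ker (ψ'.toLinearMap - ψ.toLinearMap ∘ₗ act γ)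
  have hmem : ∀ γ s, s ∈ p γ ↔ ψ' s = ψ (γ • s) := by
    intro γ s
    rw [LinearMap.mem_ker, LinearMap.sub_apply, sub_eq_zero]
    rfl
  obtain ⟨γ, hγ⟩ := Subspace.exists_eq_top_of_iUnion_eq_univ (p := p) (by
    rw [Set.eq_univ_iff_forall]
    intro s
    rw [Set.mem_iUnion]
    obtain ⟨q, hq⟩ := Algebra.IsInvariant.charpoly_mem_lifts R S Γ s
    have h1 : (MulSemiringAction.charpoly Γ s).map ψ'.toRingHom = 
        (MulSemiringAction.charpoly Γ s).map ψ.toRingHom := by
      rw [← hq]
      change (q.map (algebraMap R S)).map _ = (q.map (algebraMap R S)).map _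
      rw [Polynomial.map_map, Polynomial.map_map]
      congr 1
      ext r
      exact h r
    have h2 : ((MulSemiringAction.charpoly Γ s).map ψ'.toRingHom).eval (ψ' s) = 0 := by
      rw [eval_map]
      change eval₂ _ (ψ'.toRingHom s) _ = 0
      rw [eval₂_hom, MulSemiringAction.eval_charpoly, map_zero]
    rw [h1, MulSemiringAction.charpoly_eq, Polynomial.map_prod, eval_prod, Finset.prod_eq_zero_iff] at h2
    obtain ⟨γ, -, hγ⟩ := h2
    refine ⟨γ, ?_⟩
    rw [SetLike.mem_coe, hmem]
    rw [Polynomial.map_sub, Polynomial.map_X, Polynomial.map_C, eval_sub, eval_X, eval_C, sub_eq_zero] at hγ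
    exact hγ)
  refine ⟨γ, fun s => (hmem γ s).1 ?_⟩
  rw [hγ]; trivial

end Conj

section Main

variable {Γ k R S : Type*} [Group Γ] [Finite Γ] [Field k] [CommRing R] [CommRing S]
  [Algebra k R] [Algebra k S] [Algebra R S] [IsScalarTower k R S] [MulSemiringAction Γ S]
  [SMulCommClass Γ R S] [Algebra.IsInvariant R S Γ]

theorem exists_lift [Infinite k] {E : Type*} [Field E] [CharZero E] [Algebra k E] 
    [Algebra.FiniteType R S] (hinj : Function.Injective (algebraMap R S)) (φ : R →ₐ[k] E) 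
    (hfree : ∀ γ : Γ, γ ≠ 1 → ∃ s : S, IsUnit (s - γ • s)) :
    ∃ E' : IntermediateField E (AlgebraicClosure E), FiniteDimensional E E' ∧ IsGalois E E' ∧ 
      Module.finrank E E' ≤ Nat.card Γ ∧ ∃ ψ : S →ₐ[k] E', 
        (∀ r, ψ (algebraMap R S r) = algebraMap E E' (φ r)) ∧ 
        ∃ g : (E' ≃ₐ[E] E') → Γ, (∀ σ s, σ (ψ s) = ψ (g σ • s)) ∧ ∀ σ, orderOf (g σ) = orderOf σ := by
  classical
  have hint : Algebra.IsIntegral R S := Algebra.IsInvariant.isIntegral R S Γ
  obtain ⟨ψ₀, hψ₀⟩ := exists_ringHom_extension hinj 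
    ((algebraMap E (AlgebraicClosure E)).comp φ.toRingHom)
  let ψ : S →ₐ[k] AlgebraicClosure E := 
    { toRingHom := ψ₀
      commutes' := fun c => by
        change ψ₀ (algebraMap k S c) = _
        rw [IsScalarTower.algebraMap_apply k R S, hψ₀]
        change algebraMap E (AlgebraicClosure E) (φ (algebraMap k R c)) = _
        rw [φ.commutes, ← IsScalarTower.algebraMap_apply] }
  have hψ : ∀ r, ψ (algebraMap R S r) = algebraMap E (AlgebraicClosure E) (φ r) := hψ₀
  set E' : IntermediateField E (AlgebraicClosure E) := IntermediateField.adjoin E (Set.range ψ) 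
    with hE'
  have hmem : ∀ s, ψ s ∈ E' := fun s => IntermediateField.subset_adjoin _ _ ⟨s, rfl⟩
  -- finite generation
  have hE'2 : ∃ G : Finset (AlgebraicClosure E), E' = IntermediateField.adjoin E (G : Set (AlgebraicClosure E)) := by
    obtain ⟨G, hG⟩ := (Algebra.FiniteType.out : (⊤ : Subalgebra R S).FG)
    refine ⟨G.image ψ, le_antisymm ?_ ?_⟩
    · rw [hE', IntermediateField.adjoin_le_iff]
      rintro _ ⟨s, rfl⟩
      have hs : s ∈ Algebra.adjoin R (G : Set S) := by rw [hG]; trivial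
      induction hs using Algebra.adjoin_induction with
      | mem x hx => 
        exact IntermediateField.subset_adjoin _ _ (by simpa using ⟨x, hx, rfl⟩)
      | algebraMap r => 
        rw [hψ]
        exact IntermediateField.algebraMap_mem _ _
      | add x y _ _ hx hy => rw [map_add]; exact add_mem hx hy
      | mul x y _ _ hx hy => rw [map_mul]; exact mul_mem hx hy
    · rw [IntermediateField.adjoin_le_iff]
      intro x hx
      rw [Finset.coe_image] at hx
      obtain ⟨s, -, rfl⟩ := hx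
      exact hmem s
  have hfd : FiniteDimensional E E' := by
    obtain ⟨G, hG⟩ := hE'2
    rw [hG]
    have : Finite (G : Set (AlgebraicClosure E)) := G.finite_toSet
    exact IntermediateField.finiteDimensional_adjoin (fun x _ => Algebra.IsIntegral.isIntegral x)
  have hconj : ∀ σ : AlgebraicClosure E →ₐ[E] AlgebraicClosure E, ∃ γ : Γ, ∀ s, σ (ψ s) = ψ (γ • s) := by
    intro σ
    apply exists_smul_eq (R := R) (k := k) ψ ((σ.restrictScalars k).comp ψ)
    intro r
    change σ (ψ (algebraMap R S r)) = _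
    rw [hψ, σ.commutes]
  have hnormal : Normal E E' := by
    rw [IntermediateField.normal_iff_forall_map_le]
    intro σ
    rw [hE', IntermediateField.adjoin_map, IntermediateField.adjoin_le_iff]
    rintro _ ⟨_, ⟨s, rfl⟩, rfl⟩
    obtain ⟨γ, hγ⟩ := hconj σ
    have h1 : ψ (γ • s) ∈ E' := hmem _
    rw [← hγ] at h1
    exact h1
  have hgal : IsGalois E E' := ⟨⟩
  let ψ' : S →ₐ[k] E' := 
    { toFun := fun s => ⟨ψ s, hmem s⟩
      map_one' := by apply Subtype.ext; exact map_one ψ
      map_mul' := fun a b => by apply Subtype.ext; exact map_mul ψ a b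
      map_zero' := by apply Subtype.ext; exact map_zero ψ
      map_add' := fun a b => by apply Subtype.ext; exact map_add ψ a b
      commutes' := fun c => by apply Subtype.ext; exact ψ.commutes c }
  have hψ'r : ∀ r, ψ' (algebraMap R S r) = algebraMap E E' (φ r) := by
    intro r; apply Subtype.ext; exact hψ r
  have hg : ∀ σ : E' ≃ₐ[E] E', ∃ γ : Γ, ∀ s, σ (ψ' s) = ψ' (γ • s) := by
    intro σ
    obtain ⟨γ, hγ⟩ := exists_smul_eq (Γ := Γ) (R := R) (k := k) ψ' ((σ.toAlgHom.restrictScalars k).comp ψ') (by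
      intro r
      change σ (ψ' (algebraMap R S r)) = _
      rw [hψ'r, σ.commutes])
    exact ⟨γ, hγ⟩
  choose g hg using hg
  -- an automorphism fixing the image of ψ' is trivial
  have hext : ∀ σ τ : E' ≃ₐ[E] E', (∀ s, σ (ψ' s) = τ (ψ' s)) → σ = τ := by
    intro σ τ hστ
    have h1 : ∀ z : AlgebraicClosure E, ∀ hz : z ∈ E', σ ⟨z, hz⟩ = τ ⟨z, hz⟩ := by
      intro z hz
      induction hz using IntermediateField.adjoin_induction with
      | mem x hx => obtain ⟨s, rfl⟩ := hx; exact hστ s
      | algebraMap x => 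
        have : (⟨algebraMap E (AlgebraicClosure E) x, IntermediateField.algebraMap_mem _ x⟩ : E') = 
          algebraMap E E' x := rfl
        rw [this, σ.commutes, τ.commutes]
      | add x y hx hy h1 h2 => 
        have : (⟨x + y, add_mem hx hy⟩ : E') = ⟨x, hx⟩ + ⟨y, hy⟩ := rfl
        rw [this, map_add, map_add, h1, h2]
      | inv x hx h1 => 
        have : (⟨x⁻¹, inv_mem hx⟩ : E') = (⟨x, hx⟩)⁻¹ := rfl
        rw [this, map_inv₀, map_inv₀, h1]
      | mul x y hx hy h1 h2 => 
        have : (⟨x * y, mul_mem hx hy⟩ : E') = ⟨x, hx⟩ * ⟨y, hy⟩ := rfl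
        rw [this, map_mul, map_mul, h1, h2]
    ext z
    rw [h1 z.1 z.2]
  have hfree' : ∀ γ : Γ, (∀ s, ψ' (γ • s) = ψ' s) → γ = 1 := by
    intro γ hγ
    by_contra hne
    obtain ⟨s, hs⟩ := hfree γ hne
    have h1 := hs.map ψ'
    rw [map_sub, hγ, sub_self] at h1
    exact not_isUnit_zero h1
  have hpow : ∀ (σ : E' ≃ₐ[E] E') (n : ℕ) s, (σ ^ n) (ψ' s) = ψ' (g σ ^ n • s) := by
    intro σ n
    induction n with
    | zero => intro s; simp
    | succ n ih => 
      intro s
      rw [pow_succ', pow_succ, AlgEquiv.mul_apply, ih, hg, smul_smul, mul_smul, smul_smul]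
      congr 2
      rw [← pow_succ', pow_succ]
  have hord : ∀ σ : E' ≃ₐ[E] E', orderOf (g σ) = orderOf σ := by
    intro σ
    apply Nat.dvd_antisymm
    · apply orderOf_dvd_of_pow_eq_one
      apply hfree'
      intro s
      rw [← hpow, pow_orderOf_eq_one]; rfl
    · apply orderOf_dvd_of_pow_eq_one
      apply hext
      intro s
      rw [hpow, pow_orderOf_eq_one, one_smul]; rfl
  refine ⟨E', hfd, hgal, ?_, ψ', hψ'r, g, hg, hord⟩
  rw [← IsGalois.card_aut_eq_finrank]
  apply Nat.card_le_card_of_injective g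
  intro σ τ hστ
  apply hext
  intro s
  rw [hg, hg, hστ]

end Main

end PGH
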