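import Mathlib
import Pool.Agent.Helper1_PGH.Lift
import Pool.Agent.Helper1_PGH.FF

open IntermediateField Polynomial
open scoped IntermediateField.algebraAdjoinAdjoin

namespace PGH

section Rel

/-- in a function field of one variable, any element is algebraic over `k[z]`, `z` transcendental -/
theorem exists_relation {k F : Type*} [Field k] [Field F] [Algebra k F] [FF k F] {z : F} 
    (hz : Transcendental k z) (s : F) : ∃ p : Polynomial (Polynomial k), p ≠ 0 ∧ 
      eval₂ (aeval z : Polynomial k →ₐ[k] F).toRingHom s p = 0 := by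
  have h1 : Algebra.IsAlgebraic k⟮z⟯ F := FF.isAlgebraic hz
  have h2 : Algebra.IsAlgebraic (Algebra.adjoin k {z}) F := 
    (IsFractionRing.comap_isAlgebraic_iff (K := k⟮z⟯)).2 h1
  obtain ⟨q, hq0, hq⟩ := h2.isAlgebraic s
  let f : Polynomial k →+* Algebra.adjoin k {z} := 
    (aeval (⟨z, Algebra.self_mem_adjoin_singleton k z⟩ : Algebra.adjoin k {z}) : 
      Polynomial k →ₐ[k] Algebra.adjoin k {z}).toRingHom
  have hf : ∀ r : Polynomial k, ((f r : Algebra.adjoin k {z}) : F) = aeval z r := by
    intro r
    exact (aeval_algebraMap_apply F 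
      (⟨z, Algebra.self_mem_adjoin_singleton k z⟩ : Algebra.adjoin k {z}) r).symm
  have hfs : Function.Surjective f := by
    intro ⟨a, ha⟩
    rw [Algebra.adjoin_singleton_eq_range_aeval] at ha
    obtain ⟨r, hr⟩ := ha
    exact ⟨r, Subtype.ext ((hf r).trans hr)⟩
  obtain ⟨p, rfl⟩ := Polynomial.map_surjective f hfs q
  refine ⟨p, ?_, ?_⟩
  · rintro rfl; simp at hq0
  · rw [aeval_def, eval₂_map] at hq
    rw [← hq]
    congr 1
    exact RingHom.ext (fun r => (hf r).symm)

end Rel

@[simp] theorem coe_actF {k M Γ : Type*} [Field k] [Field M] [Algebra k M] [Group Γ] 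
    [MulSemiringAction Γ M] [SMulCommClass Γ k M] (F : IntermediateField k M) 
    (hF : ∀ γ : Γ, ∀ z ∈ F, γ • z ∈ F) (γ : Γ) (z : F) :
    ((actF F hF γ z : F) : M) = γ • (z : M) := rfl

section Sub

variable {k M S : Type*} [Field k] [IsAlgClosed k] [Field M] [Algebra k M] [CommRing S] [Algebra k S]
  [Algebra S M] [IsScalarTower k S M]

/-- Elements of `S` lying in the subfield `F`. -/
def SF (S : Type*) [CommRing S] [Algebra k S] [Algebra S M] [IsScalarTower k S M] 
    (F : IntermediateField k M) : Subalgebra k S :=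
  F.toSubalgebra.comap (IsScalarTower.toAlgHom k S M)

theorem mem_SF {F : IntermediateField k M} {s : S} : s ∈ SF S F ↔ algebraMap S M s ∈ F := Iff.rfl

variable (hj : Function.Injective (algebraMap S M)) (F : IntermediateField k M) [FF k F]
  {E' : Type*} [Field E'] [Algebra k E'] (ψ : S →ₐ[k] E')

include hj in
theorem const_of_kernel {s : S} (hs : s ∈ SF S F) (hs0 : s ≠ 0) (hψs : ψ s = 0) {z : S} 
    (hz : z ∈ SF S F) : ∃ c : k, ψ z = algebraMap k E' c := by
  by_contra hcon
  push Not at hcon
  have hzt : Transcendental k (ψ z) := by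
    rw [transcendental_iff]
    intro c hc
    exact hcon c hc.symm
  have hzt' : Transcendental k (⟨algebraMap S M z, hz⟩ : F) := by
    intro halg
    apply hzt
    obtain ⟨p, hp0, hp⟩ := halg
    refine ⟨p, hp0, ?_⟩
    have h1 : aeval (algebraMap S M z) p = 0 := by
      have := congrArg (algebraMap F M) hp
      rwa [← aeval_algebraMap_apply, map_zero] at this
    have h2 : aeval z p = 0 := by
      apply hj
      rw [← aeval_algebraMap_apply, h1, map_zero]
    rw [aeval_algHom_apply, h2, map_zero]
  obtain ⟨p, hp0, hp⟩ := exists_relation hzt' (⟨algebraMap S M s, hs⟩ : F)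
  have hp1 : eval₂ (aeval z : Polynomial k →ₐ[k] S).toRingHom s p = 0 := by
    apply hj
    rw [map_zero, Polynomial.hom_eval₂]
    have := congrArg (algebraMap F M) hp
    rw [map_zero, Polynomial.hom_eval₂] at this
    rw [← this]
    congr 1
    ext r
    · simp [← IsScalarTower.algebraMap_apply]
    · simp
  let _ : Algebra (Polynomial k) S := (aeval z : Polynomial k →ₐ[k] S).toRingHom.toAlgebra
  have halg : IsAlgebraic (Polynomial k) s := ⟨p, hp0, hp1⟩
  have hdom : IsDomain S := hj.isDomain
  obtain ⟨r, hr0, hr⟩ := halg.exists_nonzero_dvd (mem_nonZeroDivisors_of_ne_zero hs0)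
  obtain ⟨w, hw⟩ := hr
  apply hzt
  refine ⟨r, hr0, ?_⟩
  have h1 := congrArg ψ hw
  rw [map_mul, hψs, zero_mul] at h1
  change ψ (aeval z r) = 0 at h1
  rwa [← aeval_algHom_apply] at h1

include hj in
theorem exists_extend (hfrac : ∀ f ∈ F, ∃ a b : S, a ∈ SF S F ∧ b ∈ SF S F ∧ 
      f = algebraMap S M a / algebraMap S M b)
    (hinj : ∀ s ∈ SF S F, ψ s = 0 → s = 0) : 
    ∃ y : F →ₐ[k] E', ∀ s : S, ∀ hs : algebraMap S M s ∈ F, y ⟨_, hs⟩ = ψ s := by
  let f : SF S F →ₐ[k] F := 
    { toFun := fun s => ⟨algebraMap S M s.1, s.2⟩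
      map_one' := by apply Subtype.ext; exact map_one (algebraMap S M)
      map_mul' := fun a b => by apply Subtype.ext; exact map_mul (algebraMap S M) _ _
      map_zero' := by apply Subtype.ext; exact map_zero (algebraMap S M)
      map_add' := fun a b => by apply Subtype.ext; exact map_add (algebraMap S M) _ _
      commutes' := fun c => by apply Subtype.ext; exact (IsScalarTower.algebraMap_apply k S M c).symm }
  let _ : Algebra (SF S F) F := f.toRingHom.toAlgebra
  have hfi : Function.Injective (algebraMap (SF S F) F) := by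
    intro a b hab
    apply Subtype.ext
    apply hj
    exact congrArg Subtype.val hab
  have htower : IsScalarTower k (SF S F) F := IsScalarTower.of_algebraMap_eq (fun c => 
    (f.commutes c).symm)
  have : FaithfulSMul (SF S F) F := (faithfulSMul_iff_algebraMap_injective _ _).2 hfi
  have hfr : IsFractionRing (SF S F) F := IsFractionRing.of_field _ _ (by
    intro z
    obtain ⟨a, b, ha, hb, hab⟩ := hfrac z.1 z.2
    refine ⟨⟨a, ha⟩, ⟨b, hb⟩, ?_⟩
    apply Subtype.ext
    exact hab)
  let g : SF S F →ₐ[k] E' := ψ.comp (SF S F).val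
  have hg : Function.Injective g := by
    rw [injective_iff_map_eq_zero]
    intro a ha
    exact Subtype.ext (hinj a.1 a.2 ha)
  refine ⟨IsFractionRing.liftAlgHom (g := g) hg, fun s hs => ?_⟩
  have : (⟨algebraMap S M s, hs⟩ : F) = algebraMap (SF S F) F ⟨s, hs⟩ := rfl
  rw [this, IsFractionRing.coe_liftAlgHom]
  exact IsFractionRing.lift_algebraMap (g := g.toRingHom) hg ⟨s, hs⟩

end Sub

end PGH
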