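import Mathlib
import Pool.Agent.Helper1_PGH.Lift2
import Pool.Agent.Helper1_PGH.Comp
import Pool.Agent.Helper1_PGH.Core

open IntermediateField Polynomial
open scoped IntermediateField.algebraAdjoinAdjoin

namespace PGH

section Family

variable {k M Γ ι : Type*} [Field k] [IsAlgClosed k] [CharZero k] [Field M] [Algebra k M] [Group Γ] [Finite Γ]
  [MulSemiringAction Γ M] [SMulCommClass Γ k M] [Fintype ι]

variable {R S : Type*} [CommRing R] [CommRing S]
  [Algebra k R] [Algebra k S] [Algebra R S] [IsScalarTower k R S] [MulSemiringAction Γ S]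
  [SMulCommClass Γ R S] [Algebra.IsInvariant R S Γ] [Algebra.FiniteType R S]
  [Algebra S M] [IsScalarTower k S M]

/-- The lifting package. -/
structure LiftPack (F : ι → IntermediateField k M) (hF : ∀ i, ∀ γ : Γ, ∀ z ∈ F i, γ • z ∈ F i) 
    {E : Type*} [Field E] [Algebra k E] (φ : R →ₐ[k] E) 
    (E' : Type*) [Field E'] [Algebra E E'] [Algebra k E'] where
  ψ : S →ₐ[k] E'
  ψ_R : ∀ r, ψ (algebraMap R S r) = algebraMap E E' (φ r)
  I : Set ι
  y : ∀ i : I, F i →ₐ[k] E'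
  g : (E' ≃ₐ[E] E') → Γ
  y_eq : ∀ (i : I) (s : S) (hs : algebraMap S M s ∈ F i), y i ⟨_, hs⟩ = ψ s
  const : ∀ i ∉ I, ∀ s ∈ SF S (F i), ∃ c : k, ψ s = algebraMap k E' c
  order : ∀ σ, orderOf (g σ) = orderOf σ
  equiv : ∀ σ (i : I) f, σ (y i f) = y i (actF (F i) (hF i) (g σ) f)
  triv : ∀ σ, ∀ i ∉ I, ∀ z : F i, actF (F i) (hF i) (g σ) z = z

theorem exists_liftPack (F : ι → IntermediateField k M) 
    (hF : ∀ i, ∀ γ : Γ, ∀ z ∈ F i, γ • z ∈ F i) [∀ i, FF k (F i)] 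
    (hinj : Function.Injective (algebraMap R S)) (hj : Function.Injective (algebraMap S M))
    (hequiv : ∀ (γ : Γ) (s : S), algebraMap S M (γ • s) = γ • algebraMap S M s)
    (hfrac : ∀ i, ∀ f ∈ F i, ∃ a b : S, a ∈ SF S (F i) ∧ b ∈ SF S (F i) ∧ 
      f = algebraMap S M a / algebraMap S M b)
    (hfaith : ∀ γ : Γ, γ ≠ 1 → ∃ i, ∃ a : F i, actF (F i) (hF i) γ a ≠ a)
    (hunit : ∀ γ : Γ, ∀ i, (∃ a : F i, actF (F i) (hF i) γ a ≠ a) → 
      ∃ s ∈ SF S (F i), IsUnit (s - γ • s))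
    {E : Type*} [Field E] [CharZero E] [Algebra k E] (φ : R →ₐ[k] E) :
    ∃ E' : IntermediateField E (AlgebraicClosure E), FiniteDimensional E E' ∧ IsGalois E E' ∧ 
      Module.finrank E E' ≤ Nat.card Γ ∧ Nonempty (LiftPack (S := S) F hF φ E') := by
  classical
  obtain ⟨E', h1, h2, h3, ψ, hψ, g, hg, hord⟩ := exists_lift (Γ := Γ) hinj φ (by
    intro γ hγ
    obtain ⟨i, hi⟩ := hfaith γ hγ
    obtain ⟨s, -, hs⟩ := hunit γ i hi
    exact ⟨s, hs⟩)
  refine ⟨E', h1, h2, h3, ?_⟩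
  let I : Set ι := {i | ∀ s ∈ SF S (F i), ψ s = 0 → s = 0}
  have hy : ∀ i : I, ∃ y : F i →ₐ[k] E', ∀ s : S, ∀ hs : algebraMap S M s ∈ F i, y ⟨_, hs⟩ = ψ s := 
    fun i => exists_extend hj (F i) ψ (hfrac i) i.2
  choose y hy using hy
  refine ⟨ψ, hψ, I, y, g, hy, ?_, hord, ?_, ?_⟩
  · intro i hi s hs
    have : ∃ t ∈ SF S (F i), ψ t = 0 ∧ t ≠ 0 := by
      by_contra hcon
      push Not at hcon
      exact hi hcon
    obtain ⟨t, ht, ht0, ht1⟩ := this
    exact const_of_kernel hj (F i) ψ ht ht1 ht0 hs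
  · intro σ i f
    obtain ⟨a, b, ha, hb, hab⟩ := hfrac i f f.2
    have ha' : algebraMap S M a ∈ F i := ha
    have hb' : algebraMap S M b ∈ F i := hb
    have hf : f = (⟨algebraMap S M a, ha'⟩ : F i) / (⟨algebraMap S M b, hb'⟩ : F i) := by
      apply Subtype.ext; exact hab
    have key : ∀ s : S, ∀ hs : algebraMap S M s ∈ F i, 
        σ (y i ⟨_, hs⟩) = y i (actF (F i) (hF i) (g σ) ⟨_, hs⟩) := by
      intro s hs
      have h4 : algebraMap S M (g σ • s) ∈ F i := by rw [hequiv]; exact hF i _ _ hs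
      have h5 : actF (F i) (hF i) (g σ) ⟨_, hs⟩ = ⟨_, h4⟩ := by
        apply Subtype.ext; exact (hequiv _ _).symm
      rw [h5, hy, hy, hg]
    rw [hf, map_div₀, map_div₀, map_div₀, map_div₀, key, key]
  · intro σ i hi z
    by_contra hne
    obtain ⟨s, hs, hs'⟩ := hunit (g σ) i ⟨z, hne⟩
    have : ∃ t ∈ SF S (F i), ψ t = 0 ∧ t ≠ 0 := by
      by_contra hcon
      push Not at hcon
      exact hi hcon
    obtain ⟨t, ht, ht0, ht1⟩ := this
    obtain ⟨c, hc⟩ := const_of_kernel hj (F i) ψ ht ht1 ht0 hs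
    have h4 := hs'.map ψ
    have h5 : σ (ψ s) = ψ s := by
      rw [hc, IsScalarTower.algebraMap_apply k E E', σ.commutes]
    rw [map_sub, ← hg, h5, sub_self] at h4
    exact not_isUnit_zero h4

end Family

end PGH
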