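import Mathlib
import Pool.Agent.Helper1_PGH.Family

open IntermediateField Polynomial
open scoped IntermediateField.algebraAdjoinAdjoin

namespace PGH

section Bound

variable {k M Γ ι : Type*} [Field k] [IsAlgClosed k] [CharZero k] [Field M] [Algebra k M] [Group Γ] [Finite Γ]
  [MulSemiringAction Γ M] [SMulCommClass Γ k M] [Fintype ι]
variable {R S : Type*} [CommRing R] [CommRing S]
  [Algebra k R] [Algebra k S] [Algebra R S] [IsScalarTower k R S] [MulSemiringAction Γ S]
  [SMulCommClass Γ R S] [Algebra.IsInvariant R S Γ] [Algebra.FiniteType R S]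
  [Algebra S M] [IsScalarTower k S M]

open Classical in
theorem pack_crit (F : ι → IntermediateField k M) [∀ i, FF k (F i)]
    (hF : ∀ i, ∀ γ : Γ, ∀ z ∈ F i, γ • z ∈ F i) 
    (μ : ι → ℕ) (lam : ∀ i, Place k (F i) → ℕ) (hcrit : Crit F hF μ lam)
    {E : Type*} [Field E] [Algebra k E] (φ : R →ₐ[k] E) 
    (E' : Type*) [Field E'] [Algebra E E'] [Algebra k E'] 
    (P : LiftPack (S := S) F hF φ E') [Fintype P.I] (σ : E' ≃ₐ[E] E') (ζ : k) (hζ : IsPrimitiveRoot ζ (orderOf σ)) 
    (v : ∀ i : P.I, Place k (F i)) (e : P.I → ℕ) 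
    (hve : ∀ i : P.I, (∃ a, actF (F i) (hF i) (P.g σ) a ≠ a) → 0 < e i ∧ 
        (∀ a, (v i).ord (actF (F i) (hF i) (P.g σ) a) = (v i).ord a) ∧
        ∀ t, (v i).ord t = 1 → (v i).Ge 1 (actF (F i) (hF i) (P.g σ) t / t - 
          algebraMap k (F i) (ζ ^ e i))) :
    orderOf σ * ∑ i ∈ Finset.univ.filter (fun i : P.I => ∃ a, actF (F i) (hF i) (P.g σ) a ≠ a), μ i ≤ 
        ∑ i ∈ Finset.univ.filter (fun i : P.I => ∃ a, actF (F i) (hF i) (P.g σ) a ≠ a), 
          (μ i + lam i (v i)) * e i := by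
  by_cases hg : P.g σ = 1
  · have h0 : Finset.univ.filter (fun i : P.I => ∃ a, actF (F i) (hF i) (P.g σ) a ≠ a) = ∅ := by
      rw [Finset.filter_eq_empty_iff]
      rintro i - ⟨a, ha⟩
      apply ha
      apply Subtype.ext
      rw [coe_actF, hg, one_smul]
    rw [h0]; simp
  · let v' : ∀ i, Place k (F i) := fun i => if h : i ∈ P.I then v ⟨i, h⟩ else 
      Classical.choice (exists_place k (F i))
    let e' : ι → ℕ := fun i => if h : i ∈ P.I then e ⟨i, h⟩ else 0
    have hv' : ∀ i : P.I, v' i = v i := fun i => dif_pos i.2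
    have he' : ∀ i : P.I, e' i = e i := fun i => dif_pos i.2
    have h1 := hcrit (P.g σ) ζ hg (by rw [P.order]; exact hζ) v' e' (by
      intro i hi
      have hiI : i ∈ P.I := by
        by_contra hcon
        obtain ⟨a, ha⟩ := hi
        exact ha (P.triv σ i hcon a)
      have := hve ⟨i, hiI⟩ hi
      rw [hv' ⟨i, hiI⟩, he' ⟨i, hiI⟩]
      exact this)
    rw [P.order] at h1
    have hsum : ∀ a : ι → ℕ, 
        ∑ i ∈ Finset.univ.filter (fun i : P.I => ∃ a, actF (F i) (hF i) (P.g σ) a ≠ a), a i = 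
        ∑ i ∈ Finset.univ.filter (fun i : ι => ∃ a, actF (F i) (hF i) (P.g σ) a ≠ a), a i := by
      intro a
      refine Finset.sum_bij (fun i _ => i.1) ?_ ?_ ?_ ?_
      · intro i hi
        rw [Finset.mem_filter] at hi ⊢
        exact ⟨Finset.mem_univ _, hi.2⟩
      · intro i _ j _ hij
        exact Subtype.ext hij
      · intro i hi
        rw [Finset.mem_filter] at hi
        have hiI : i ∈ P.I := by
          by_contra hcon
          obtain ⟨a, ha⟩ := hi.2
          exact ha (P.triv σ i hcon a)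
        exact ⟨⟨i, hiI⟩, Finset.mem_filter.2 ⟨Finset.mem_univ _, hi.2⟩, rfl⟩
      · intro i _; rfl
    rw [← hsum, ← hsum] at h1
    refine h1.trans (le_of_eq ?_)
    apply Finset.sum_congr rfl
    intro i _
    rw [hv', he']

variable {L E E' : Type*} [Field L] [Field E] [Algebra k L] [Algebra L E] [Algebra k E] 
  [IsScalarTower k L E] [IsAlgClosed L] [CharZero L] [FF L E]
  [Field E'] [Algebra E E'] [Algebra k E'] [Algebra L E'] [IsScalarTower k E E']
  [IsScalarTower L E E'] [IsScalarTower k L E'] [FiniteDimensional E E'] [IsGalois E E']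

theorem pack_bound (F : ι → IntermediateField k M) [∀ i, FF k (F i)]
    (hF : ∀ i, ∀ γ : Γ, ∀ z ∈ F i, γ • z ∈ F i) 
    (μ : ι → ℕ) (lam : ∀ i, Place k (F i) → ℕ) (hcrit : Crit F hF μ lam)
    (x h f : ∀ i, F i) (hx : ∀ i, Transcendental k (x i)) (N : ℕ)
    (hN : ∀ i, ∀ v : Place k (F i), - v.ord (f i) + max 0 (- v.ord (h i)) ≤ 
      N * (μ i * dord (x i) v - lam i v))
    (φ : R →ₐ[k] E) (P : LiftPack (S := S) F hF φ E') 
    (D : Derivation ℤ E E) (D' : Derivation ℤ E' E') 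
    (hDD' : ∀ a, D' (algebraMap E E' a) = algebraMap E E' (D a)) (hPL : PresL L D)
    (hDk : ∀ c : k, D (algebraMap k E c) = 0)
    (c : Place L E → ℕ) (hc : ∀ P, DGe P D (-(c P : ℤ))) (K : ℕ) 
    (hK : ∀ s : Finset (Place L E'), ∑ Q ∈ s, c (placeBelow E Q) ≤ K) (i : P.I) 
    (hi : D' (P.y i (x i)) ≠ 0) : 
    ht L (P.y i (h i)) ≤ N * (∑ i, μ i) * (Module.finrank E E' * K) := by
  classical
  have : Fintype P.I := Fintype.ofFinite _
  have h1 := core_count (k := k) (L := L) (E := E) (E' := E') (F := fun i : P.I => F i) P.y 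
    (fun σ i => actF (F i) (hF i) (P.g σ)) P.equiv (fun i => μ i) (fun i => lam i) 
    (fun i => x i) (fun i => h i) (fun i => f i) (fun i => hx i) N (fun i => hN i) 
    (fun σ ζ hζ v e hve => pack_crit F hF μ lam hcrit φ E' P σ ζ hζ v e hve) D D' hDD' hPL
    (fun c => by rw [IsScalarTower.algebraMap_apply k E E', hDD', hDk, map_zero]) c hc K hK
  have h2 : ht L (P.y i (h i)) ≤ 
      ∑ j ∈ Finset.univ.filter (fun j : P.I => D' (P.y j (x j)) ≠ 0), ht L (P.y j (h j)) := 
    Finset.single_le_sum (f := fun j : P.I => ht L (P.y j (h j))) (fun _ _ => Nat.zero_le _) 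
      (Finset.mem_filter.2 ⟨Finset.mem_univ _, hi⟩)
  refine (h2.trans (le_of_eq_of_le ?_ h1)).trans ?_
  · congr! 
  apply Nat.mul_le_mul_right
  apply Nat.mul_le_mul_left
  calc ∑ j ∈ Finset.univ.filter (fun j : P.I => D' (P.y j (x j)) ≠ 0), μ j ≤ ∑ j : P.I, μ j := 
        Finset.sum_le_sum_of_subset (Finset.filter_subset _ _)
    _ ≤ ∑ i, μ i := by
        have h3 := Finset.sum_map (Finset.univ : Finset P.I) 
          (Function.Embedding.subtype (fun i => i ∈ P.I)) μ
        refine (le_of_eq h3.symm).trans ?_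
        exact Finset.sum_le_sum_of_subset (Finset.subset_univ _)

end Bound

end PGH
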