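import Mathlib
import Pool.Agent.Helper1_PGH.Bound
import Pool.Agent.Helper1_PGH.Height

open IntermediateField Polynomial
open scoped IntermediateField.algebraAdjoinAdjoin

namespace PGH

theorem exists_deriv_extend {E E' : Type*} [Field E] [Field E'] [Algebra E E'] [CharZero E] 
    [FiniteDimensional E E'] (D : Derivation ℤ E E) : 
    ∃ D' : Derivation ℤ E' E', ∀ a, D' (algebraMap E E' a) = algebraMap E E' (D a) := by
  have : Algebra.FormallyEtale E E' := Algebra.FormallyEtale.of_isSeparable E E'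
  exact exists_deriv_ext ℤ E E' E' ((Algebra.linearMap E E').compDer D)

section Steps

variable {k M Γ ι : Type*} [Field k] [IsAlgClosed k] [CharZero k] [Field M] [Algebra k M] [Group Γ] [Finite Γ]
  [MulSemiringAction Γ M] [SMulCommClass Γ k M] [Fintype ι]
variable {R S : Type*} [CommRing R] [CommRing S]
  [Algebra k R] [Algebra k S] [Algebra R S] [IsScalarTower k R S] [MulSemiringAction Γ S]
  [SMulCommClass Γ R S] [Algebra.IsInvariant R S Γ] [Algebra.FiniteType R S]
  [Algebra S M] [IsScalarTower k S M]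

section One

variable {E E' : Type*} [Field E] [Algebra k E] [FF k E]
  [Field E'] [Algebra E E'] [Algebra k E'] [IsScalarTower k E E'] [FiniteDimensional E E'] 
  [IsGalois E E']

theorem step_one_aux (F : ι → IntermediateField k M) [∀ i, FF k (F i)]
    (hF : ∀ i, ∀ γ : Γ, ∀ z ∈ F i, γ • z ∈ F i) 
    (μ : ι → ℕ) (lam : ∀ i, Place k (F i) → ℕ) (hcrit : Crit F hF μ lam)
    (x h f : ∀ i, F i) (hx : ∀ i, Transcendental k (x i)) (N : ℕ)
    (hN : ∀ i, ∀ v : Place k (F i), - v.ord (f i) + max 0 (- v.ord (h i)) ≤ 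
      N * (μ i * dord (x i) v - lam i v)) (hS : ι → S) (hhS : ∀ i, algebraMap S M (hS i) = h i)
    (φ : R →ₐ[k] E) (P : LiftPack (S := S) F hF φ E') (G : ℕ) (hG : Module.finrank E E' ≤ G)
    (D : Derivation ℤ E E) {t : E} (hDt : D t ≠ 0)
    (hDk : ∀ c : k, D (algebraMap k E c) = 0)
    (c : Place k E → ℕ) (sc : Finset (Place k E)) (hsc : ∀ P ∉ sc, c P = 0)
    (hc : ∀ P, DGe P D (-(c P : ℤ))) 
    (w : Place k E → E) (hw : ∀ P : Place k E, P.ord (w P) < 0) (a : R) 
    (p : Polynomial (MvPolynomial ι k)) (hp : IsUnit (MvPolynomial.aeval hS p.leadingCoeff))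
    (hpa : (p.map (MvPolynomial.aeval hS).toRingHom).eval (algebraMap R S a) = 0) :
    ht k (φ a) ≤ cx' p * (Fintype.card ι * 
      (N * (∑ i, μ i) * (G * ((∑ P ∈ sc, c P * ht k (w P)) * G)))) := by
  have hFF : FF k E' := FF.extension k E E'
  have hch : CharZero E := charZero_of_injective_algebraMap (algebraMap k E).injective
  have hch' : CharZero E' := charZero_of_injective_algebraMap (algebraMap k E').injective
  obtain ⟨D', hDD'⟩ := exists_deriv_extend (E' := E') D
  have hPL : PresL k D := fun c => ⟨0, by rw [hDk, map_zero]⟩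
  have hDk' : ∀ c : k, D' (algebraMap k E' c) = 0 := fun c => by
    rw [IsScalarTower.algebraMap_apply k E E', hDD', hDk, map_zero]
  -- heights of ψ (h i)
  have hht : ∀ i, ht k (P.ψ (hS i)) ≤ 
      N * (∑ i, μ i) * (G * ((∑ P ∈ sc, c P * ht k (w P)) * G)) := by
    intro i
    by_cases hi : i ∈ P.I
    · have hmem : algebraMap S M (hS i) ∈ F i := by rw [hhS]; exact (h i).2
      have h1 : P.ψ (hS i) = P.y ⟨i, hi⟩ (h i) := by
        rw [← P.y_eq ⟨i, hi⟩ (hS i) hmem]
        congr 1
        exact Subtype.ext (hhS i)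
      rw [h1]
      have h2 : D' (P.y ⟨i, hi⟩ (x i)) ≠ 0 := by
        intro h0
        -- then D' = 0
        have hty : Transcendental k (P.y ⟨i, hi⟩ (x i)) := algHom_transcendental _ (hx i)
        have hal := FF.isAlgebraic hty
        have h3 : D' (algebraMap E E' t) = 0 := 
          deriv_zero_of_isAlgebraic_adjoin (AlgHom.id k E') D' hDk' h0 (hal.isAlgebraic _)
        rw [hDD'] at h3
        exact hDt (by simpa using h3)
      refine (pack_bound F hF μ lam hcrit x h f hx N hN φ P D D' hDD' hPL hDk c hc _ 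
        (sum_weight_le c sc hsc w hw) ⟨i, hi⟩ h2).trans ?_
      gcongr
    · have hmem : hS i ∈ SF S (F i) := by rw [mem_SF, hhS]; exact (h i).2
      obtain ⟨c, hc⟩ := P.const i hi (hS i) hmem
      rw [hc, ht_const]
      exact Nat.zero_le _
  -- the relation
  have h0 : MvPolynomial.aeval (fun i => P.ψ (hS i)) p.leadingCoeff ≠ 0 := by
    have h1 : MvPolynomial.aeval (fun i => P.ψ (hS i)) p.leadingCoeff = 
        P.ψ (MvPolynomial.aeval hS p.leadingCoeff) := 
      (MvPolynomial.comp_aeval_apply hS P.ψ p.leadingCoeff).symm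
    rw [h1]
    exact (hp.map P.ψ).ne_zero
  have h1 : (p.map (MvPolynomial.aeval (fun i => P.ψ (hS i))).toRingHom).eval (P.ψ (algebraMap R S a)) = 0 := by
    have h2 := congrArg P.ψ hpa
    rw [map_zero] at h2
    rw [← h2]
    change _ = P.ψ.toRingHom _
    rw [eval_map, eval_map, Polynomial.hom_eval₂]
    congr 1
    ext c
    · simp
    · simp
  have h2 := ht_root_le' p (fun i => P.ψ (hS i)) (P.ψ (algebraMap R S a)) h0 h1
  rw [P.ψ_R, ht_extension k E E'] at h2
  have h3 : ht k (φ a) ≤ Module.finrank E E' * ht k (φ a) := 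
    Nat.le_mul_of_pos_left _ Module.finrank_pos
  refine (h3.trans h2).trans ?_
  apply Nat.mul_le_mul_left
  calc ∑ i, ht k (P.ψ (hS i)) ≤ 
        ∑ i : ι, N * (∑ i, μ i) * (G * ((∑ P ∈ sc, c P * ht k (w P)) * G)) := 
        Finset.sum_le_sum (fun i _ => hht i)
    _ = _ := by rw [Finset.sum_const, Finset.card_univ, smul_eq_mul]

end One

section Two

variable {L E E' : Type*} [Field L] [Field E] [Algebra k L] [Algebra L E] [Algebra k E] 
  [IsScalarTower k L E] [IsAlgClosed L] [CharZero L] [FF L E]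
  [Field E'] [Algebra E E'] [Algebra k E'] [Algebra L E'] [IsScalarTower k E E']
  [IsScalarTower L E E'] [IsScalarTower k L E'] [FiniteDimensional E E'] [IsGalois E E']

omit [Algebra k S] [IsScalarTower k R S] in
/-- If `φ r` is congruent to constants of `k` at a place, then `ψ s` cannot be a constant of `L` 
outside of `k`, for `s` integral over `R`. -/
theorem mem_k_of_mem_L (φ : R →ₐ[k] E) (ψ : S →+* E') 
    (hψ : ∀ r, ψ (algebraMap R S r) = algebraMap E E' (φ r)) (P₀ : Place L E) (x₀ : R →ₐ[k] k)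
    (hP₀ : ∀ r, P₀.Ge 1 (φ r - algebraMap k E (x₀ r))) (s : S) (hs : IsIntegral R s) (l : L)
    (hl : algebraMap L E' l = ψ s) : ∃ c : k, algebraMap k L c = l := by
  obtain ⟨Q, e, he, hQ⟩ := exists_place_above L E E' P₀
  obtain ⟨q, hq, hqs⟩ := hs
  have hres : ∀ r, Q.Ge 1 (ψ (algebraMap R S r) - algebraMap k E' (x₀ r)) := by
    intro r
    have h1 := hQ.ge (hP₀ r)
    rw [map_sub] at h1
    have h2 : ψ (algebraMap R S r) - algebraMap k E' (x₀ r) = 
        (IsScalarTower.toAlgHom L E E') (φ r) - (IsScalarTower.toAlgHom L E E') (algebraMap k E (x₀ r)) := by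
      rw [hψ]
      change _ = algebraMap E E' _ - algebraMap E E' _
      rw [← IsScalarTower.algebraMap_apply]
    rw [h2]
    exact Place.Ge.mono h1 (by omega)
  have hψs : Q.Ge 0 (ψ s) := by rw [← hl]; exact Q.ge_const l
  -- evaluate
  have h1 : Q.Ge 1 (algebraMap L E' (eval₂ ((algebraMap k L).comp x₀.toRingHom) l q)) := by
    have h2 : ∑ j ∈ Finset.range (q.natDegree + 1), ψ (algebraMap R S (q.coeff j)) * (ψ s) ^ j = 0 := by
      have h3 := congrArg ψ hqs
      rw [map_zero, Polynomial.eval₂_eq_sum_range, map_sum] at h3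
      rw [← h3]
      apply Finset.sum_congr rfl
      intro j _
      rw [map_mul, map_pow]
    have h3 : algebraMap L E' (eval₂ ((algebraMap k L).comp x₀.toRingHom) l q) = 
        ∑ j ∈ Finset.range (q.natDegree + 1), algebraMap k E' (x₀ (q.coeff j)) * (ψ s) ^ j := by
      rw [Polynomial.eval₂_eq_sum_range, map_sum]
      apply Finset.sum_congr rfl
      intro j _
      rw [map_mul, map_pow, hl, RingHom.comp_apply, ← IsScalarTower.algebraMap_apply]
      rfl
    rw [h3, ← sub_zero (∑ j ∈ _, _), ← h2, ← Finset.sum_sub_distrib]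
    apply Place.Ge.sum
    intro j _
    rw [← sub_mul, ← neg_sub, neg_mul]
    exact ((hres _).mul' (hψs.pow j) (by simp)).neg
  have h2 : eval₂ ((algebraMap k L).comp x₀.toRingHom) l q = 0 := by
    by_contra hne
    exact Q.not_ge_one_const hne h1
  apply mem_range_of_isAlgebraic
  have h3 : IsIntegral k l := ⟨q.map x₀.toRingHom, hq.map _, by rw [eval₂_map]; exact h2⟩
  exact h3.isAlgebraic

theorem step_two_aux (F : ι → IntermediateField k M) [∀ i, FF k (F i)]
    (hF : ∀ i, ∀ γ : Γ, ∀ z ∈ F i, γ • z ∈ F i) 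
    (μ : ι → ℕ) (lam : ∀ i, Place k (F i) → ℕ) (hcrit : Crit F hF μ lam)
    (x h f : ∀ i, F i) (hx : ∀ i, Transcendental k (x i)) (hh : ∀ i, Transcendental k (h i)) (N : ℕ)
    (hN : ∀ i, ∀ v : Place k (F i), - v.ord (f i) + max 0 (- v.ord (h i)) ≤ 
      N * (μ i * dord (x i) v - lam i v)) (hS : ι → S) (hhS : ∀ i, algebraMap S M (hS i) = h i)
    (φ : R →ₐ[k] E) (P : LiftPack (S := S) F hF φ E') 
    (D : Derivation ℤ E E) (hPL : PresL L D)
    (hDk : ∀ c : k, D (algebraMap k E c) = 0) (hD0 : ∀ P : Place L E, DGe P D 0)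
    (P₀ : Place L E) (x₀ : R →ₐ[k] k) (hP₀ : ∀ r, P₀.Ge 1 (φ r - algebraMap k E (x₀ r))) (a : R) 
    (p : Polynomial (MvPolynomial ι k)) (hp : IsUnit (MvPolynomial.aeval hS p.leadingCoeff))
    (hpa : (p.map (MvPolynomial.aeval hS).toRingHom).eval (algebraMap R S a) = 0) :
    D (φ a) = 0 := by
  have hFF : FF L E' := FF.extension L E E'
  have hint : Algebra.IsIntegral R S := Algebra.IsInvariant.isIntegral R S Γ
  have hch : CharZero E := charZero_of_injective_algebraMap (algebraMap k E).injective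
  have hch' : CharZero E' := charZero_of_injective_algebraMap (algebraMap k E').injective
  obtain ⟨D', hDD'⟩ := exists_deriv_extend (E' := E') D
  have hDk' : ∀ c : k, D' (algebraMap k E' c) = 0 := fun c => by
    rw [IsScalarTower.algebraMap_apply k E E', hDD', hDk, map_zero]
  have hconst : ∀ i, D' (P.ψ (hS i)) = 0 := by
    intro i
    by_cases hi : i ∈ P.I
    · have hmem : algebraMap S M (hS i) ∈ F i := by rw [hhS]; exact (h i).2
      have h1 : P.ψ (hS i) = P.y ⟨i, hi⟩ (h i) := by
        rw [← P.y_eq ⟨i, hi⟩ (hS i) hmem]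
        congr 1
        exact Subtype.ext (hhS i)
      rw [h1]
      have h2 : D' (P.y ⟨i, hi⟩ (x i)) = 0 := by
        by_contra h0
        have h3 := pack_bound F hF μ lam hcrit x h f hx N hN φ P D D' hDD' hPL hDk (fun _ => 0) 
          (by simpa using hD0) 0 (by simp) ⟨i, hi⟩ h0
        have h4 : ht L (P.y ⟨i, hi⟩ (h i)) = 0 := by simpa using h3
        have h5 : ¬ Transcendental L (P.y ⟨i, hi⟩ (h i)) := by
          intro h6
          have := ht_pos h6
          omega
        obtain ⟨l, hl⟩ := not_transcendental h5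
        obtain ⟨c, hc⟩ := mem_k_of_mem_L φ P.ψ.toRingHom P.ψ_R P₀ x₀ hP₀ (hS i) 
          (Algebra.IsIntegral.isIntegral _) l (by rw [hl, ← h1]; rfl)
        have h7 : P.y ⟨i, hi⟩ (h i) = P.y ⟨i, hi⟩ (algebraMap k (F i) c) := by
          rw [AlgHom.commutes, ← hl, ← hc, ← IsScalarTower.algebraMap_apply]
        have h8 := (P.y ⟨i, hi⟩).injective h7
        have h9 := hh i
        change Transcendental k (h (⟨i, hi⟩ : P.I)) at h9
        rw [h8] at h9
        exact h9 (isAlgebraic_algebraMap c)
      have hal := FF.isAlgebraic (hx i)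
      exact deriv_zero_of_isAlgebraic_adjoin (P.y ⟨i, hi⟩) D' hDk' h2 (hal.isAlgebraic _)
    · have hmem : hS i ∈ SF S (F i) := by rw [mem_SF, hhS]; exact (h i).2
      obtain ⟨c, hc⟩ := P.const i hi (hS i) hmem
      rw [hc, hDk']
  have hψa : D' (P.ψ (algebraMap R S a)) = 0 := by
    apply deriv_zero_of_isAlgebraic_const
    have hmem : ∀ q : MvPolynomial ι k, MvPolynomial.aeval (fun i => P.ψ (hS i)) q ∈ constField D' := by
      intro q
      induction q using MvPolynomial.induction_on with
      | C c => rw [MvPolynomial.aeval_C]; exact hDk' c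
      | add p q hp hq => rw [map_add]; exact add_mem hp hq
      | mul_X p i hp => rw [map_mul, MvPolynomial.aeval_X]; exact mul_mem hp (hconst i)
    let θ : MvPolynomial ι k →+* constField D' := 
      (MvPolynomial.aeval (fun i => P.ψ (hS i))).toRingHom.codRestrict (constField D') hmem
    have hθ : ((algebraMap (constField D') E').comp θ) = 
        (MvPolynomial.aeval (fun i => P.ψ (hS i))).toRingHom := by
      ext c <;> rfl
    refine ⟨p.map θ, ?_, ?_⟩
    · intro h0
      have h1 : (p.map θ).coeff p.natDegree = 0 := by rw [h0, coeff_zero]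
      rw [coeff_map] at h1
      have h2 := congrArg (algebraMap (constField D') E') h1
      rw [map_zero, ← RingHom.comp_apply, hθ] at h2
      change MvPolynomial.aeval (fun i => P.ψ (hS i)) p.leadingCoeff = 0 at h2
      have h3 : MvPolynomial.aeval (fun i => P.ψ (hS i)) p.leadingCoeff = 
          P.ψ (MvPolynomial.aeval hS p.leadingCoeff) := 
        (MvPolynomial.comp_aeval_apply hS P.ψ p.leadingCoeff).symm
      rw [h3] at h2
      exact (hp.map P.ψ).ne_zero h2
    · rw [aeval_def, eval₂_map, hθ]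
      have h2 := congrArg P.ψ hpa
      rw [map_zero] at h2
      rw [← h2]
      change _ = P.ψ.toRingHom _
      rw [eval_map, Polynomial.hom_eval₂]
      congr 1
      ext c
      · simp
      · simp
  rw [P.ψ_R, hDD'] at hψa
  simpa using hψa

end Two

end Steps

end PGH
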