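import Mathlib
import Pool.Agent.Helper1_PGH.Comp

open Filter Polynomial
open scoped TensorProduct

namespace PGH

/-- The ultrapower of the constants. -/
def Lst (k : Type*) : Type _ := Germ ((hyperfilter ℕ : Ultrafilter ℕ) : Filter ℕ) k

/-- The ultrapower of a field over the constants. -/
def Kst (K : Type*) : Type _ := Germ ((hyperfilter ℕ : Ultrafilter ℕ) : Filter ℕ) K

section Defs

noncomputable instance (k : Type*) [Field k] : Field (Lst k) := 
  inferInstanceAs (Field (Germ ((hyperfilter ℕ : Ultrafilter ℕ) : Filter ℕ) k))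

noncomputable instance (K : Type*) [Field K] : Field (Kst K) := 
  inferInstanceAs (Field (Germ ((hyperfilter ℕ : Ultrafilter ℕ) : Filter ℕ) K))

/-- germ of a sequence -/
noncomputable def Lst.mk (k : Type*) [Field k] : (ℕ → k) →+* Lst k := 
  Germ.coeRingHom ((hyperfilter ℕ : Ultrafilter ℕ) : Filter ℕ)

noncomputable def Kst.mk (K : Type*) [Field K] : (ℕ → K) →+* Kst K := 
  Germ.coeRingHom ((hyperfilter ℕ : Ultrafilter ℕ) : Filter ℕ)

variable {k K : Type*} [Field k] [Field K]

theorem Lst.mk_surjective : Function.Surjective (Lst.mk k) := fun z => by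
  induction z using Germ.inductionOn with
  | _ f => exact ⟨f, rfl⟩

theorem Kst.mk_surjective : Function.Surjective (Kst.mk K) := fun z => by
  induction z using Germ.inductionOn with
  | _ f => exact ⟨f, rfl⟩

theorem Lst.mk_eq {f g : ℕ → k} : Lst.mk k f = Lst.mk k g ↔ ∀ᶠ n in (hyperfilter ℕ : Ultrafilter ℕ), f n = g n := 
  Germ.coe_eq

theorem Kst.mk_eq {f g : ℕ → K} : Kst.mk K f = Kst.mk K g ↔ ∀ᶠ n in (hyperfilter ℕ : Ultrafilter ℕ), f n = g n := 
  Germ.coe_eq

theorem Lst.mk_eq_zero {f : ℕ → k} : Lst.mk k f = 0 ↔ ∀ᶠ n in (hyperfilter ℕ : Ultrafilter ℕ), f n = 0 := by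
  rw [← map_zero (Lst.mk k), Lst.mk_eq]; rfl

theorem Kst.mk_eq_zero {f : ℕ → K} : Kst.mk K f = 0 ↔ ∀ᶠ n in (hyperfilter ℕ : Ultrafilter ℕ), f n = 0 := by
  rw [← map_zero (Kst.mk K), Kst.mk_eq]; rfl

noncomputable instance : Algebra k (Lst k) := ((Lst.mk k).comp (Pi.constRingHom ℕ k)).toAlgebra

theorem Lst.algebraMap_eq (c : k) : algebraMap k (Lst k) c = Lst.mk k (fun _ => c) := rfl

noncomputable instance [Algebra k K] : Algebra k (Kst K) := 
  ((Kst.mk K).comp ((Pi.constRingHom ℕ K).comp (algebraMap k K))).toAlgebra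

theorem Kst.algebraMap_eq [Algebra k K] (c : k) : 
    algebraMap k (Kst K) c = Kst.mk K (fun _ => algebraMap k K c) := rfl

/-- the map `Lst k → Kst K`. -/
noncomputable def Lst.map (k K : Type*) [Field k] [Field K] [Algebra k K] : Lst k →+* Kst K where
  toFun := Germ.map (algebraMap k K)
  map_one' := by
    rw [← map_one (Lst.mk k), ← map_one (Kst.mk K)]
    change Kst.mk K (algebraMap k K ∘ 1) = _
    congr 1
    funext n; simp
  map_zero' := by
    rw [← map_zero (Lst.mk k), ← map_zero (Kst.mk K)]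
    change Kst.mk K (algebraMap k K ∘ 0) = _
    congr 1
    funext n; simp
  map_add' := by
    intro a b
    obtain ⟨f, rfl⟩ := Lst.mk_surjective a
    obtain ⟨g, rfl⟩ := Lst.mk_surjective b
    rw [← map_add]
    change Kst.mk K (algebraMap k K ∘ (f + g)) = Kst.mk K (algebraMap k K ∘ f) + Kst.mk K (algebraMap k K ∘ g)
    rw [← map_add]
    congr 1
    funext n; simp
  map_mul' := by
    intro a b
    obtain ⟨f, rfl⟩ := Lst.mk_surjective a
    obtain ⟨g, rfl⟩ := Lst.mk_surjective b
    rw [← map_mul]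
    change Kst.mk K (algebraMap k K ∘ (f * g)) = Kst.mk K (algebraMap k K ∘ f) * Kst.mk K (algebraMap k K ∘ g)
    rw [← map_mul]
    congr 1
    funext n; simp

noncomputable instance [Algebra k K] : Algebra (Lst k) (Kst K) := (Lst.map k K).toAlgebra

theorem Lst.algebraMap_mk [Algebra k K] (f : ℕ → k) : 
    algebraMap (Lst k) (Kst K) (Lst.mk k f) = Kst.mk K (fun n => algebraMap k K (f n)) := rfl

instance [Algebra k K] : IsScalarTower k (Lst k) (Kst K) := 
  IsScalarTower.of_algebraMap_eq (fun c => by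
    rw [Lst.algebraMap_eq, Lst.algebraMap_mk, Kst.algebraMap_eq])

instance [Algebra k K] : IsScalarTower k K (Kst K) := 
  IsScalarTower.of_algebraMap_eq (fun c => by
    rw [Kst.algebraMap_eq, Kst.algebraMap_eq]; rfl)

instance [CharZero k] : CharZero (Lst k) := 
  charZero_of_injective_algebraMap (algebraMap k (Lst k)).injective

instance [IsAlgClosed k] : IsAlgClosed (Lst k) := by
  apply IsAlgClosed.of_exists_root
  intro p hp hirr
  -- choose sequences of coefficients
  have hc : ∀ j, ∃ f : ℕ → k, Lst.mk k f = p.coeff j := fun j => Lst.mk_surjective _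
  choose f hf using hc
  have hdeg : 0 < p.natDegree := hirr.natDegree_pos
  let q : ℕ → Polynomial k := fun n => X ^ p.natDegree + ∑ j ∈ Finset.range p.natDegree, C (f j n) * X ^ j
  have hq : ∀ n, ∃ x : k, (q n).eval x = 0 := by
    intro n
    apply IsAlgClosed.exists_root
    have h1 : (∑ j ∈ Finset.range p.natDegree, C (f j n) * X ^ j).degree < ((X : Polynomial k) ^ p.natDegree).degree := by
      rw [degree_X_pow]
      refine lt_of_le_of_lt (degree_sum_le _ _) ?_
      rw [Finset.sup_lt_iff (by simp [WithBot.bot_lt_coe] )]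
      intro j hj
      refine lt_of_le_of_lt (degree_C_mul_X_pow_le _ _) ?_
      exact_mod_cast Finset.mem_range.1 hj
    change degree (X ^ p.natDegree + ∑ j ∈ Finset.range p.natDegree, C (f j n) * X ^ j) ≠ 0
    rw [degree_add_eq_left_of_degree_lt h1, degree_X_pow]
    exact_mod_cast hdeg.ne'
  choose x hx using hq
  refine ⟨Lst.mk k x, ?_⟩
  have h1 : p = X ^ p.natDegree + ∑ j ∈ Finset.range p.natDegree, C (p.coeff j) * X ^ j := 
    hp.as_sum
  rw [h1, eval_add, eval_finset_sum, eval_pow, eval_X]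
  simp only [eval_mul, eval_C, eval_pow, eval_X, ← hf, ← map_pow, ← map_mul, ← map_sum, ← map_add]
  rw [Lst.mk_eq_zero]
  refine Eventually.of_forall (fun n => ?_)
  have := hx n
  simp only [q, eval_add, eval_finset_sum, eval_mul, eval_C, eval_pow, eval_X] at this
  simpa using this

end Defs

end PGH
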