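import Mathlib
import Pool.Agent.Helper1_PGH.Ultra1
import Pool.Agent.Helper1_PGH.Riemann

open Filter Polynomial
open scoped TensorProduct

namespace PGH

section

variable {k K : Type*} [Field k] [Field K] [Algebra k K]

theorem mu_ultra_injective : Function.Injective (mu k K (Lst k) (Kst K)) := by
  classical
  rw [injective_iff_map_eq_zero]
  intro a ha
  let β := Module.Basis.ofVectorSpace k K
  obtain ⟨c, rfl⟩ := TensorProduct.eq_repr_basis_left β a
  have h1 : ∀ j, ∃ f : ℕ → k, Lst.mk k f = c j := fun j => Lst.mk_surjective _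
  choose f hf using h1
  have h2 : Kst.mk K (fun n => ∑ j ∈ c.support, f j n • β j) = 0 := by
    rw [← ha, Finsupp.sum, map_sum]
    have h3 : ∀ j, mu k K (Lst k) (Kst K) (β j ⊗ₜ c j) = Kst.mk K (fun n => f j n • β j) := by
      intro j
      rw [mu_tmul, ← hf, Lst.algebraMap_mk, Kst.algebraMap_eq, ← map_mul]
      congr 1
      funext n
      rw [Pi.mul_apply, Algebra.smul_def, mul_comm]; rfl
    rw [Finset.sum_congr rfl (fun j _ => h3 j), ← map_sum]
    congr 1
    funext n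
    rw [Finset.sum_apply]
  rw [Kst.mk_eq_zero] at h2
  have h3 : ∀ j ∈ c.support, c j = 0 := by
    intro j hj
    rw [← hf, Lst.mk_eq_zero]
    filter_upwards [h2] with n hn
    have := linearIndependent_iff'.1 β.linearIndependent c.support (fun j => f j n) hn j hj
    exact this
  have h4 : c = 0 := by
    rw [← Finsupp.support_eq_empty, Finset.eq_empty_iff_forall_notMem]
    intro j hj
    exact Finsupp.mem_support_iff.1 hj (h3 j hj)
  rw [h4]; simp

variable [IsAlgClosed k] [CharZero k] [FF k K]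

instance ff_ultra : FF (Lst k) (EE K (Lst k) (Kst K)) := EE.ff (k := k) mu_ultra_injective

theorem mem_EE_of_ht_le (z : ℕ → K) (B : ℕ) (h : ∀ n, ht k (z n) ≤ B) : 
    Kst.mk K z ∈ EE K (Lst k) (Kst K) := by
  obtain ⟨W, hW, hB⟩ := exists_space_of_ht_le k K B
  have h1 : ∀ n, ∃ a b : W, (b : K) ≠ 0 ∧ z n = a / b := by
    intro n
    obtain ⟨a, ha, b, hb, hb0, hab⟩ := hB (z n) (h n)
    exact ⟨⟨a, ha⟩, ⟨b, hb⟩, hb0, hab⟩
  choose a b hb0 hab using h1
  let β := Module.finBasis k W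
  have key : ∀ a : ℕ → W, Kst.mk K (fun n => (a n : K)) ∈ EE K (Lst k) (Kst K) := by
    intro a
    have h2 : Kst.mk K (fun n => (a n : K)) = ∑ j, algebraMap (Lst k) (Kst K) 
        (Lst.mk k (fun n => β.repr (a n) j)) * algebraMap K (Kst K) (β j : K) := by
      have h3 : ∀ j, algebraMap (Lst k) (Kst K) 
        (Lst.mk k (fun n => β.repr (a n) j)) * algebraMap K (Kst K) (β j : K) = 
          Kst.mk K (fun n => β.repr (a n) j • (β j : K)) := by
        intro j
        rw [Lst.algebraMap_mk, Kst.algebraMap_eq, ← map_mul]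
        congr 1
        funext n
        rw [Pi.mul_apply, Algebra.smul_def]; rfl
      rw [Finset.sum_congr rfl (fun j _ => h3 j), ← map_sum]
      congr 1
      funext n
      rw [Finset.sum_apply]
      have h4 := β.sum_repr (a n)
      have h5 := congrArg (Subtype.val : W → K) h4
      rw [← h5, Submodule.coe_sum]
      rfl
    rw [h2]
    apply sum_mem
    intro j _
    exact mul_mem (IntermediateField.algebraMap_mem _ _) (mem_EE_K _ _ _ _)
  have h2 : Kst.mk K z = Kst.mk K (fun n => (a n : K)) / Kst.mk K (fun n => (b n : K)) := by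
    rw [eq_div_iff, ← map_mul]
    · congr 1
      funext n
      rw [Pi.mul_apply, hab n, div_mul_cancel₀ _ (hb0 n)]
    · intro h0
      rw [Kst.mk_eq_zero] at h0
      obtain ⟨n, hn⟩ := h0.exists
      exact hb0 n hn
  rw [h2]
  exact div_mem (key a) (key b)

/-- the valuation ring of germs of integral sequences -/
def ultraRing (P₀ : Place k K) : ValuationSubring (Kst K) where
  carrier := {z | ∃ f : ℕ → K, Kst.mk K f = z ∧ ∀ᶠ n in (hyperfilter ℕ : Ultrafilter ℕ), P₀.Ge 0 (f n)}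
  one_mem' := ⟨1, map_one _, Eventually.of_forall (fun n => by
    rw [Pi.one_apply, ← map_one (algebraMap k K)]; exact P₀.ge_const 1)⟩
  zero_mem' := ⟨0, map_zero _, Eventually.of_forall (fun n => P₀.ge_zero 0)⟩
  add_mem' := by
    rintro _ _ ⟨f, rfl, hf⟩ ⟨g, rfl, hg⟩
    refine ⟨f + g, map_add _ _ _, ?_⟩
    filter_upwards [hf, hg] with n h1 h2
    exact h1.add h2
  mul_mem' := by
    rintro _ _ ⟨f, rfl, hf⟩ ⟨g, rfl, hg⟩
    refine ⟨f * g, map_mul _ _ _, ?_⟩
    filter_upwards [hf, hg] with n h1 h2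
    exact h1.mul' h2 (by omega)
  neg_mem' := by
    rintro _ ⟨f, rfl, hf⟩
    refine ⟨-f, map_neg _ _, ?_⟩
    filter_upwards [hf] with n h1
    exact h1.neg
  mem_or_inv_mem' := by
    intro z
    obtain ⟨f, rfl⟩ := Kst.mk_surjective z
    rcases Ultrafilter.em (hyperfilter ℕ : Ultrafilter ℕ) (fun n => P₀.Ge 0 (f n)) with h | h
    · exact Or.inl ⟨f, rfl, h⟩
    · right
      refine ⟨f⁻¹, ?_, ?_⟩
      · rfl
      · filter_upwards [h] with n h1
        rw [Pi.inv_apply]
        by_cases h0 : f n = 0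
        · rw [h0, inv_zero]; exact P₀.ge_zero 0
        · rw [P₀.ge_iff (inv_ne_zero h0), P₀.ord_inv]
          rw [P₀.ge_iff h0] at h1
          omega

theorem exists_place_ultra (P₀ : Place k K) : 
    ∃ P : Place (Lst k) (EE K (Lst k) (Kst K)), ∀ (z : ℕ → K) 
      (hz : Kst.mk K z ∈ EE K (Lst k) (Kst K)), (∀ n, P₀.Ge 1 (z n)) → P.Ge 1 ⟨Kst.mk K z, hz⟩ := by
  let A : ValuationSubring (EE K (Lst k) (Kst K)) := (ultraRing P₀).comap (algebraMap _ (Kst K))
  have hA : ∀ z : EE K (Lst k) (Kst K), z ∈ A ↔ (z : Kst K) ∈ ultraRing P₀ := fun z => Iff.rfl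
  obtain ⟨P, hP⟩ := Place.exists_of_valuationSubring (L := Lst k) A (by
    intro c
    obtain ⟨f, rfl⟩ := Lst.mk_surjective c
    rw [hA]
    exact ⟨fun n => algebraMap k K (f n), rfl, Eventually.of_forall (fun n => P₀.ge_const _)⟩) (by
    intro htop
    obtain ⟨u, hu0, hu⟩ := P₀.exists_unif
    have h1 : algebraMap K (EE K (Lst k) (Kst K)) u⁻¹ ∈ A := by rw [htop]; trivial
    rw [hA] at h1
    obtain ⟨f, hf, hf'⟩ := h1
    rw [EE.coe_K, Kst.algebraMap_eq, Kst.mk_eq] at hf
    obtain ⟨n, h2, h3⟩ := (hf.and hf').exists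
    rw [h2] at h3
    change P₀.Ge 0 u⁻¹ at h3
    rw [P₀.ge_iff (inv_ne_zero hu0), P₀.ord_inv, hu] at h3
    omega)
  refine ⟨P, fun z hz hz1 => ?_⟩
  by_cases h0 : (⟨Kst.mk K z, hz⟩ : EE K (Lst k) (Kst K)) = 0
  · rw [h0]; exact P.ge_zero 1
  · have h1 : P.Ge 0 (⟨Kst.mk K z, hz⟩ : EE K (Lst k) (Kst K)) := by
      rw [hP, hA]
      exact ⟨z, rfl, Eventually.of_forall (fun n => (hz1 n).mono (by omega))⟩
    rw [P.ge_iff h0] at h1 ⊢
    by_contra h2
    have h3 : P.ord (⟨Kst.mk K z, hz⟩ : EE K (Lst k) (Kst K)) = 0 := by omega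
    have h4 : P.Ge 0 (⟨Kst.mk K z, hz⟩ : EE K (Lst k) (Kst K))⁻¹ := by
      rw [P.ge_iff (inv_ne_zero h0), P.ord_inv, h3]; simp
    rw [hP, hA] at h4
    obtain ⟨f, hf, hf'⟩ := h4
    have h5 : Kst.mk K z ≠ 0 := by
      intro h6; apply h0; apply Subtype.ext; exact h6
    have h6 : Kst.mk K (z * f) = Kst.mk K 1 := by
      rw [map_mul, hf, map_one]
      change Kst.mk K z * (Kst.mk K z)⁻¹ = 1
      exact mul_inv_cancel₀ h5
    rw [Kst.mk_eq] at h6
    obtain ⟨n, h7, h8⟩ := (h6.and hf').exists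
    rw [Pi.mul_apply, Pi.one_apply] at h7
    have h9 : P₀.Ge 1 (z n * f n) := (hz1 n).mul' h8 (by omega)
    rw [h7, ← map_one (algebraMap k K)] at h9
    exact P₀.not_ge_one_const one_ne_zero h9

end

end PGH
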