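import Mathlib
import Pool.Agent.Helper1_PGH.Ultra2
import Pool.Agent.Helper1_PGH.Steps

open Filter Polynomial
open scoped TensorProduct

universe u v

namespace PGH

section

variable {k : Type u} [Field k] [IsAlgClosed k] [CharZero k] {R : Type v} [CommRing R] [Algebra k R]

/-- Uniform bound of heights. -/
def FactOne (k : Type u) [Field k] {R : Type v} [CommRing R] [Algebra k R] (A₀ : Set R) : Prop := 
  ∀ (E : Type u) [Field E] [Algebra k E] [FF k E], ∃ B : ℕ, ∀ φ : R →ₐ[k] E, ∀ a ∈ A₀, 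
    ht k (φ a) ≤ B

/-- Rigidity. -/
def FactTwo (k : Type u) [Field k] {R : Type v} [CommRing R] [Algebra k R] (A₀ : Set R) : Prop := 
  ∀ (L E : Type u) [Field L] [Field E] [Algebra k L] [Algebra L E] [Algebra k E] 
    [IsScalarTower k L E] [IsAlgClosed L] [CharZero L] [FF L E] (φ : R →ₐ[k] E)
    (D : Derivation ℤ E E), PresL L D → (∀ c : k, D (algebraMap k E c) = 0) → 
    (∀ P : Place L E, DGe P D 0) → ∀ (P₀ : Place L E) (x₀ : R →ₐ[k] k), 
    (∀ r, P₀.Ge 1 (φ r - algebraMap k E (x₀ r))) → ∀ a ∈ A₀, D (φ a) = 0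

/-- `R` is generated by `A₀` and the inverse of one element of `k[A₀]`. -/
def GenBy (k : Type u) [Field k] {R : Type v} [CommRing R] [Algebra k R] (A₀ : Set R) : Prop := 
  ∃ d ∈ Algebra.adjoin k A₀, ∃ d' : R, d * d' = 1 ∧ Algebra.adjoin k (A₀ ∪ {d'}) = ⊤

theorem GenBy.ext {A₀ : Set R} (h : GenBy k A₀) {E : Type*} [Field E] [Algebra k E] 
    {φ φ' : R →ₐ[k] E} (hφ : ∀ a ∈ A₀, φ a = φ' a) : φ = φ' := by
  obtain ⟨d, hd, d', hdd', hgen⟩ := h
  apply AlgHom.ext_of_adjoin_eq_top hgen
  rintro a (ha | ha)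
  · exact hφ a ha
  · rw [Set.mem_singleton_iff] at ha
    rw [ha]
    have h1 : φ d = φ' d := by
      clear hdd'
      induction hd using Algebra.adjoin_induction with
      | mem x hx => exact hφ x hx
      | algebraMap r => rw [φ.commutes, φ'.commutes]
      | add x y _ _ hx hy => rw [map_add, map_add, hx, hy]
      | mul x y _ _ hx hy => rw [map_mul, map_mul, hx, hy]
    have h2 : φ d * φ d' = 1 := by rw [← map_mul, hdd', map_one]
    have h3 : φ' d * φ' d' = 1 := by rw [← map_mul, hdd', map_one]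
    rw [h1] at h2
    have h4 : φ' d ≠ 0 := left_ne_zero_of_mul_eq_one h2
    exact mul_left_cancel₀ h4 (h2.trans h3.symm)

theorem GenBy.mem {A₀ : Set R} (h : GenBy k A₀) {Ω L : Type*} [Field Ω] [Algebra k Ω] [Field L] 
    [Algebra L Ω] [Algebra k L] [IsScalarTower k L Ω]
    {φ : R →ₐ[k] Ω} {T : IntermediateField L Ω} (hφ : ∀ a ∈ A₀, φ a ∈ T) (r : R) : φ r ∈ T := by
  obtain ⟨d, hd, d', hdd', hgen⟩ := h
  have hk : ∀ c : k, φ (algebraMap k R c) ∈ T := by
    intro c
    rw [φ.commutes, IsScalarTower.algebraMap_apply k L Ω]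
    exact T.algebraMap_mem _
  have hd1 : φ d ∈ T := by
    clear hdd'
    induction hd using Algebra.adjoin_induction with
    | mem x hx => exact hφ x hx
    | algebraMap r => exact hk r
    | add x y _ _ hx hy => rw [map_add]; exact add_mem hx hy
    | mul x y _ _ hx hy => rw [map_mul]; exact mul_mem hx hy
  have hd2 : φ d' ∈ T := by
    have h2 : φ d * φ d' = 1 := by rw [← map_mul, hdd', map_one]
    have h3 : φ d' = (φ d)⁻¹ := by
      rw [eq_inv_of_mul_eq_one_right h2]
    rw [h3]
    exact inv_mem hd1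
  have hr : r ∈ Algebra.adjoin k (A₀ ∪ {d'}) := by rw [hgen]; trivial
  induction hr using Algebra.adjoin_induction with
  | mem x hx => 
    rcases hx with hx | hx
    · exact hφ x hx
    · rw [Set.mem_singleton_iff] at hx; rw [hx]; exact hd2
  | algebraMap r => exact hk r
  | add x y _ _ hx hy => rw [map_add]; exact add_mem hx hy
  | mul x y _ _ hx hy => rw [map_mul]; exact mul_mem hx hy

theorem finite_of_facts {A₀ : Set R} (hfin : A₀.Finite) (hgen : GenBy k A₀) (h1 : FactOne k A₀) 
    (h2 : FactTwo k A₀) (K : Type u) [Field K] [Algebra k K] [FF k K] (P₀ : Place k K) 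
    (x₀ : R →ₐ[k] k) : 
    {φ : R →ₐ[k] K | ∀ r, P₀.Ge 1 (φ r - algebraMap k K (x₀ r))}.Finite := by
  by_contra hinf
  have hinf' : {φ : R →ₐ[k] K | ∀ r, P₀.Ge 1 (φ r - algebraMap k K (x₀ r))}.Infinite := hinf
  let φ : ℕ → R →ₐ[k] K := fun n => (hinf'.natEmbedding _ n : R →ₐ[k] K)
  have hφinj : Function.Injective φ := fun a b hab => 
    (hinf'.natEmbedding _).injective (Subtype.ext hab)
  have hφ : ∀ n r, P₀.Ge 1 (φ n r - algebraMap k K (x₀ r)) := fun n => (hinf'.natEmbedding _ n).2
  obtain ⟨B, hB⟩ := h1 K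
  let φs : R →ₐ[k] Kst K := 
    { toFun := fun r => Kst.mk K (fun n => φ n r)
      map_one' := by
        rw [← map_one (Kst.mk K)]; congr 1; funext n; exact map_one _
      map_zero' := by
        rw [← map_zero (Kst.mk K)]; congr 1; funext n; exact map_zero _
      map_add' := by
        intro a b
        rw [← map_add (Kst.mk K)]; congr 1; funext n; exact map_add _ _ _
      map_mul' := by
        intro a b
        rw [← map_mul (Kst.mk K)]; congr 1; funext n; exact map_mul _ _ _
      commutes' := by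
        intro c
        rw [Kst.algebraMap_eq]; congr 1; funext n; exact (φ n).commutes c }
  have hφs : ∀ r, φs r = Kst.mk K (fun n => φ n r) := fun r => rfl
  have hmem : ∀ r, φs r ∈ EE K (Lst k) (Kst K) := 
    hgen.mem (fun a ha => mem_EE_of_ht_le _ B (fun n => hB (φ n) a ha))
  let ψ : R →ₐ[k] EE K (Lst k) (Kst K) := 
    { toFun := fun r => ⟨φs r, hmem r⟩
      map_one' := by apply Subtype.ext; exact map_one φs
      map_zero' := by apply Subtype.ext; exact map_zero φs
      map_add' := by intro a b; apply Subtype.ext; exact map_add φs a b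
      map_mul' := by intro a b; apply Subtype.ext; exact map_mul φs a b
      commutes' := by intro c; apply Subtype.ext; exact φs.commutes c }
  obtain ⟨P, hP⟩ := exists_place_ultra P₀
  have hψP : ∀ r, P.Ge 1 (ψ r - algebraMap k (EE K (Lst k) (Kst K)) (x₀ r)) := by
    intro r
    have h3 : ((ψ r - algebraMap k (EE K (Lst k) (Kst K)) (x₀ r) : EE K (Lst k) (Kst K)) : Kst K) = 
        Kst.mk K (fun n => φ n r - algebraMap k K (x₀ r)) := by
      change φs r - algebraMap k (Kst K) (x₀ r) = _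
      rw [hφs, Kst.algebraMap_eq, ← map_sub]
      rfl
    have h4 : Kst.mk K (fun n => φ n r - algebraMap k K (x₀ r)) ∈ EE K (Lst k) (Kst K) := by
      rw [← h3]; exact Subtype.mem _
    have h5 : ψ r - algebraMap k (EE K (Lst k) (Kst K)) (x₀ r) = ⟨_, h4⟩ := Subtype.ext h3
    rw [h5]
    exact hP _ h4 (fun n => hφ n r)
  have hK : ∀ a ∈ A₀, ∃ κ : K, algebraMap K (EE K (Lst k) (Kst K)) κ = ψ a := by
    intro a ha
    apply EE.mem_K_of_deriv (k := k) mu_ultra_injective
    intro δ D hDK hDL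
    have hPL : PresL (Lst k) D := fun l => ⟨δ l, hDL l⟩
    refine h2 (Lst k) (EE K (Lst k) (Kst K)) ψ D hPL ?_ ?_ P x₀ hψP a ha
    · intro c
      rw [IsScalarTower.algebraMap_apply k K (EE K (Lst k) (Kst K)), hDK]
    · intro Q
      exact horizontal (k := k) (K := K) hDK hPL EE.hfrac Q
  choose! κ hκ using hK
  have hev : ∀ᶠ n in (hyperfilter ℕ : Ultrafilter ℕ), ∀ a ∈ A₀, φ n a = κ a := by
    rw [eventually_all_finite hfin]
    intro a ha
    have h3 := congrArg Subtype.val (hκ a ha)
    rw [EE.coe_K, Kst.algebraMap_eq] at h3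
    change _ = Kst.mk K (fun n => φ n a) at h3
    rw [Kst.mk_eq] at h3
    filter_upwards [h3] with n hn
    exact hn.symm
  have hinf2 : {n | ∀ a ∈ A₀, φ n a = κ a}.Infinite := by
    intro hf
    exact notMem_hyperfilter_of_finite hf hev
  obtain ⟨n, hn, m, hm, hnm⟩ := hinf2.nontrivial
  apply hnm
  apply hφinj
  apply hgen.ext
  intro a ha
  rw [hn a ha, hm a ha]

end

end PGH
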