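import Mathlib

open IntermediateField Polynomial

namespace PGH

section Adj

variable (R : Type*) {M Γ : Type*} [CommRing R] [Field M] [Algebra R M] [Group Γ]
  [MulSemiringAction Γ M] [SMulCommClass Γ R M] (G₀ : Set M)

theorem smul_algebraMap_eq (γ : Γ) (r : R) : γ • (algebraMap R M r) = algebraMap R M r := by
  rw [Algebra.algebraMap_eq_smul_one, smul_comm, smul_one]

theorem smul_mem_adjoin (hst : ∀ γ : Γ, ∀ g ∈ G₀, γ • g ∈ G₀) (γ : Γ) {z : M} 
    (hz : z ∈ Algebra.adjoin R G₀) : γ • z ∈ Algebra.adjoin R G₀ := by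
  induction hz using Algebra.adjoin_induction with
  | mem x hx => exact Algebra.subset_adjoin (hst γ x hx)
  | algebraMap r => rw [smul_algebraMap_eq]; exact Subalgebra.algebraMap_mem _ r
  | add x y _ _ hx hy => rw [smul_add]; exact add_mem hx hy
  | mul x y _ _ hx hy => rw [smul_mul']; exact mul_mem hx hy

/-- the action on a subalgebra generated by a stable set -/
@[reducible]
def adjAct (hst : ∀ γ : Γ, ∀ g ∈ G₀, γ • g ∈ G₀) : MulSemiringAction Γ (Algebra.adjoin R G₀) where
  smul γ s := ⟨γ • s.1, smul_mem_adjoin R G₀ hst γ s.2⟩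
  one_smul s := by apply Subtype.ext; exact one_smul Γ s.1
  mul_smul a b s := by apply Subtype.ext; exact mul_smul a b s.1
  smul_zero a := by apply Subtype.ext; exact smul_zero a
  smul_add a s t := by apply Subtype.ext; exact smul_add a s.1 t.1
  smul_one a := by apply Subtype.ext; exact smul_one a
  smul_mul a s t := by apply Subtype.ext; exact smul_mul' a s.1 t.1

end Adj

section Inv

variable (k : Type*) {M Γ : Type*} [Field k] [Field M] [Algebra k M] [Group Γ] [Finite Γ]
  [MulSemiringAction Γ M] [SMulCommClass Γ k M] (G₀ : Set M)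

/-- the ring of invariants of a finitely generated algebra is finitely generated -/
theorem invariants_fg (hfin : G₀.Finite) (hst : ∀ γ : Γ, ∀ g ∈ G₀, γ • g ∈ G₀) : 
    ∃ T : Set M, T.Finite ∧ (∀ t ∈ T, ∀ γ : Γ, γ • t = t) ∧ 
      ∀ z ∈ Algebra.adjoin k G₀, (∀ γ : Γ, γ • z = z) → z ∈ Algebra.adjoin k T := by
  classical
  let _ : MulSemiringAction Γ (Algebra.adjoin k G₀) := adjAct k G₀ hst
  have hsmul : ∀ (γ : Γ) (s : Algebra.adjoin k G₀), ((γ • s : Algebra.adjoin k G₀) : M) = γ • (s : M) := 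
    fun _ _ => rfl
  let B : Subalgebra k (Algebra.adjoin k G₀) := 
    { carrier := {s | ∀ γ : Γ, γ • s = s}
      mul_mem' := fun {a b} ha hb γ => by rw [smul_mul', ha γ, hb γ]
      add_mem' := fun {a b} ha hb γ => by rw [smul_add, ha γ, hb γ]
      algebraMap_mem' := fun c γ => by
        apply Subtype.ext
        exact smul_algebraMap_eq k γ c }
  have hinv : Algebra.IsInvariant B (Algebra.adjoin k G₀) Γ := ⟨fun s hs => ⟨⟨s, hs⟩, rfl⟩⟩
  have hint : Algebra.IsIntegral B (Algebra.adjoin k G₀) := Algebra.IsInvariant.isIntegral B _ Γ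
  have hft : Algebra.FiniteType k (Algebra.adjoin k G₀) := by
    rw [← Subalgebra.fg_iff_finiteType, ← hfin.coe_toFinset]
    exact Subalgebra.fg_adjoin_finset _
  have hft' : Algebra.FiniteType B (Algebra.adjoin k G₀) := 
    Algebra.FiniteType.of_restrictScalars_finiteType k B _
  have hmf : Module.Finite B (Algebra.adjoin k G₀) := Algebra.IsIntegral.finite
  have hB : (⊤ : Subalgebra k B).FG := 
    fg_of_fg_of_fg k B (Algebra.adjoin k G₀) hft.out hmf.fg_top Subtype.val_injective
  obtain ⟨t, ht⟩ := hB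
  let j : B →ₐ[k] M := (Algebra.adjoin k G₀).val.comp B.val
  refine ⟨j '' (t : Set B), t.finite_toSet.image _, ?_, ?_⟩
  · rintro _ ⟨b, -, rfl⟩ γ
    exact congrArg Subtype.val (b.2 γ)
  · intro z hz hγ
    have h1 : (⟨z, hz⟩ : Algebra.adjoin k G₀) ∈ B := fun γ => Subtype.ext (hγ γ)
    have h2 : z = j ⟨⟨z, hz⟩, h1⟩ := rfl
    rw [h2, ← AlgHom.map_adjoin, ht]
    exact ⟨_, trivial, rfl⟩

variable {R : Type*} [CommRing R] [Algebra k R] [Algebra R M] [IsScalarTower k R M] 
  [SMulCommClass Γ R M] [CharZero k]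

theorem isInvariant_adjoin (hst : ∀ γ : Γ, ∀ g ∈ G₀, γ • g ∈ G₀) 
    (hT : ∀ z ∈ Algebra.adjoin k G₀, (∀ γ : Γ, γ • z = z) → ∃ r : R, algebraMap R M r = z) 
    (s : M) (hs : s ∈ Algebra.adjoin R G₀) (hγ : ∀ γ : Γ, γ • s = s) : 
    ∃ r : R, algebraMap R M r = s := by
  classical
  cases nonempty_fintype Γ
  have h1 : ∀ s ∈ Algebra.adjoin R G₀, ∃ r : R, algebraMap R M r = ∑ γ : Γ, γ • s := by
    intro s hs
    rw [← Subalgebra.mem_toSubmodule, Algebra.adjoin_eq_span] at hs
    induction hs using Submodule.span_induction with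
    | mem x hx => 
      have hx' : x ∈ Algebra.adjoin k G₀ := by
        induction hx using Submonoid.closure_induction with
        | mem y hy => exact Algebra.subset_adjoin hy
        | one => exact one_mem _
        | mul a b _ _ ha hb => exact mul_mem ha hb
      apply hT
      · exact sum_mem (fun γ _ => smul_mem_adjoin k G₀ hst γ hx')
      · intro γ
        rw [Finset.smul_sum]
        simp_rw [smul_smul]
        exact Fintype.sum_equiv (Equiv.mulLeft γ) _ _ (fun _ => rfl)
    | zero => exact ⟨0, by simp⟩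
    | add x y _ _ hx hy => 
      obtain ⟨a, ha⟩ := hx
      obtain ⟨b, hb⟩ := hy
      refine ⟨a + b, ?_⟩
      rw [map_add, ha, hb, ← Finset.sum_add_distrib]
      simp_rw [smul_add]
    | smul r x _ hx => 
      obtain ⟨a, ha⟩ := hx
      refine ⟨r * a, ?_⟩
      rw [map_mul, ha, Finset.mul_sum]
      apply Finset.sum_congr rfl
      intro γ _
      rw [Algebra.smul_def, smul_mul', smul_algebraMap_eq]
  obtain ⟨r, hr⟩ := h1 s hs
  refine ⟨algebraMap k R ((Fintype.card Γ : k)⁻¹) * r, ?_⟩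
  have h2 : (Fintype.card Γ : k) ≠ 0 := Nat.cast_ne_zero.2 Fintype.card_ne_zero
  rw [map_mul, hr, ← IsScalarTower.algebraMap_apply, Finset.sum_congr rfl (fun γ _ => hγ γ),
    Finset.sum_const, Finset.card_univ, nsmul_eq_mul, ← mul_assoc]
  have h3 : algebraMap k M (Fintype.card Γ : k)⁻¹ * (Fintype.card Γ : M) = 1 := by
    rw [← map_natCast (algebraMap k M), ← map_mul, inv_mul_cancel₀ h2, map_one]
  rw [h3, one_mul]

end Inv

end PGH
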