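import Mathlib
import Pool.Agent.Helper1_PGH.Count
import Pool.Agent.Helper1_PGH.Riemann
import Pool.Agent.Helper1_PGH.DerivExt

open IntermediateField Polynomial

namespace PGH

section Degree

variable {k F : Type*} [Field k] [IsAlgClosed k] [CharZero k] [Field F] [Algebra k F] [FF k F]

theorem dord_finite {x : F} (hx : Transcendental k x) : {v : Place k F | dord x v ≠ 0}.Finite := by
  obtain ⟨δ, hδ⟩ := exists_deriv k F hx
  let D : Derivation ℤ F F := δ.restrictScalars ℤ
  have hDk : ∀ c : k, D (algebraMap k F c) = 0 := fun c => δ.map_algebraMap c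
  have hPL : PresL k D := fun c => ⟨0, by rw [hDk, map_zero]⟩
  obtain ⟨c, sc, hsc, hc⟩ := bounded_poles (L := k) D hPL
  obtain ⟨s, hs, -⟩ := exists_poles hx
  refine Set.Finite.subset (sc.finite_toSet.union s.finite_toSet) ?_
  intro v hv
  by_contra hcon
  rw [Set.mem_union, not_or, Finset.mem_coe, Finset.mem_coe, hs, not_lt] at hcon
  apply hv
  have h0 : v.Ge 0 x := ge_zero_of_ord_nonneg v hcon.2
  have h1 := v.res_spec h0
  have hu0 : x - algebraMap k F (v.res x) ≠ 0 := by
    intro h
    rw [sub_eq_zero] at h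
    rw [h] at hx
    exact hx (isAlgebraic_algebraMap _)
  have h2 : DGe v D 0 := by
    have := hc v
    rw [hsc v hcon.1] at this
    simpa using this
  have h3 := (v.ge_iff hu0).1 h1
  have h4 : v.Ge (v.ord (x - algebraMap k F (v.res x)) - 1 + 0) (D (x - algebraMap k F (v.res x))) := 
    h2.ge ((v.ge_iff hu0).2 le_rfl)
  have h5 : D (x - algebraMap k F (v.res x)) = 1 := by
    rw [map_sub, hDk, sub_zero]; exact hδ
  rw [h5, v.ge_iff one_ne_zero, v.ord_one] at h4
  unfold dord
  omega

variable {ι : Type*} [Fintype ι] {G : ι → Type*} [∀ i, Field (G i)] [∀ i, Algebra k (G i)] 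
  [∀ i, FF k (G i)]

theorem exists_multipliers (μ : ι → ℕ) (lam : ∀ i, Place k (G i) → ℕ) (x : ∀ i, G i) 
    (hx : ∀ i, Transcendental k (x i)) (hfin : ∀ i, (Function.support (lam i)).Finite)
    (hdeg : ∀ i, ∑ᶠ v, (lam i v : ℤ) < μ i * canDeg k (x i)) : 
    ∃ (N : ℕ) (f h : ∀ i, G i), (∀ i, Transcendental k (h i)) ∧ 
      ∀ i, ∀ v : Place k (G i), - v.ord (f i) + max 0 (- v.ord (h i)) ≤ 
        N * (μ i * dord (x i) v - lam i v) := by
  classical
  have h1 : ∀ i, ∃ N₀ : ℕ, ∀ N : ℕ, N₀ ≤ N → ∃ f h : G i, f ≠ 0 ∧ Transcendental k h ∧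
      ∀ P : Place k (G i), - P.ord f + max 0 (- P.ord h) ≤ N * (μ i * dord (x i) P - lam i P) := by
    intro i
    have hd := dord_finite (hx i)
    set s := hd.toFinset ∪ (hfin i).toFinset with hs
    refine exists_of_deg_pos (fun P => μ i * dord (x i) P - lam i P) s ?_ ?_
    · intro P hP
      rw [hs, Finset.mem_union, not_or, Set.Finite.mem_toFinset, Set.Finite.mem_toFinset] at hP
      have h2 : dord (x i) P = 0 := by
        by_contra h; exact hP.1 h
      have h3 : lam i P = 0 := by
        by_contra h; exact hP.2 h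
      rw [h2, h3]; simp
    · rw [Finset.sum_sub_distrib, ← Finset.mul_sum]
      have h2 : canDeg k (x i) = ∑ P ∈ s, dord (x i) P := by
        apply finsum_eq_sum_of_support_subset
        intro v hv
        rw [hs, Finset.coe_union]
        left
        rw [Set.Finite.coe_toFinset]
        exact hv
      have h3 : ∑ᶠ v, (lam i v : ℤ) = ∑ P ∈ s, (lam i P : ℤ) := by
        apply finsum_eq_sum_of_support_subset
        intro v hv
        rw [hs, Finset.coe_union]
        right
        rw [Set.Finite.coe_toFinset]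
        rw [Function.mem_support] at hv ⊢
        exact_mod_cast hv
      have := hdeg i
      rw [h2, h3] at this
      linarith
  choose N₀ hN₀ using h1
  have h2 : ∀ i, N₀ i ≤ ∑ i, N₀ i := fun i => Finset.single_le_sum (f := N₀) (fun _ _ => Nat.zero_le _) (Finset.mem_univ i)
  choose f h hf hh hfh using fun i => hN₀ i (∑ i, N₀ i) (h2 i)
  exact ⟨∑ i, N₀ i, f, h, hh, hfh⟩

end Degree

end PGH
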