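import Mathlib
import Pool.Agent.Helper1_PGH.Fin

open IntermediateField Polynomial

universe u v

namespace PGH

section Fact

variable {k : Type u} {M Γ ι : Type*} [Field k] [IsAlgClosed k] [CharZero k] [Field M] [Algebra k M] 
  [Group Γ] [Finite Γ] [MulSemiringAction Γ M] [SMulCommClass Γ k M] [Fintype ι]
variable {R S : Type*} [CommRing R] [CommRing S]
  [Algebra k R] [Algebra k S] [Algebra R S] [IsScalarTower k R S] [MulSemiringAction Γ S]
  [SMulCommClass Γ R S] [Algebra.IsInvariant R S Γ] [Algebra.FiniteType R S]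
  [Algebra S M] [IsScalarTower k S M]

variable (F : ι → IntermediateField k M) [∀ i, FF k (F i)]
    (hF : ∀ i, ∀ γ : Γ, ∀ z ∈ F i, γ • z ∈ F i) 
    (μ : ι → ℕ) (lam : ∀ i, Place k (F i) → ℕ) (hcrit : Crit F hF μ lam)
    (x h f : ∀ i, F i) (hx : ∀ i, Transcendental k (x i)) (hh : ∀ i, Transcendental k (h i)) (N : ℕ)
    (hN : ∀ i, ∀ v : Place k (F i), - v.ord (f i) + max 0 (- v.ord (h i)) ≤ 
      N * (μ i * dord (x i) v - lam i v)) (hS : ι → S) (hhS : ∀ i, algebraMap S M (hS i) = h i)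
    (hinj : Function.Injective (algebraMap R S)) (hj : Function.Injective (algebraMap S M))
    (hequiv : ∀ (γ : Γ) (s : S), algebraMap S M (γ • s) = γ • algebraMap S M s)
    (hfrac : ∀ i, ∀ f ∈ F i, ∃ a b : S, a ∈ SF S (F i) ∧ b ∈ SF S (F i) ∧ 
      f = algebraMap S M a / algebraMap S M b)
    (hfaith : ∀ γ : Γ, γ ≠ 1 → ∃ i, ∃ a : F i, actF (F i) (hF i) γ a ≠ a)
    (hunit : ∀ γ : Γ, ∀ i, (∃ a : F i, actF (F i) (hF i) γ a ≠ a) → 
      ∃ s ∈ SF S (F i), IsUnit (s - γ • s))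
    (A₀ : Set R) (hA₀ : A₀.Finite) 
    (p : R → Polynomial (MvPolynomial ι k)) 
    (hp : ∀ a ∈ A₀, IsUnit (MvPolynomial.aeval hS (p a).leadingCoeff))
    (hpa : ∀ a ∈ A₀, ((p a).map (MvPolynomial.aeval hS).toRingHom).eval (algebraMap R S a) = 0)

include hcrit hx hN hhS hinj hj hequiv hfrac hfaith hunit hp hpa hA₀ in
theorem factOne : FactOne k A₀ := by
  classical
  intro E _ _ _
  have hch : CharZero E := charZero_of_injective_algebraMap (algebraMap k E).injective
  obtain ⟨t, htr⟩ := FF.exists_transcendental (L := k) (E := E)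
  obtain ⟨δ, hδ⟩ := exists_deriv k E htr
  let D : Derivation ℤ E E := δ.restrictScalars ℤ
  have hDk : ∀ c : k, D (algebraMap k E c) = 0 := fun c => δ.map_algebraMap c
  have hPL : PresL k D := fun c => ⟨0, by rw [hDk, map_zero]⟩
  have hDt : D t ≠ 0 := by
    change δ t ≠ 0
    rw [hδ]; exact one_ne_zero
  obtain ⟨c, sc, hsc, hc⟩ := bounded_poles (L := k) D hPL
  have hw : ∀ P : Place k E, ∃ w : E, P.ord w < 0 := by
    intro P
    obtain ⟨u, hu0, hu⟩ := P.exists_unif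
    exact ⟨u⁻¹, by rw [P.ord_inv, hu]; omega⟩
  choose w hw using hw
  refine ⟨∑ a ∈ hA₀.toFinset, cx' (p a) * (Fintype.card ι * 
      (N * (∑ i, μ i) * (Nat.card Γ * ((∑ P ∈ sc, c P * ht k (w P)) * Nat.card Γ)))), ?_⟩
  intro φ a ha
  obtain ⟨E', h1, h2, h3, ⟨P⟩⟩ := exists_liftPack (S := S) F hF hinj hj hequiv hfrac hfaith hunit φ
  have h4 := step_one_aux F hF μ lam hcrit x h f hx N hN hS hhS φ P (Nat.card Γ) h3 D hDt hDk c sc hsc
    hc w hw a (p a) (hp a ha) (hpa a ha)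
  refine h4.trans ?_
  exact Finset.single_le_sum (f := fun a => cx' (p a) * (Fintype.card ι * 
      (N * (∑ i, μ i) * (Nat.card Γ * ((∑ P ∈ sc, c P * ht k (w P)) * Nat.card Γ))))) 
      (fun _ _ => Nat.zero_le _) (hA₀.mem_toFinset.2 ha)

include hcrit hx hh hN hhS hinj hj hequiv hfrac hfaith hunit hp hpa in
theorem factTwo : FactTwo k A₀ := by
  intro L E _ _ _ _ _ _ _ _ _ φ D hPL hDk hD0 P₀ x₀ hP₀ a ha
  have hch : CharZero E := charZero_of_injective_algebraMap (algebraMap k E).injective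
  obtain ⟨E', h1, h2, h3, ⟨P⟩⟩ := exists_liftPack (S := S) F hF hinj hj hequiv hfrac hfaith hunit φ
  have htower : IsScalarTower k L E' := IsScalarTower.of_algebraMap_eq (fun c => by
    rw [IsScalarTower.algebraMap_apply k E E', IsScalarTower.algebraMap_apply L E E', 
      ← IsScalarTower.algebraMap_apply k L E])
  exact step_two_aux F hF μ lam hcrit x h f hx hh N hN hS hhS φ P D hPL hDk hD0 P₀ x₀ hP₀ a (p a) 
    (hp a ha) (hpa a ha)

end Fact

end PGH
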