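import Mathlib
import Pool.Agent.Helper1_PGH.Fact
import Pool.Agent.Helper1_PGH.Adj
import Pool.Agent.Helper1_PGH.Rel
import Pool.Agent.Helper1_PGH.Degree

open IntermediateField Polynomial

universe u v

namespace PGH

section Build

variable {k : Type u} {M Γ ι : Type*} [Field k] [IsAlgClosed k] [CharZero k] [Field M] [Algebra k M] 
  [Group Γ] [Finite Γ] [MulSemiringAction Γ M] [SMulCommClass Γ k M] [Fintype ι]
  (F : ι → IntermediateField k M) [∀ i, FF k (F i)]
  (hF : ∀ i, ∀ γ : Γ, ∀ z ∈ F i, γ • z ∈ F i) 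
  (μ : ι → ℕ) (lam : ∀ i, Place k (F i) → ℕ) (hcrit : Crit F hF μ lam)
  (x h f : ∀ i, F i) (hx : ∀ i, Transcendental k (x i)) (hh : ∀ i, Transcendental k (h i)) (N : ℕ)
  (hN : ∀ i, ∀ v : Place k (F i), - v.ord (f i) + max 0 (- v.ord (h i)) ≤ 
    N * (μ i * dord (x i) v - lam i v)) 
  (hfaith : ∀ γ : Γ, γ ≠ 1 → ∃ i, ∃ a : F i, actF (F i) (hF i) γ a ≠ a)

include hcrit hx hh hN hfaith in
theorem alg_core {R : Type v} [CommRing R] [Algebra k R] [Algebra R M] [IsScalarTower k R M] 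
    [SMulCommClass Γ R M] (hRM : Function.Injective (algebraMap R M)) (A₀ : Set R) 
    (hA₀ : A₀.Finite) (hgen : GenBy k A₀) (G₀ : Set M) (hG₀ : G₀.Finite) 
    (hst : ∀ γ : Γ, ∀ g ∈ G₀, γ • g ∈ G₀)
    (hT : ∀ z ∈ Algebra.adjoin k G₀, (∀ γ : Γ, γ • z = z) → ∃ r : R, algebraMap R M r = z)
    (hGh : ∀ i, (h i : M) ∈ G₀) 
    (hGF : ∀ i, ∀ z ∈ F i, ∃ a ∈ Algebra.adjoin k G₀, ∃ b ∈ Algebra.adjoin k G₀, a ∈ F i ∧ b ∈ F i ∧ 
      z = a / b)
    (hGu : ∀ γ : Γ, ∀ i, (∃ a : F i, actF (F i) (hF i) γ a ≠ a) → 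
      ∃ s ∈ G₀, s ∈ F i ∧ s - γ • s ≠ 0 ∧ (s - γ • s)⁻¹ ∈ G₀)
    (p : R → Polynomial (MvPolynomial ι k)) 
    (hp : ∀ a ∈ A₀, MvPolynomial.aeval (fun i => (h i : M)) (p a).leadingCoeff ≠ 0)
    (hp' : ∀ a ∈ A₀, (MvPolynomial.aeval (fun i => (h i : M)) (p a).leadingCoeff)⁻¹ ∈ G₀)
    (hpa : ∀ a ∈ A₀, ((p a).map (MvPolynomial.aeval (fun i => (h i : M))).toRingHom).eval 
      (algebraMap R M a) = 0)
    (K : Type u) [Field K] [Algebra k K] [FF k K] (P₀ : Place k K) (x₀ : R →ₐ[k] k) : 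
    {φ : R →ₐ[k] K | ∀ r, P₀.Ge 1 (φ r - algebraMap k K (x₀ r))}.Finite := by
  classical
  let S : Subalgebra R M := Algebra.adjoin R G₀
  let _ : MulSemiringAction Γ S := adjAct R G₀ hst
  have hsmul : ∀ (γ : Γ) (s : S), ((γ • s : S) : M) = γ • (s : M) := fun _ _ => rfl
  have hcomm : SMulCommClass Γ R S := ⟨fun γ r s => by
    apply Subtype.ext
    change γ • (r • (s : M)) = r • (γ • (s : M))
    exact smul_comm γ r (s : M)⟩
  have hkS : ∀ c : k, ((algebraMap k S c : S) : M) = algebraMap k M c := fun c => rfl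
  have htowerR : IsScalarTower k R S := IsScalarTower.of_algebraMap_eq (fun c => by
    apply Subtype.ext
    change algebraMap k M c = algebraMap R M (algebraMap k R c)
    rw [← IsScalarTower.algebraMap_apply])
  have htowerM : IsScalarTower k S M := IsScalarTower.of_algebraMap_eq (fun c => rfl)
  have hinvR : Algebra.IsInvariant R S Γ := ⟨fun s hs => by
    obtain ⟨r, hr⟩ := isInvariant_adjoin k G₀ hst hT s.1 s.2 (fun γ => congrArg Subtype.val (hs γ))
    exact ⟨r, Subtype.ext hr⟩⟩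
  have hft : Algebra.FiniteType R S := by
    rw [← Subalgebra.fg_iff_finiteType]
    have := Subalgebra.fg_adjoin_finset (R := R) hG₀.toFinset
    rwa [hG₀.coe_toFinset] at this
  have hinj : Function.Injective (algebraMap R S) := by
    intro a b hab
    apply hRM
    exact congrArg Subtype.val hab
  have hj : Function.Injective (algebraMap S M) := Subtype.val_injective
  have hGS : ∀ z ∈ Algebra.adjoin k G₀, z ∈ S := by
    intro z hz
    induction hz using Algebra.adjoin_induction with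
    | mem y hy => exact Algebra.subset_adjoin hy
    | algebraMap c => 
      rw [IsScalarTower.algebraMap_apply k R M]
      exact S.algebraMap_mem _
    | add a b _ _ ha hb => exact add_mem ha hb
    | mul a b _ _ ha hb => exact mul_mem ha hb
  let hS : ι → S := fun i => ⟨h i, Algebra.subset_adjoin (hGh i)⟩
  have hhS : ∀ i, algebraMap S M (hS i) = h i := fun i => rfl
  have hfrac : ∀ i, ∀ f ∈ F i, ∃ a b : S, a ∈ SF S (F i) ∧ b ∈ SF S (F i) ∧ 
      f = algebraMap S M a / algebraMap S M b := by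
    intro i f hf
    obtain ⟨a, ha, b, hb, haF, hbF, hab⟩ := hGF i f hf
    exact ⟨⟨a, hGS a ha⟩, ⟨b, hGS b hb⟩, haF, hbF, hab⟩
  have hunit : ∀ γ : Γ, ∀ i, (∃ a : F i, actF (F i) (hF i) γ a ≠ a) → 
      ∃ s ∈ SF S (F i), IsUnit (s - γ • s) := by
    intro γ i hi
    obtain ⟨s, hs, hsF, hs0, hs1⟩ := hGu γ i hi
    refine ⟨⟨s, Algebra.subset_adjoin hs⟩, hsF, ?_⟩
    refine IsUnit.of_mul_eq_one ⟨_, Algebra.subset_adjoin hs1⟩ ?_
    apply Subtype.ext
    change (s - γ • s) * (s - γ • s)⁻¹ = 1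
    exact mul_inv_cancel₀ hs0
  have hae : ∀ q : MvPolynomial ι k, ((MvPolynomial.aeval hS q : S) : M) = 
      MvPolynomial.aeval (fun i => (h i : M)) q := by
    intro q
    have := MvPolynomial.comp_aeval_apply hS (IsScalarTower.toAlgHom k S M) q
    exact this
  have hpS : ∀ a ∈ A₀, IsUnit (MvPolynomial.aeval hS (p a).leadingCoeff) := by
    intro a ha
    refine IsUnit.of_mul_eq_one ⟨_, Algebra.subset_adjoin (hp' a ha)⟩ ?_
    apply Subtype.ext
    change ((MvPolynomial.aeval hS (p a).leadingCoeff : S) : M) * _ = 1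
    rw [hae]
    exact mul_inv_cancel₀ (hp a ha)
  have hpaS : ∀ a ∈ A₀, ((p a).map (MvPolynomial.aeval hS).toRingHom).eval (algebraMap R S a) = 0 := by
    intro a ha
    apply hj
    rw [map_zero, ← hpa a ha, eval_map, eval_map, Polynomial.hom_eval₂]
    congr 1
    ext c
    · simp
    · simp
      rfl
  exact finite_of_facts hA₀ hgen 
    (factOne F hF μ lam hcrit x h f hx N hN hS hhS hinj hj (fun _ _ => rfl) hfrac hfaith hunit A₀ hA₀ p 
      hpS hpaS)
    (factTwo F hF μ lam hcrit x h f hx hh N hN hS hhS hinj hj (fun _ _ => rfl) hfrac hfaith hunit A₀ p 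
      hpS hpaS) K P₀ x₀

include hcrit hx hfaith in
theorem alg_main {K : Type v} [Field K] [Algebra k K] [Algebra K M] [IsScalarTower k K M] 
    [SMulCommClass Γ K M] [Algebra.IsInvariant K M Γ]
    [Algebra.IsAlgebraic (⨆ i, F i : IntermediateField k M) M]
    (hlam : ∀ i, (Function.support (lam i)).Finite)
    (hdeg : ∀ i, ∑ᶠ v, (lam i v : ℤ) < μ i * canDeg k (x i)) : 
    ∀ A : Subalgebra k K, A.FG → ∃ T : Set K, T.Finite ∧ 
      ∀ d ∈ A, d ≠ 0 → T ⊆ (Algebra.adjoin k ((A : Set K) ∪ {d⁻¹}) : Set K) →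
      ∀ (E : Type u) [Field E] [Algebra k E] [FF k E] (P : Place k E)
        (x : Algebra.adjoin k ((A : Set K) ∪ {d⁻¹}) →ₐ[k] k),
        {φ : Algebra.adjoin k ((A : Set K) ∪ {d⁻¹}) →ₐ[k] E |
          ∀ r, P.Ge 1 (φ r - algebraMap k E (x r))}.Finite := by
  classical
  rintro A ⟨A₀, hA₀⟩
  obtain ⟨N, f, h, hh, hN⟩ := exists_multipliers μ lam x hx hlam hdeg
  -- relations
  have hrel : ∀ a : K, ∃ p : Polynomial (MvPolynomial ι k), 
      MvPolynomial.aeval (fun i => (h i : M)) p.leadingCoeff ≠ 0 ∧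
      (p.map (MvPolynomial.aeval (fun i => (h i : M))).toRingHom).eval (algebraMap K M a) = 0 := 
    fun a => exists_relation_of_isAlgebraic (fun i => (h i : M)) 
      (isAlgebraic_adjoin_of_iSup h hh (algebraMap K M a))
  choose p hp hpa using hrel
  -- generators of F i
  have hFG : ∀ i, ∃ s : Finset M, IntermediateField.adjoin k (s : Set M) = F i := by
    intro i
    have h1 : Algebra.EssFiniteType k (F i) := FF.ess
    exact IntermediateField.essFiniteType_iff.1 h1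
  choose s hs using hFG
  have hw : ∀ (γ : Γ) (i : ι), ∃ w : M, (∃ a : F i, actF (F i) (hF i) γ a ≠ a) → 
      w ∈ F i ∧ w - γ • w ≠ 0 := by
    intro γ i
    by_cases hi : ∃ a : F i, actF (F i) (hF i) γ a ≠ a
    · obtain ⟨a, ha⟩ := hi
      refine ⟨a, fun _ => ⟨a.2, ?_⟩⟩
      intro h0
      apply ha
      apply Subtype.ext
      rw [coe_actF]
      exact (sub_eq_zero.1 h0).symm
    · exact ⟨0, fun h => absurd h hi⟩
  choose w hw using hw
  let G₁ : Set M := Set.range (fun i => (h i : M)) ∪ (⋃ i, (s i : Set M)) ∪ 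
    Set.range (fun q : Γ × ι => w q.1 q.2) ∪ Set.range (fun q : Γ × ι => (w q.1 q.2 - q.1 • w q.1 q.2)⁻¹) ∪
    (fun a => (MvPolynomial.aeval (fun i => (h i : M)) (p a).leadingCoeff)⁻¹) '' (A₀ : Set K)
  have hG₁ : G₁.Finite := by
    refine Set.Finite.union (Set.Finite.union (Set.Finite.union (Set.Finite.union ?_ ?_) ?_) ?_) ?_
    · exact Set.finite_range _
    · exact Set.finite_iUnion (fun i => (s i).finite_toSet)
    · exact Set.finite_range _
    · exact Set.finite_range _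
    · exact A₀.finite_toSet.image _
  let G₀ : Set M := ⋃ γ : Γ, (fun z => γ • z) '' G₁
  have hG₀ : G₀.Finite := Set.finite_iUnion (fun γ => hG₁.image _)
  have hst : ∀ γ : Γ, ∀ g ∈ G₀, γ • g ∈ G₀ := by
    intro γ g hg
    rw [Set.mem_iUnion] at hg ⊢
    obtain ⟨τ, z, hz, rfl⟩ := hg
    exact ⟨γ * τ, z, hz, mul_smul γ τ z⟩
  have hsub : G₁ ⊆ G₀ := by
    intro z hz
    rw [Set.mem_iUnion]
    exact ⟨1, z, hz, one_smul Γ z⟩
  obtain ⟨TM, hTM, hTM1, hTM2⟩ := invariants_fg k G₀ hG₀ hst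
  refine ⟨(algebraMap K M) ⁻¹' TM, hTM.preimage (algebraMap K M).injective.injOn, ?_⟩
  intro d hd hd0 hTR E _ _ _ P
  generalize hR : Algebra.adjoin k ((A : Set K) ∪ {d⁻¹}) = R at hTR ⊢
  intro x₀
  have hAR : A ≤ R := fun z hz => by rw [← hR]; exact Algebra.subset_adjoin (Or.inl hz)
  have hdR : d⁻¹ ∈ R := by rw [← hR]; exact Algebra.subset_adjoin (Or.inr rfl)
  have hRK : ∀ r : R, algebraMap R M r = algebraMap K M r := fun r => rfl
  have hcommR : SMulCommClass Γ R M := ⟨fun γ r m => by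
    change γ • ((r : K) • m) = (r : K) • (γ • m)
    exact smul_comm γ (r : K) m⟩
  have htowerR : IsScalarTower k R M := IsScalarTower.of_algebraMap_eq (fun c => by
    rw [hRK]
    change algebraMap k M c = algebraMap K M (algebraMap k K c)
    rw [← IsScalarTower.algebraMap_apply])
  have hRM : Function.Injective (algebraMap R M) := fun a b hab => 
    Subtype.ext ((algebraMap K M).injective hab)
  -- the finite set
  let A₀R : Set R := {r | (r : K) ∈ A₀}
  have hA₀R : A₀R.Finite := A₀.finite_toSet.preimage Subtype.val_injective.injOn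
  have hA₀A : (A₀ : Set K) ⊆ A := by rw [← hA₀]; exact Algebra.subset_adjoin
  have himg : R.val '' A₀R = A₀ := by
    ext z
    constructor
    · rintro ⟨r, hr, rfl⟩; exact hr
    · intro hz
      exact ⟨⟨z, hAR (hA₀A hz)⟩, hz, rfl⟩
  have hgen : GenBy k A₀R := by
    refine ⟨⟨d, hAR hd⟩, ?_, ⟨d⁻¹, hdR⟩, ?_, ?_⟩
    · have h1 : d ∈ (Algebra.adjoin k A₀R).map R.val := by
        rw [AlgHom.map_adjoin, himg, hA₀]; exact hd
      obtain ⟨y, hy, hyd⟩ := h1
      have : y = ⟨d, hAR hd⟩ := Subtype.ext hyd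
      rw [← this]; exact hy
    · apply Subtype.ext
      exact mul_inv_cancel₀ hd0
    · rw [eq_top_iff]
      intro r _
      have h1 : (r : K) ∈ (Algebra.adjoin k (A₀R ∪ {⟨d⁻¹, hdR⟩})).map R.val := by
        rw [AlgHom.map_adjoin, Set.image_union, himg, Set.image_singleton]
        have h2 : R ≤ Algebra.adjoin k ((A₀ : Set K) ∪ {d⁻¹}) := by
          rw [← hR]
          apply Algebra.adjoin_le
          rintro z (hz | hz)
          · have h3 : A ≤ Algebra.adjoin k ((A₀ : Set K) ∪ {d⁻¹}) := by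
              rw [← hA₀]
              exact Algebra.adjoin_mono Set.subset_union_left
            exact h3 hz
          · exact Algebra.subset_adjoin (Or.inr hz)
        exact h2 r.2
      obtain ⟨y, hy, hyr⟩ := h1
      have : y = r := Subtype.ext hyr
      rw [← this]; exact hy
  refine alg_core F hF μ lam hcrit x h f hx hh N hN hfaith hRM A₀R hA₀R hgen G₀ hG₀ hst ?_ ?_ ?_ ?_ 
    (fun r => p r) (fun a _ => hp a) ?_ (fun a _ => hpa a) E P x₀
  · intro z hz hγ
    have h1 := hTM2 z hz hγ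
    have h2 : Algebra.adjoin k TM ≤ R.map (IsScalarTower.toAlgHom k K M) := by
      apply Algebra.adjoin_le
      intro t ht
      obtain ⟨t', rfl⟩ := Algebra.IsInvariant.isInvariant (A := K) (G := Γ) t (hTM1 t ht)
      exact ⟨t', hTR ht, rfl⟩
    obtain ⟨r, hr, hrz⟩ := h2 h1
    exact ⟨⟨r, hr⟩, hrz⟩
  · intro i
    exact hsub (Or.inl (Or.inl (Or.inl (Or.inl ⟨i, rfl⟩))))
  · intro i z hz
    rw [← hs i, IntermediateField.mem_adjoin_iff_div] at hz
    obtain ⟨a, ha, b, hb, hab⟩ := hz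
    have h1 : Algebra.adjoin k (s i : Set M) ≤ Algebra.adjoin k G₀ := by
      apply Algebra.adjoin_mono
      refine subset_trans ?_ hsub
      intro y hy
      exact Or.inl (Or.inl (Or.inl (Or.inr (Set.mem_iUnion.2 ⟨i, hy⟩))))
    have h2 : ∀ y ∈ Algebra.adjoin k (s i : Set M), y ∈ F i := by
      intro y hy
      rw [← hs i]
      exact IntermediateField.algebra_adjoin_le_adjoin _ _ hy
    exact ⟨a, h1 ha, b, h1 hb, h2 a ha, h2 b hb, hab⟩
  · intro γ i hi
    obtain ⟨h1, h2⟩ := hw γ i hi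
    refine ⟨w γ i, hsub (Or.inl (Or.inl (Or.inr ⟨(γ, i), rfl⟩))), h1, h2, 
      hsub (Or.inl (Or.inr ⟨(γ, i), rfl⟩))⟩
  · intro a ha
    exact hsub (Or.inr ⟨a, ha, rfl⟩)

end Build

end PGH
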