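import Mathlib
import Pool.Agent.Helper1_PGH.Build
import Pool.Agent.Helper10_PGH.Scheme

open CategoryTheory AlgebraicGeometry PGH

universe u v w

/-!
# A weighted Reid-Tai criterion for pseudo-geometric hyperbolicity

`k` is algebraically closed of characteristic zero and `X` is a variety over `k`.  The field `M` is
a finite Galois extension of the function field of `X` with group `G` (the fixed field of `G` is the
image of `j`), and the `F i` are `G`-stable function fields of one variable over `k` inside `M`,
i.e. the function fields of curves `C_i` on which `G` acts; `M` is algebraic over their compositum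
and only the identity acts trivially on all of them.  For example, `X` may be any variety
birational to `(C_1 × ⋯ × C_n) / G`, or a generically finite cover of a subvariety of such a
quotient.

The weights are natural numbers `μ i` and `lam i v` (for a place `v` of `F i`, almost all zero) with
`∑ v, lam i v < μ i * (2 g_i - 2)`.  The criterion `Crit` asks that, for each `g ≠ 1` in `G` of order
`r`, each primitive `r`-th root of unity `ζ`, and all places `v i` of `F i` fixed by `g` at which `g`
acts on the cotangent line by `ζ ^ e i` with `e i ≥ 1` (for the indices `i` in the set `S` of those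
for which `g` is not trivial on `F i`),
`r * ∑ i ∈ S, μ i ≤ ∑ i ∈ S, (μ i + lam i (v i)) * e i`.

Then `X` is pseudo-geometrically hyperbolic over `k`.
-/

namespace Pool.Agent.Results.MP_5b1cbc_ag.ProductQuotient

theorem result {k : Type u} [Field k] [IsAlgClosed k] [CharZero k]
    {X : Scheme.{u}} (f : X ⟶ Spec (.of k)) [IsIntegral X] [IsSeparated f]
    [LocallyOfFiniteType f] [QuasiCompact f]
    {M : Type u} [Field M] [Algebra k M] {G : Type v} [Group G] [Finite G]
    [MulSemiringAction G M] [SMulCommClass G k M] (j : X.functionField →+* M)
    (hj : ∀ c, j (constants k f c) = algebraMap k M c)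
    (hfix : ∀ m : M, (∀ g : G, g • m = m) ↔ m ∈ j.range)
    {ι : Type w} [Fintype ι] (F : ι → IntermediateField k M) [∀ i, FF k (F i)]
    (hF : ∀ i, ∀ g : G, ∀ z ∈ F i, g • z ∈ F i)
    (halg : Algebra.IsAlgebraic (⨆ i, F i : IntermediateField k M) M)
    (hfaith : ∀ g : G, (∀ i, ∀ z ∈ F i, g • z = z) → g = 1)
    (x : ∀ i, F i) (hx : ∀ i, Transcendental k (x i))
    (μ : ι → ℕ) (lam : ∀ i, Place k (F i) → ℕ) (hlam : ∀ i, (Function.support (lam i)).Finite)
    (hdeg : ∀ i, ∑ᶠ v, (lam i v : ℤ) < μ i * canDeg k (x i))
    (hcrit : Crit F hF μ lam) : IsPGH k f := by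
  let _ : Algebra k X.functionField := (constants k f).toAlgebra
  let _ : Algebra X.functionField M := j.toAlgebra
  have htower : IsScalarTower k X.functionField M := IsScalarTower.of_algebraMap_eq (fun c => (hj c).symm)
  have hcomm : SMulCommClass G X.functionField M := ⟨fun g a m => by
    rw [Algebra.smul_def, Algebra.smul_def, smul_mul']
    congr 1
    exact (hfix (j a)).2 ⟨a, rfl⟩ g⟩
  have hinv : Algebra.IsInvariant X.functionField M G := ⟨fun m hm => (hfix m).1 hm⟩
  refine isPGH_of_fields k f X.functionField (RingEquiv.refl _) (fun c => rfl) ?_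
  exact alg_main F hF μ lam hcrit x hx (by
    intro g hg
    by_contra hcon
    apply hg
    apply hfaith
    intro i z hz
    by_contra hne
    exact hcon ⟨i, ⟨z, hz⟩, fun h => hne (congrArg Subtype.val h)⟩) hlam hdeg

end Pool.Agent.Results.MP_5b1cbc_ag.ProductQuotient
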